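import Pool.Agent.MP_f49c72_ag.Lin

/-! The combinatorial properties of the `ℤ/7`-valued cochain that are used. -/

namespace Pool.Agent.MP_f49c72_ag

variable {V : Type} (c : V → V → Z7)

def hol (u v w : V) : Z7 := c u v + c v w + c w u

def Flat (u v w : V) : Prop := u ≠ v ∧ v ≠ w ∧ w ≠ u ∧ hol c u v w = 0

def C2 (s t u v : V) : Prop :=
  Flat c u s t ∨ ∃ r r', Flat c r s t ∧ Flat c r' s t ∧ r ≠ u ∧ r ≠ v ∧ r' ≠ u ∧ r' ≠ v ∧
    (c r s + c u r = c u v + c r s + c v r ∨
      (c r s + c u r ≠ c r' s + c u r' ∧ c u v + c r s + c v r ≠ c r' s + c u r') ∨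
      (c r s + c u r ≠ c u v + c r' s + c v r' ∧
        c u v + c r s + c v r ≠ c u v + c r' s + c v r'))

structure Comb [Fintype V] : Prop where
  anti : ∀ u v, c v u = - c u v
  diag : ∀ u, c u u = 0
  big : ∀ s u v : V, ∃ r, r ≠ s ∧ r ≠ u ∧ r ≠ v
  card : 3 < Fintype.card V
  nonflat : ∀ s t, s ≠ t → ∃ r, hol c r s t ≠ 0
  twoflat : ∀ s t u, s ≠ t → ∃ r, r ≠ u ∧ Flat c r s t
  c2 : ∀ s t u v, s ≠ t → u ≠ v → u ≠ s → u ≠ t → v ≠ s → v ≠ t →
    C2 c s t u v ∨ C2 c t s u v ∨ C2 c s t v u ∨ C2 c t s v u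
  c1 : ∀ s u, s ≠ u → ∃ v1 v2, v1 ≠ u ∧ v2 ≠ u ∧ Flat c s v1 v2 ∧ ∀ Z : V → Prop, Z v1 → Z v2 →
    (∀ v a, Flat c s v a → c u a + c a s = c u v + c v s → Z a → Z v) →
    (∀ v a b, Flat c s v a → Flat c s v b → c u v + c v s ≠ c u a + c a s →
      c u v + c v s ≠ c u b + c b s → c u a + c a s ≠ c u b + c b s → Z a → Z b → Z v) →
    ∀ v, v ≠ s → Z v
  cC : ∃ a b d f, Flat c a b d ∧ Flat c b d f ∧ Flat c f b a ∧ ∀ Z : V → V → Prop, Z a b →
    (∀ u v w, Flat c u v w → Z v w → Z u v) → (∀ u v, u ≠ v → Z v u → Z u v) →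
    ∀ u v, u ≠ v → Z u v
  cH : ∃ (o u0 v0 : V) (n : V → V → ℤ), (∀ v, c o v = 0) ∧ c u0 v0 ≠ 0 ∧ (∀ v, n o v = 0) ∧
    (∀ v, n v o = 0) ∧ n u0 v0 = 1 ∧ n v0 u0 = -1 ∧
    (∃ a b d, Flat c a b d ∧ n a b + n b d + n d a = 7) ∧
    ∀ Z : V → V → Prop, (∀ v, v ≠ o → Z o v) → (∀ v, v ≠ o → Z v o) → Z u0 v0 → Z v0 u0 →
      (∀ u v w, Flat c u v w → n u v + n v w + n w u = 0 → Z v w → Z w u → Z u v) →
      ∀ u v, u ≠ v → Z u v
  chir : ∀ π : Equiv.Perm V, (∀ u v w, Flat c u v w ↔ Flat c (π u) (π v) (π w)) →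
    ∃ u v w, u ≠ v ∧ v ≠ w ∧ w ≠ u ∧ hol c u v w ≠ 0 ∧ π u = u ∧ π v = v ∧ π w = w

variable {c}

lemma Flat.cyc {u v w : V} (h : Flat c u v w) : Flat c v w u :=
  ⟨h.2.1, h.2.2.1, h.1, by rw [← h.2.2.2]; unfold hol; ring⟩

variable [Fintype V]

lemma Comb.flat_swap (hc : Comb c) {u v w : V} (h : Flat c u v w) : Flat c u w v :=
  ⟨h.2.2.1.symm, h.2.1.symm, h.1.symm, by
    have := h.2.2.2
    unfold hol at this ⊢
    rw [hc.anti w u, hc.anti v w, hc.anti u v]; linear_combination -this⟩

lemma Comb.flat_add (hc : Comb c) {u v w : V} (h : Flat c u v w) : c u w = c u v + c v w := by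
  have := h.2.2.2
  unfold hol at this
  rw [hc.anti w u]; linear_combination -this

variable {k : Type*} [Field k] {χ : AddChar Z7 k}

/-- vanishing of the (twisted) first cohomology of the complex of flat triangles. -/
lemma Comb.h1 (hc : Comb c) (hχ : GoodChar χ) (w : Z7) (f : V → V → k)
    (hanti : ∀ u v, u ≠ v → f u v + χ (w * c u v) * f v u = 0)
    (hcoc : ∀ u v t, Flat c u v t →
      f u v + χ (w * c u v) * f v t + χ (w * c u t) * f t u = 0) :
    ∃ b : V → k, ∀ u v, u ≠ v → f u v = b u - χ (w * c u v) * b v := by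
  classical
  obtain ⟨o, u0, v0, n, ho, h0, no1, no2, n1, n2, ⟨a, b, d, habd, h7⟩, hind⟩ := hc.cH
  have ho' : ∀ v, c v o = 0 := fun v => by rw [hc.anti o v, ho, neg_zero]
  have hu0 : u0 ≠ o := fun e => h0 (by rw [e, ho])
  have hv0 : v0 ≠ o := fun e => h0 (by rw [e, ho'])
  have huv0 : u0 ≠ v0 := fun e => h0 (by rw [e, hc.diag])
  set β : k := (f u0 v0 + f o u0 - χ (w * c u0 v0) * f o v0) / (1 - χ (w * c u0 v0)) with hβ
  set B : V → k := fun v => if v = o then β else β - f o v with hB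
  set g : V → V → k := fun u v => f u v - (B u - χ (w * c u v) * B v) with hg
  have ganti : ∀ u v, u ≠ v → g u v + χ (w * c u v) * g v u = 0 := by
    intro u v huv
    have e : χ (w * c u v) * χ (w * c v u) = 1 := by
      rw [hc.anti u v, mul_neg, chi_mul_neg]
    simp only [hg]
    linear_combination hanti u v huv + B u * e
  have gcoc : ∀ u v t, Flat c u v t →
      g u v + χ (w * c u v) * g v t + χ (w * c u t) * g t u = 0 := by
    intro u v t h
    have e : χ (w * c u t) * χ (w * c t u) = 1 := by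
      rw [hc.anti u t, mul_neg, chi_mul_neg]
    have e2 : χ (w * c u v) * χ (w * c v t) = χ (w * c u t) := by
      rw [← AddChar.map_add_eq_mul, hc.flat_add h, mul_add]
    simp only [hg]
    linear_combination hcoc u v t h + B u * e + B t * e2
  have go : ∀ v, v ≠ o → g o v = 0 := by
    intro v hv
    simp [hg, hB, hv, ho]
  have go' : ∀ v, v ≠ o → g v o = 0 := by
    intro v hv
    have := ganti o v hv.symm
    rw [go v hv, ho] at this
    simpa using this
  have hx : w = 0 ∨ g u0 v0 = 0 := by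
    by_cases hw : w = 0
    · exact Or.inl hw
    · right
      have hne : 1 - χ (w * c u0 v0) ≠ 0 := by
        intro e
        have : Fact (Nat.Prime 7) := ⟨by norm_num⟩
        exact mul_ne_zero hw h0 (hχ.inj _ (by linear_combination -e))
      simp only [hg, hB, hu0, hv0, if_false]
      have : β * (1 - χ (w * c u0 v0)) = f u0 v0 + f o u0 - χ (w * c u0 v0) * f o v0 := by
        rw [hβ]; field_simp
      linear_combination -this
  have key : ∀ u v, u ≠ v → g u v = n u v * g u0 v0 := by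
    apply hind
    · intro v hv; rw [go v hv, no1]; simp
    · intro v hv; rw [go' v hv, no2]; simp
    · rw [n1]; simp
    · rw [n2]
      have := ganti u0 v0 huv0
      rcases hx with hw | hx
      · rw [hw] at this; simp at this ⊢; linear_combination this
      · rw [hx] at this ⊢
        simpa [chi_ne] using this
    · intro u v t h hn h1 h2
      have := gcoc u v t h
      have hn' : (n u v : k) + n v t + n t u = 0 := by exact_mod_cast congrArg (Int.cast : ℤ → k) hn
      rw [h1, h2] at this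
      rcases hx with hw | hx
      · rw [hw] at this; simp at this; linear_combination this - g u0 v0 * hn'
      · rw [hx] at this ⊢; simpa using this
  have hz : g u0 v0 = 0 := by
    rcases hx with hw | hx
    · have := gcoc a b d habd
      rw [key a b habd.1, key b d habd.2.1, key d a habd.2.2.1, hw] at this
      have hn' : (n a b : k) + n b d + n d a = 7 := by
        exact_mod_cast congrArg (Int.cast : ℤ → k) h7
      simp at this
      have h3 : 7 * g u0 v0 = 0 := by linear_combination this - g u0 v0 * hn'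
      exact (mul_eq_zero.1 h3).resolve_left hχ.seven
    · exact hx
  refine ⟨B, fun u v huv => ?_⟩
  have := key u v huv
  rw [hz, mul_zero] at this
  simp only [hg] at this
  linear_combination this

/-- vanishing of the cubic part. -/
lemma Comb.hC (hc : Comb c) (hχ : GoodChar χ) (w : Z7) (f : V → V → k)
    (hanti : ∀ u v, u ≠ v → f u v + χ (w * c u v) * f v u = 0)
    (hcoc : ∀ u v t, Flat c u v t → f u v = χ (w * c u v) * f v t) :
    ∀ u v, u ≠ v → f u v = 0 := by
  obtain ⟨a, b, d, e, h1, h2, h3, hind⟩ := hc.cC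
  apply hind (fun u v => f u v = 0)
  · have e1 := hcoc a b d h1
    have e2 := hcoc b d e h2
    have e3 := hcoc d e b h2.cyc
    have e4 := hcoc e b a h3
    have e5 := hanti a b h1.1
    have : f b a * (χ (w * c a b) * (χ (w * c b d + w * c d e + w * c e b) + 1)) = 0 := by
      rw [AddChar.map_add_eq_mul, AddChar.map_add_eq_mul]
      rw [e2, e3, e4] at e1
      linear_combination e5 - e1
    have h0 : f b a = 0 :=
      (mul_eq_zero.1 this).resolve_right (mul_ne_zero (chi_ne _) (hχ.ne_neg_one _))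
    rw [h0] at e5; simpa using e5
  · intro u v t h h0
    rw [hcoc u v t h, h0, mul_zero]
  · intro u v huv h0
    have := hanti u v huv
    rw [h0] at this; simpa using this

end Pool.Agent.MP_f49c72_ag
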