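import Pool.Agent.MP_f49c72_ag.Gen
import Pool.Agent.MP_f49c72_ag.Comb

/-! The twisted quadrics, framed variables and the functionals vanishing on the ideal. -/

namespace Pool.Agent.MP_f49c72_ag

open MvPolynomial

universe u

variable {k : Type u} [Field k] {V : Type}

/-- the family of quadrics. -/
def QQ (χ : AddChar Z7 k) (c : V → V → Z7) : Binom k (Fin 3 × V) (V × V × Fin 3 × Fin 3) where
  a := fun p => (p.2.2.1, p.1)
  b := fun p => (p.2.2.2, p.2.1)
  a' := fun p => (p.2.2.2, p.1)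
  b' := fun p => (p.2.2.1, p.2.1)
  α := fun p => χ (ew p.2.2.2 * c p.1 p.2.1)
  β := fun p => χ (ew p.2.2.1 * c p.1 p.2.1)

lemma mem_of_X_mul {ι : Type} (W : Submodule k (MvPolynomial ι k))
    (hW : ∀ a, ∀ f ∈ W, X a * f ∈ W) (g : MvPolynomial ι k) : ∀ f ∈ W, g * f ∈ W := by
  induction g using MvPolynomial.induction_on with
  | C r => intro f hf; rw [← smul_eq_C_mul]; exact W.smul_mem _ hf
  | add p q hp hq => intro f hf; rw [add_mul]; exact add_mem (hp f hf) (hq f hf)
  | mul_X p e hp => intro f hf; rw [mul_assoc]; exact hp _ (hW e f hf)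

lemma Binom.I_le {ι κ : Type} (Q : Binom k ι κ) (W : Submodule k (MvPolynomial ι k))
    (hW : ∀ a, ∀ f ∈ W, X a * f ∈ W) (hq : ∀ j, Q.q j ∈ W) : ∀ f ∈ Q.I, f ∈ W := by
  intro f hf
  induction hf using Submodule.span_induction with
  | mem x hx => obtain ⟨j, rfl⟩ := hx; exact hq j
  | zero => exact zero_mem _
  | add x y _ _ hx hy => exact add_mem hx hy
  | smul a x _ hx => exact mem_of_X_mul W hW a x hx

variable (χ : AddChar Z7 k)

noncomputable def xf (u : V) (a : Z7) (i : Fin 3) : MvPolynomial (Fin 3 × V) k :=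
  χ (ew i * a) • X (i, u)

noncomputable def qf (u : V) (a : Z7) (v : V) (b : Z7) (i j : Fin 3) :
    MvPolynomial (Fin 3 × V) k :=
  xf χ u a i * xf χ v b j + xf χ u a j * xf χ v b i

lemma xf_zero (u : V) (i : Fin 3) : xf χ u 0 i = X (i, u) := by simp [xf]

lemma xf_re (u : V) (a a' : Z7) (i : Fin 3) : xf χ u a i = χ (ew i * (a - a')) • xf χ u a' i := by
  rw [xf, xf, smul_smul, ← AddChar.map_add_eq_mul]; congr 2; ring

lemma qf_comm (u : V) (a : Z7) (v : V) (b : Z7) (i j : Fin 3) :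
    qf χ v b u a i j = qf χ u a v b i j := by unfold qf; ring

lemma qf_symm (u : V) (a : Z7) (v : V) (b : Z7) (i j : Fin 3) :
    qf χ u a v b j i = qf χ u a v b i j := by unfold qf; ring

lemma qf_shift (u : V) (a : Z7) (v : V) (b δ : Z7) (i j : Fin 3) :
    qf χ u (a + δ) v (b + δ) i j = χ ((ew i + ew j) * δ) • qf χ u a v b i j := by
  unfold qf
  rw [xf_re χ u (a + δ) a i, xf_re χ u (a + δ) a j, xf_re χ v (b + δ) b i, xf_re χ v (b + δ) b j]
  rw [add_mul (ew i), AddChar.map_add_eq_mul]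
  simp only [add_sub_cancel_left, mul_smul_comm, smul_smul, smul_add, mul_comm]

variable (c : V → V → Z7)

lemma qf_eq_q (u v : V) (i j : Fin 3) : qf χ u 0 v (c u v) i j = (QQ χ c).q (u, v, i, j) := by
  simp [qf, xf, Binom.q, Binom.ev, QQ]

lemma qf_mem {u v : V} {a b : Z7} (h : b = a + c u v) (i j : Fin 3) :
    qf χ u a v b i j ∈ (QQ χ c).I2 := by
  have := qf_shift χ u 0 v (c u v) a i j
  rw [zero_add, add_comm, ← h, qf_eq_q] at this
  rw [this]
  exact Submodule.smul_mem _ _ ((QQ χ c).q_mem_I2 _)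

noncomputable def D1 (s : V) (p : Z7) (i : Fin 3) : MvPolynomial (Fin 3 × V) k →ₗ[k] k :=
  χ (-(ew i * p)) • d1 (i, s)

noncomputable def D2 (s : V) (p : Z7) (i : Fin 3) (t : V) (q : Z7) (j : Fin 3) :
    MvPolynomial (Fin 3 × V) k →ₗ[k] k :=
  (χ (-(ew i * p)) * χ (-(ew j * q))) • d2 (i, s) (j, t)

noncomputable def D3 (r : V) (o : Z7) (i : Fin 3) (s : V) (p : Z7) (j : Fin 3) (t : V) (q : Z7)
    (l : Fin 3) : MvPolynomial (Fin 3 × V) k →ₗ[k] k :=
  (χ (-(ew i * o)) * χ (-(ew j * p)) * χ (-(ew l * q))) • d3 (i, r) (j, s) (l, t)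

noncomputable def L2 (s : V) (p : Z7) (t : V) (q : Z7) (m : Fin 3) :
    MvPolynomial (Fin 3 × V) k →ₗ[k] k :=
  ∑ i, ∑ j, eps k m i j • D2 χ s p i t q j

noncomputable def L3 (r : V) (o : Z7) (s : V) (p : Z7) (t : V) (q : Z7) :
    MvPolynomial (Fin 3 × V) k →ₗ[k] k :=
  ∑ i, ∑ j, ∑ l, eps k i j l • D3 χ r o i s p j t q l

lemma L2_apply (s : V) (p : Z7) (t : V) (q : Z7) (m : Fin 3) (f : MvPolynomial (Fin 3 × V) k) :
    L2 χ s p t q m f = ∑ i, ∑ j, eps k m i j * D2 χ s p i t q j f := by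
  simp [L2, LinearMap.sum_apply]

lemma L3_apply (r : V) (o : Z7) (s : V) (p : Z7) (t : V) (q : Z7)
    (f : MvPolynomial (Fin 3 × V) k) :
    L3 χ r o s p t q f = ∑ i, ∑ j, ∑ l, eps k i j l * D3 χ r o i s p j t q l f := by
  simp [L3, LinearMap.sum_apply]

@[simp] lemma c0_xf (u : V) (a : Z7) (i : Fin 3) : c0 (xf χ u a i) = 0 := by simp [xf]

lemma D1_re (s : V) (p p' : Z7) (i : Fin 3) (f : MvPolynomial (Fin 3 × V) k) :
    D1 χ s p i f = χ (ew i * (p' - p)) * D1 χ s p' i f := by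
  simp only [D1, LinearMap.smul_apply, smul_eq_mul]
  rw [← mul_assoc, ← AddChar.map_add_eq_mul]; congr 2; ring

lemma L2_shift (s : V) (p : Z7) (t : V) (q δ : Z7) (m : Fin 3) (f : MvPolynomial (Fin 3 × V) k) :
    L2 χ s (p + δ) t (q + δ) m f = χ ((ew m - 4) * δ) * L2 χ s p t q m f := by
  simp only [L2_apply, Finset.mul_sum]
  refine Finset.sum_congr rfl fun i _ => Finset.sum_congr rfl fun j _ => ?_
  by_cases h : epsZ m i j = 0
  · simp [eps, h]
  · have hw := epsZ_weight m i j h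
    simp only [D2, LinearMap.smul_apply, smul_eq_mul]
    have : χ (-(ew i * (p + δ))) * χ (-(ew j * (q + δ))) =
        χ ((ew m - 4) * δ) * (χ (-(ew i * p)) * χ (-(ew j * q))) := by
      simp only [← AddChar.map_add_eq_mul]; congr 1
      rw [← hw]; ring
    rw [this]; ring

variable [DecidableEq V]

lemma D1_xf (s : V) (p : Z7) (m : Fin 3) (u : V) (a : Z7) (i : Fin 3) :
    D1 χ s p m (xf χ u a i) = if s = u ∧ m = i then χ (ew i * (a - p)) else 0 := by
  simp only [D1, xf, LinearMap.smul_apply, map_smul, d1_X, smul_eq_mul, Prod.mk.injEq]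
  by_cases h : s = u ∧ m = i
  · obtain ⟨rfl, rfl⟩ := h
    simp only [and_self, if_true, mul_one, ← AddChar.map_add_eq_mul]; congr 1; ring
  · rw [if_neg h, if_neg (fun h' => h h'.symm)]; simp

lemma D1_xf_mul (s : V) (p : Z7) (m : Fin 3) (u : V) (a : Z7) (i : Fin 3)
    (g : MvPolynomial (Fin 3 × V) k) :
    D1 χ s p m (xf χ u a i * g) = (if s = u ∧ m = i then χ (ew i * (a - p)) else 0) * c0 g := by
  rw [← D1_xf]
  simp only [D1, LinearMap.smul_apply, d1_mul, c0_xf, smul_eq_mul]; ring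

lemma D2_xf_mul (s : V) (p : Z7) (m : Fin 3) (t : V) (q : Z7) (n : Fin 3) (u : V) (a : Z7)
    (i : Fin 3) (g : MvPolynomial (Fin 3 × V) k) :
    D2 χ s p m t q n (xf χ u a i * g) = D1 χ s p m (xf χ u a i) * D1 χ t q n g +
      D1 χ t q n (xf χ u a i) * D1 χ s p m g := by
  have : d2 (m, s) (n, t) (xf χ u a i) = 0 := by simp [xf]
  simp only [D1, D2, LinearMap.smul_apply, d2_mul, c0_xf, smul_eq_mul, this]; ring

lemma D2_comm (s : V) (p : Z7) (m : Fin 3) (t : V) (q : Z7) (n : Fin 3)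
    (g : MvPolynomial (Fin 3 × V) k) : D2 χ t q n s p m g = D2 χ s p m t q n g := by
  simp only [D2, LinearMap.smul_apply, smul_eq_mul, d2_comm (n, t)]; ring

lemma D3_xf_mul (r : V) (o : Z7) (l : Fin 3) (s : V) (p : Z7) (m : Fin 3) (t : V) (q : Z7)
    (n : Fin 3) (u : V) (a : Z7) (i : Fin 3) (g : MvPolynomial (Fin 3 × V) k) :
    D3 χ r o l s p m t q n (xf χ u a i * g) =
      D1 χ r o l (xf χ u a i) * D2 χ s p m t q n g + D1 χ s p m (xf χ u a i) * D2 χ t q n r o l g +
        D1 χ t q n (xf χ u a i) * D2 χ r o l s p m g := by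
  have h2 : ∀ e f, d2 e f (xf χ u a i) = 0 := by intro e f; simp [xf]
  have h3 : ∀ e f h, d3 e f h (xf χ u a i) = 0 := by intro e f h; simp [xf]
  rw [D2_comm χ r o l t q n]
  simp only [D1, D2, D3, LinearMap.smul_apply, d3_mul, c0_xf, smul_eq_mul, h2, h3]; ring

lemma L2_swap (s : V) (p : Z7) (t : V) (q : Z7) (m : Fin 3) (g : MvPolynomial (Fin 3 × V) k) :
    L2 χ t q s p m g = - L2 χ s p t q m g := by
  rw [L2_apply, L2_apply, Finset.sum_comm, ← Finset.sum_neg_distrib]
  refine Finset.sum_congr rfl fun i _ => ?_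
  rw [← Finset.sum_neg_distrib]
  refine Finset.sum_congr rfl fun j _ => ?_
  rw [D2_comm, eps_swap]; ring

lemma L2_xf_mul (s : V) (p : Z7) (t : V) (q : Z7) (m : Fin 3) (u : V) (a : Z7)
    (i : Fin 3) (g : MvPolynomial (Fin 3 × V) k) :
    L2 χ s p t q m (xf χ u a i * g) =
      (if s = u then χ (ew i * (a - p)) * ∑ j, eps k m i j * D1 χ t q j g else 0) +
      (if t = u then χ (ew i * (a - q)) * ∑ j, eps k m j i * D1 χ s p j g else 0) := by
  simp only [L2_apply, D2_xf_mul, D1_xf, mul_add, Finset.sum_add_distrib]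
  congr 1
  · rw [Finset.sum_comm]
    by_cases h : s = u <;> simp [h, Finset.mul_sum, mul_left_comm]
  · by_cases h : t = u <;> simp [h, Finset.mul_sum, mul_left_comm]

lemma L3_xf_mul (r : V) (o : Z7) (s : V) (p : Z7) (t : V) (q : Z7) (u : V) (a : Z7)
    (i : Fin 3) (g : MvPolynomial (Fin 3 × V) k) :
    L3 χ r o s p t q (xf χ u a i * g) =
      (if r = u then χ (ew i * (a - o)) * L2 χ s p t q i g else 0) +
      (if s = u then χ (ew i * (a - p)) * L2 χ t q r o i g else 0) +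
      (if t = u then χ (ew i * (a - q)) * L2 χ r o s p i g else 0) := by
  simp only [L3_apply, L2_apply, D3_xf_mul, D1_xf, mul_add, Finset.sum_add_distrib]
  congr 1
  congr 1
  · by_cases h : r = u
    · rw [if_pos h, Finset.sum_eq_single i] <;> simp +contextual [h, Finset.mul_sum, mul_left_comm]
    · simp [h]
  · by_cases h : s = u
    · rw [if_pos h, Finset.sum_comm, Finset.sum_eq_single i, Finset.sum_comm]
      · simp only [h, and_self, if_true, Finset.mul_sum]
        refine Finset.sum_congr rfl fun j _ => Finset.sum_congr rfl fun l _ => ?_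
        rw [eps_cyc l i j]; ring
      · simp +contextual
      · simp
    · simp [h]
  · by_cases h : t = u
    · simp only [h, true_and, if_true, Finset.mul_sum]
      refine Finset.sum_congr rfl fun j _ => Finset.sum_congr rfl fun l _ => ?_
      rw [Finset.sum_eq_single i]
      · rw [eps_cyc i j l]; simp; ring
      · simp +contextual
      · simp
    · simp [h]

lemma L2_xf_xf (s : V) (p : Z7) (t : V) (q : Z7) (m : Fin 3) (u : V) (a : Z7)
    (i : Fin 3) (v : V) (b : Z7) (j : Fin 3) :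
    L2 χ s p t q m (xf χ u a i * xf χ v b j) =
      (if s = u ∧ t = v then eps k m i j * χ (ew i * (a - p)) * χ (ew j * (b - q)) else 0) +
      (if t = u ∧ s = v then eps k m j i * χ (ew i * (a - q)) * χ (ew j * (b - p)) else 0) := by
  rw [L2_xf_mul]
  simp only [D1_xf]
  congr 1
  · by_cases h : s = u <;> by_cases h' : t = v <;> simp [h, h']; ring
  · by_cases h : t = u <;> by_cases h' : s = v <;> simp [h, h']; ring

variable {c}

lemma L2_qf (hc : ∀ u v, c v u = - c u v) {s t u v : V} {p q a b : Z7} (h1 : q = p + c s t)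
    (h2 : b = a + c u v) (m i j : Fin 3) : L2 χ s p t q m (qf χ u a v b i j) = 0 := by
  simp only [qf, map_add, L2_xf_xf]
  have e1 : s = u ∧ t = v → b - q = a - p := by rintro ⟨rfl, rfl⟩; rw [h1, h2]; ring
  have e2 : t = u ∧ s = v → b - p = a - q := by rintro ⟨rfl, rfl⟩; rw [h1, h2, hc s t]; ring
  rw [eps_swap m j i]
  by_cases h : s = u ∧ t = v <;> by_cases h' : t = u ∧ s = v
  · simp only [if_pos h, if_pos h', e1 h, e2 h']; ring
  · simp only [if_pos h, if_neg h', e1 h]; ring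
  · simp only [if_neg h, if_pos h', e2 h']; ring
  · simp only [if_neg h, if_neg h']; ring

lemma kill_I (hc : ∀ u v, c v u = - c u v) {f : MvPolynomial (Fin 3 × V) k}
    (hf : f ∈ (QQ χ c).I) : c0 f = 0 ∧ (∀ s p m, D1 χ s p m f = 0) ∧
      (∀ s p t q m, q = p + c s t → L2 χ s p t q m f = 0) ∧
      ∀ r o s p t q, p = o + c r s → q = p + c s t → o = q + c t r → L3 χ r o s p t q f = 0 := by
  let W : Submodule k (MvPolynomial (Fin 3 × V) k) :=
    { carrier := {f | c0 f = 0 ∧ (∀ s p m, D1 χ s p m f = 0) ∧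
        (∀ s p t q m, q = p + c s t → L2 χ s p t q m f = 0) ∧
        ∀ r o s p t q, p = o + c r s → q = p + c s t → o = q + c t r → L3 χ r o s p t q f = 0}
      add_mem' := by
        rintro f g ⟨h1, h2, h3, h4⟩ ⟨g1, g2, g3, g4⟩
        refine ⟨by simp [h1, g1], by simp [h2, g2], ?_, ?_⟩
        · intro s p t q m h; rw [map_add, h3 s p t q m h, g3 s p t q m h, add_zero]
        · intro r o s p t q e1 e2 e3
          rw [map_add, h4 r o s p t q e1 e2 e3, g4 r o s p t q e1 e2 e3, add_zero]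
      zero_mem' := by simp
      smul_mem' := by
        rintro r f ⟨h1, h2, h3, h4⟩
        refine ⟨by simp [h1], by simp [h2], ?_, ?_⟩
        · intro s p t q m h; rw [map_smul, h3 s p t q m h, smul_zero]
        · intro r o s p t q e1 e2 e3
          rw [map_smul, h4 r o s p t q e1 e2 e3, smul_zero] }
  refine (QQ χ c).I_le W ?_ ?_ f hf
  · rintro ⟨i, u⟩ f ⟨h1, h2, h3, h4⟩
    rw [← xf_zero χ]
    refine ⟨by simp, ?_, ?_, ?_⟩
    · intro s p m; rw [D1_xf_mul, h1, mul_zero]
    · intro s p t q m _; simp [L2_xf_mul, h2]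
    · intro r o s p t q e1 e2 e3
      rw [L3_xf_mul, h3 s p t q i e2, h3 t q r o i e3, h3 r o s p i e1]; simp
  · rintro ⟨u, v, i, j⟩
    refine ⟨by simp, by simp [D1], ?_, ?_⟩
    · intro s p t q m h
      rw [← qf_eq_q]
      exact L2_qf χ hc h (zero_add _).symm m i j
    · intro r o s p t q _ _ _
      simp [L3_apply, D3]

end Pool.Agent.MP_f49c72_ag
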