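import Mathlib

/-! Rational points of Hilbert schemes with their Zariski topology. -/

namespace Pool.Agent.MP_f49c72_ag

open MvPolynomial

universe u

/-- An ideal generated by monomials. -/
def IsMonomialIdeal {k : Type u} [Field k] {σ : Type} (I : Ideal (MvPolynomial σ k)) : Prop :=
  ∃ s : Set (σ →₀ ℕ), I = Ideal.span ((fun m => monomial m (1 : k)) '' s)

/-- The `k`-points of `Hilb^d(𝔸^n)`: ideals of colength `d` in `k[x_1, …, x_n]`. -/
structure HilbA (k : Type u) [Field k] (n d : ℕ) where
  ideal : Ideal (MvPolynomial (Fin n) k)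
  colength : Module.rank k (MvPolynomial (Fin n) k ⧸ ideal) = d

/-- The Zariski topology on `Hilb^d(𝔸^n)(k)`: it is generated by the sets of those `I` for which
`b_1, …, b_d` is a basis of `S/I` and a polynomial `Φ` in the coordinates `c (f, i)` of the classes
of elements `f ∈ S` with respect to this basis does not vanish. -/
instance zariskiA (k : Type u) [Field k] (n d : ℕ) : TopologicalSpace (HilbA k n d) :=
  TopologicalSpace.generateFrom {U | ∃ (b : Fin d → MvPolynomial (Fin n) k)
    (Φ : MvPolynomial (MvPolynomial (Fin n) k × Fin d) k),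
    U = {I | ∃ c : MvPolynomial (Fin n) k × Fin d → k,
      (∀ f, f - ∑ i, c (f, i) • b i ∈ I.ideal) ∧ eval c Φ ≠ 0}}

/-- The `k`-points of `Hilb^P(ℙ^n)`: saturated homogeneous ideals of `k[x_0, …, x_n]` with Hilbert
polynomial `P`. -/
structure HilbP (k : Type u) [Field k] (n : ℕ) (P : Polynomial ℚ) where
  ideal : Ideal (MvPolynomial (Fin (n + 1)) k)
  homogeneous : ∀ f ∈ ideal, ∀ t, homogeneousComponent t f ∈ ideal
  saturated : ∀ f, (∀ i, X i * f ∈ ideal) → f ∈ ideal
  hilbert : ∃ t₀ : ℕ, ∀ t ≥ t₀, (Module.finrank k ((homogeneousSubmodule (Fin (n + 1)) k t).map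
    (Ideal.Quotient.mkₐ k ideal).toLinearMap) : ℚ) = P.eval (t : ℚ)

/-- The topology on `Hilb^P(ℙ^n)(k)` induced from the Zariski topology of the Grassmannian of
subspaces of codimension `r = P(m)` in `S_m` through `I ↦ I_m`: it is generated by the sets of
those `I` for which `b_1, …, b_r ∈ S_m` span `(S/I)_m` and a polynomial `Φ` in the coordinates
`c (f, i)` of the classes of the forms `f ∈ S_m` does not vanish.  For `m` at least the Gotzmann
number of `P` this is the Zariski topology of the Hilbert scheme. -/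
@[reducible] def zariskiP (k : Type u) [Field k] (n : ℕ) (P : Polynomial ℚ) (m : ℕ) :
    TopologicalSpace (HilbP k n P) :=
  TopologicalSpace.generateFrom {U | ∃ (r : ℕ) (_ : (r : ℚ) = P.eval (m : ℚ))
    (b : Fin r → homogeneousSubmodule (Fin (n + 1)) k m)
    (Φ : MvPolynomial (homogeneousSubmodule (Fin (n + 1)) k m × Fin r) k),
    U = {I | ∃ c : homogeneousSubmodule (Fin (n + 1)) k m × Fin r → k,
      (∀ f : homogeneousSubmodule (Fin (n + 1)) k m,
        (f : MvPolynomial (Fin (n + 1)) k) - ∑ i, c (f, i) • (b i : MvPolynomial (Fin (n + 1)) k) ∈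
          I.ideal) ∧ eval c Φ ≠ 0}}

end Pool.Agent.MP_f49c72_ag
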