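import Pool.Agent.MP_f49c72_ag.Lin

/-! An automorphism of the field moving a seventh root of unity to a non-residue power. -/

namespace Pool.Agent.MP_f49c72_ag

universe u

lemma extend_aut {F : Type} {k : Type u} [Field F] [Field k] [Algebra F k] [IsAlgClosed k]
    (τ : F ≃+* F) : ∃ σ : k ≃+* k, ∀ x, σ (algebraMap F k x) = algebraMap F k (τ x) := by
  obtain ⟨s, hv⟩ := exists_isTranscendenceBasis F k
  let _ := IsAlgClosed.isAlgClosure_of_transcendence_basis _ hv
  let e : Algebra.adjoin F (Set.range ((↑) : s → k)) ≃+* Algebra.adjoin F (Set.range ((↑) : s → k)) :=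
    (hv.1.aevalEquiv.symm.toRingEquiv.trans (MvPolynomial.mapEquiv s τ)).trans
      hv.1.aevalEquiv.toRingEquiv
  refine ⟨IsAlgClosure.equivOfEquiv k k e, fun x => ?_⟩
  have h1 : algebraMap F k x =
      algebraMap (Algebra.adjoin F (Set.range ((↑) : s → k))) k (algebraMap F _ x) := rfl
  rw [h1, IsAlgClosure.equivOfEquiv_algebraMap]
  have : e (algebraMap F _ x) = algebraMap F _ (τ x) := by
    simp only [e, RingEquiv.trans_apply, AlgEquiv.coe_ringEquiv, AlgEquiv.commutes]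
    rw [MvPolynomial.algebraMap_eq, MvPolynomial.mapEquiv_apply, MvPolynomial.map_C,
      ← MvPolynomial.algebraMap_eq, AlgEquiv.commutes]
    rfl
  rw [this]; rfl

lemma exists_root (k : Type u) [Field k] [IsAlgClosed k]
    (hk : ringChar k = 0 ∨ ringChar k % 7 = 3 ∨ ringChar k % 7 = 5 ∨ ringChar k % 7 = 6) :
    ∃ (ζ : k) (σ : k ≃+* k) (j : ℕ), IsPrimitiveRoot ζ 7 ∧ (j = 3 ∨ j = 5 ∨ j = 6) ∧
      σ ζ = ζ ^ j := by
  rcases hk with h0 | hp
  · have : CharP k 0 := h0 ▸ ringChar.charP k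
    have : CharZero k := CharP.charP_to_charZero k
    let F := CyclotomicField 7 ℚ
    have : IsCyclotomicExtension {7} ℚ F := CyclotomicField.isCyclotomicExtension 7 ℚ
    have : Algebra.IsAlgebraic ℚ F := Algebra.IsAlgebraic.of_finite ℚ F
    let φ : F →ₐ[ℚ] k := IsAlgClosed.lift
    let _ : Algebra F k := φ.toRingHom.toAlgebra
    have hζ := IsCyclotomicExtension.zeta_spec 7 ℚ F
    have h3 := hζ.pow_of_coprime 3 (by norm_num)
    obtain ⟨σ, hσ⟩ := extend_aut (k := k) (IsCyclotomicExtension.fromZetaAut h3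
      (Polynomial.cyclotomic.irreducible_rat (by norm_num))).toRingEquiv
    refine ⟨algebraMap F k (IsCyclotomicExtension.zeta 7 ℚ F), σ, 3,
      hζ.map_of_injective (algebraMap F k).injective, Or.inl rfl, ?_⟩
    rw [hσ, ← map_pow]
    congr 1
    exact IsCyclotomicExtension.fromZetaAut_spec h3
      (Polynomial.cyclotomic.irreducible_rat (by norm_num))
  · have hne : ringChar k ≠ 0 := by intro h; rw [h] at hp; omega
    have hpr : (ringChar k).Prime := CharP.char_prime_of_ne_zero k hne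
    have : Fact (ringChar k).Prime := ⟨hpr⟩
    have : NeZero ((7 : ℕ) : k) := ⟨fun h => by
      have := (Nat.prime_dvd_prime_iff_eq hpr (by norm_num)).1 ((ringChar.spec k 7).1 h)
      omega⟩
    obtain ⟨ζ, hζ⟩ := HasEnoughRootsOfUnity.exists_primitiveRoot k 7
    refine ⟨ζ, frobeniusEquiv k (ringChar k), ringChar k % 7, hζ, hp, ?_⟩
    rw [coe_frobeniusEquiv, frobenius_def, ← pow_eq_pow_mod _ hζ.pow_eq_one]

lemma exists_char (k : Type u) [Field k] [IsAlgClosed k] (h3 : ringChar k ≠ 3)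
    (hk : ringChar k = 0 ∨ ringChar k % 7 = 3 ∨ ringChar k % 7 = 5 ∨ ringChar k % 7 = 6) :
    ∃ (χ : AddChar Z7 k) (σ : k ≃+* k) (J : Z7), GoodChar χ ∧ (J = 3 ∨ J = 5 ∨ J = 6) ∧
      ∀ x, σ (χ x) = χ (J * x) := by
  obtain ⟨ζ, σ, j, hζ, hj, hσ⟩ := exists_root k hk
  have hp : ∀ p : ℕ, p.Prime → (p : k) = 0 → ringChar k = p := by
    intro p hp h
    rcases (Nat.dvd_prime hp).1 ((ringChar.spec k p).1 h) with h1 | h1
    · exact absurd h1 CharP.ringChar_ne_one
    · exact h1
  refine ⟨AddChar.zmodChar 7 hζ.pow_eq_one, σ, j, ⟨fun h => ?_, fun h => ?_, fun h => ?_, ?_⟩, ?_,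
    fun x => ?_⟩
  · have := hp 2 (by norm_num) (by exact_mod_cast h); omega
  · have := hp 3 (by norm_num) (by exact_mod_cast h); omega
  · have := hp 7 (by norm_num) (by exact_mod_cast h); omega
  · intro x hx
    rw [AddChar.zmodChar_apply, hζ.pow_eq_one_iff_dvd] at hx
    rw [← ZMod.val_eq_zero]
    exact Nat.eq_zero_of_dvd_of_lt hx (ZMod.val_lt x)
  · rcases hj with rfl | rfl | rfl <;> simp
  · rw [← chi_pow, AddChar.zmodChar_apply, map_pow, hσ, ← pow_mul, ← pow_mul, mul_comm]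

end Pool.Agent.MP_f49c72_ag
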