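import Pool.Agent.MP_f49c72_ag.Lift
import Pool.Agent.MP_f49c72_ag.Alg

/-! Two systems of good generators give a linear substitution between the quadrics. -/

namespace Pool.Agent.MP_f49c72_ag

open MvPolynomial Module

universe u v

variable {ι κ κ' : Type}

section filt
variable {K : Type u} [Field K] {𝒜 : Type v} [CommRing 𝒜] [Algebra K 𝒜]

def F1 (K : Type u) [Field K] {𝒜 : Type v} [CommRing 𝒜] [Algebra K 𝒜] (z : ι → 𝒜) :
    Submodule K 𝒜 := Submodule.span K (Set.range z)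

def N2 (K : Type u) [Field K] {𝒜 : Type v} [CommRing 𝒜] [Algebra K 𝒜] (z : ι → 𝒜) :
    Submodule K 𝒜 := F1 K z * F1 K z ⊔ C3 K z

def N1 (K : Type u) [Field K] {𝒜 : Type v} [CommRing 𝒜] [Algebra K 𝒜] (z : ι → 𝒜) :
    Submodule K 𝒜 := F1 K z ⊔ N2 K z

lemma C3_eq (z : ι → 𝒜) : C3 K z = F1 K z * F1 K z * F1 K z := by
  rw [F1, Submodule.span_mul_span, Submodule.span_mul_span, C3]
  congr 1
  ext y
  constructor
  · rintro ⟨⟨a, b, c⟩, rfl⟩
    exact ⟨_, ⟨_, ⟨a, rfl⟩, _, ⟨b, rfl⟩, rfl⟩, _, ⟨c, rfl⟩, rfl⟩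
  · rintro ⟨_, ⟨_, ⟨a, rfl⟩, _, ⟨b, rfl⟩, rfl⟩, _, ⟨c, rfl⟩, rfl⟩
    exact ⟨(a, b, c), rfl⟩

variable {Q : Binom K ι κ} {z : ι → 𝒜}

lemma Good.F1_C3 (h : Good Q z) : F1 K z * C3 K z ≤ ⊥ := by
  rw [F1, C3, Submodule.span_mul_span, Submodule.span_le]
  rintro _ ⟨_, ⟨a, rfl⟩, _, ⟨⟨b, c, d⟩, rfl⟩, rfl⟩
  have := h.quart a b c d
  simp only [cub, SetLike.mem_coe, Submodule.mem_bot]
  rw [← this]; ring

lemma Good.N1_C3 (h : Good Q z) : N1 K z * C3 K z ≤ ⊥ := by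
  have h1 := le_bot_iff.1 h.F1_C3
  rw [N1, N2, Submodule.sup_mul, Submodule.sup_mul, h1, mul_assoc, h1]
  nth_rewrite 1 [C3_eq]
  rw [mul_assoc, h1]; simp

lemma Good.N1_N2 (h : Good Q z) : N1 K z * N2 K z ≤ C3 K z := by
  have h1 := le_bot_iff.1 h.F1_C3
  rw [N2, Submodule.mul_sup]
  refine sup_le ?_ (h.N1_C3.trans bot_le)
  rw [N1, N2, Submodule.sup_mul, Submodule.sup_mul, ← mul_assoc, ← C3_eq, ← mul_assoc, ← C3_eq,
    ← mul_assoc, mul_comm (C3 K z), h1]
  simp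

lemma Good.N1_N1 (h : Good Q z) : N1 K z * N1 K z ≤ N2 K z := by
  nth_rewrite 2 [N1]
  rw [Submodule.mul_sup]
  refine sup_le ?_ (h.N1_N2.trans le_sup_right)
  rw [N1, Submodule.sup_mul]
  refine sup_le le_sup_left ?_
  rw [mul_comm]
  exact ((mul_le_mul' le_sup_left le_rfl).trans h.N1_N2).trans le_sup_right

lemma mem_F1 (a : ι) : z a ∈ F1 K z := Submodule.subset_span ⟨a, rfl⟩

lemma mem_N1 (a : ι) : z a ∈ N1 K z := Submodule.mem_sup_left (mem_F1 a)

lemma N2_le : N2 K z ≤ N1 K z := le_sup_right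

lemma Good.decomp (h : Good Q z) (y : 𝒜) : ∃ c : K, y - algebraMap K 𝒜 c ∈ N1 K z := by
  have : ∀ a, ∃ c : K, opt z a - algebraMap K 𝒜 c ∈ N1 K z := by
    rintro (_ | a)
    · exact ⟨1, by simp [opt]⟩
    · exact ⟨0, by simpa [opt] using mem_N1 a⟩
  have hmul : ∀ x y : 𝒜, (∃ c : K, x - algebraMap K 𝒜 c ∈ N1 K z) →
      (∃ c : K, y - algebraMap K 𝒜 c ∈ N1 K z) → ∃ c : K, x * y - algebraMap K 𝒜 c ∈ N1 K z := by
    rintro x y ⟨c, hc⟩ ⟨d, hd⟩
    refine ⟨c * d, ?_⟩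
    have : x * y - algebraMap K 𝒜 (c * d) = (x - algebraMap K 𝒜 c) * (y - algebraMap K 𝒜 d) +
        c • (y - algebraMap K 𝒜 d) + d • (x - algebraMap K 𝒜 c) := by
      simp only [Algebra.smul_def, map_mul]; ring
    rw [this]
    exact add_mem (add_mem (N2_le (h.N1_N1 (Submodule.mul_mem_mul hc hd)))
      (Submodule.smul_mem _ _ hd)) (Submodule.smul_mem _ _ hc)
  have hy := h.span y
  induction hy using Submodule.span_induction with
  | mem x hx => obtain ⟨⟨a, b, c⟩, rfl⟩ := hx; exact hmul _ _ (hmul _ _ (this a) (this b)) (this c)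
  | zero => exact ⟨0, by simp⟩
  | add x y _ _ hx hy =>
    obtain ⟨c, hc⟩ := hx; obtain ⟨d, hd⟩ := hy
    exact ⟨c + d, by rw [map_add, add_sub_add_comm]; exact add_mem hc hd⟩
  | smul a x _ hx =>
    obtain ⟨c, hc⟩ := hx
    exact ⟨a * c, by
      rw [map_mul, ← Algebra.smul_def, ← smul_sub]; exact Submodule.smul_mem _ _ hc⟩

lemma Good.mem_N1 [Nontrivial 𝒜] (h : Good Q z) {y : 𝒜} (hy : IsNilpotent y) : y ∈ N1 K z := by
  obtain ⟨c, hc⟩ := h.decomp y
  have h1 : IsNilpotent (y - algebraMap K 𝒜 c) := by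
    refine ⟨4, ?_⟩
    have := h.N1_C3 (Submodule.mul_mem_mul hc (h.N1_N2 (Submodule.mul_mem_mul hc
      (h.N1_N1 (Submodule.mul_mem_mul hc hc)))))
    rw [Submodule.mem_bot] at this
    rw [← this]; ring
  have h2 : IsNilpotent (algebraMap K 𝒜 c) := by
    have := (Commute.all _ _).isNilpotent_sub hy h1
    simpa using this
  have : c = 0 := by
    by_contra h0
    exact ((IsUnit.mk0 c h0).map (algebraMap K 𝒜)).not_isNilpotent h2
  simpa [this] using hc

variable [Fintype ι]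

lemma exists_matrix [Nontrivial 𝒜] (h : Good Q z) {Q' : Binom K ι κ'} {z' : ι → 𝒜}
    (h' : Good Q' z') : (∀ b, z' b ∈ N1 K z) ∧
      ∃ g : ι → ι → K, ∀ b, z' b - ∑ a, g b a • z a ∈ N2 K z := by
  have h1 : ∀ b, z' b ∈ N1 K z := fun b => h.mem_N1 ⟨4, by rw [← h'.quart b b b b]; ring⟩
  refine ⟨h1, ?_⟩
  have : ∀ b, ∃ g : ι → K, z' b - ∑ a, g a • z a ∈ N2 K z := by
    intro b
    obtain ⟨x, hx, y, hy, hxy⟩ := Submodule.mem_sup.1 (h1 b)
    obtain ⟨g, rfl⟩ := (Submodule.mem_span_range_iff_exists_fun K).1 hx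
    exact ⟨g, by rw [← hxy, add_sub_cancel_left]; exact hy⟩
  choose g hg using this
  exact ⟨g, hg⟩

end filt

variable {k : Type u} [Field k] {K : Type u} [Field K] [Algebra k K] {𝒜 : Type v} [CommRing 𝒜]
  [Algebra K 𝒜] [Algebra k 𝒜] [IsScalarTower k K 𝒜]

lemma exists_Phi {Q : Binom k ι κ} {z : ι → 𝒜} (h : Good (Q.map (algebraMap k K)) z) :
    ∃ Φ : MvPolynomial ι k →ₗ[k] 𝒜, (∀ f ∈ Q.I, Φ f = 0) ∧ Φ 1 = 1 ∧ (∀ a, Φ (X a) = z a) ∧
      (∀ a b, Φ (X a * X b) - z a * z b ∈ C3 K z) ∧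
      ∀ a b c, Φ (X a * X b * X c) = z a * z b * z c := by
  obtain ⟨s, hs⟩ := LinearMap.exists_rightInverse_of_surjective (C3 K z).mkQ
    (Submodule.range_mkQ _)
  let E : MvPolynomial ι k →ₐ[k] Polynomial 𝒜 := aeval fun a => Polynomial.C (z a) * Polynomial.X
  let P : ℕ → MvPolynomial ι k →ₗ[k] 𝒜 :=
    fun n => (Polynomial.lcoeff 𝒜 n).restrictScalars k ∘ₗ E.toLinearMap
  have hP : ∀ n f, P n f = (E f).coeff n := fun _ _ => rfl
  have hP0 : ∀ a f, P 0 (X a * f) = 0 := by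
    intro a f; simp [hP, E]
  have hPs : ∀ n a f, P (n + 1) (X a * f) = z a * P n f := by
    intro n a f; simp [hP, E, mul_assoc, Polynomial.coeff_X_mul]
  have hP1 : ∀ n, P n 1 = if n = 0 then 1 else 0 := by
    intro n; simp [hP, Polynomial.coeff_one]
  have hX : ∀ n a, P n (X a) = if n = 1 then z a else 0 := by
    intro n a
    rw [← mul_one (X a)]
    rcases n with _ | n
    · simp only [hP0]; simp
    · rw [hPs, hP1]; simp
  have hXX : ∀ n a b, P n (X a * X b) = if n = 2 then z a * z b else 0 := by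
    intro n a b
    rcases n with _ | n
    · simp only [hP0]; simp
    · rw [hPs, hX]; simp
  have hXXX : ∀ n a b c, P n (X a * X b * X c) = if n = 3 then z a * z b * z c else 0 := by
    intro n a b c
    rw [mul_assoc]
    rcases n with _ | n
    · simp only [hP0]; simp
    · rw [hPs, hXX]; simp [mul_assoc]
  let π : 𝒜 →ₗ[K] 𝒜 := s ∘ₗ (C3 K z).mkQ
  refine ⟨P 0 + P 1 + π.restrictScalars k ∘ₗ P 2 + P 3, fun f hf => ?_, ?_, ?_, ?_, ?_⟩
  · let W : Submodule k (MvPolynomial ι k) := LinearMap.ker (P 0) ⊓ LinearMap.ker (P 1) ⊓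
      ((C3 K z).restrictScalars k).comap (P 2) ⊓ LinearMap.ker (P 3)
    have hW : ∀ f, f ∈ W ↔ ((P 0 f = 0 ∧ P 1 f = 0) ∧ P 2 f ∈ C3 K z) ∧ P 3 f = 0 := fun f => Iff.rfl
    have := Q.I_le W (fun a f hf => by
      rw [hW] at hf ⊢
      rw [hP0, hPs 0, hPs 1, hPs 2, hf.1.1.1, hf.1.1.2, mul_zero]
      exact ⟨⟨⟨rfl, rfl⟩, zero_mem _⟩, h.F1_C3 (Submodule.mul_mem_mul (mem_F1 a) hf.1.2)⟩)
      (fun j => by
        rw [hW]
        have := h.quad j
        simpa [Binom.q, Binom.ev, hXX, Binom.map] using this) f hf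
    rw [hW] at this
    have h2 : (C3 K z).mkQ (P 2 f) = 0 := (Submodule.Quotient.mk_eq_zero _).2 this.1.2
    simp [this.1.1.1, this.1.1.2, this.2, π, h2]
  · simp [hP1]
  · intro a; simp [hX]
  · intro a b
    have := LinearMap.congr_fun hs ((C3 K z).mkQ (z a * z b))
    rw [← Submodule.Quotient.eq]
    simpa [hXX, π] using this
  · intro a b c; simp [hXXX]

lemma exists_eta {Q : Binom k ι κ} {z : ι → 𝒜} (h : Good (Q.map (algebraMap k K)) z) {τ : Type}
    [Fintype τ] (e : Basis τ k Q.A) (hd : Fintype.card τ = finrank K 𝒜)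
    (L : MvPolynomial ι k →ₗ[k] k) (hL : ∀ f ∈ Q.I, L f = 0)
    (hL3 : ∀ a b c, L (X a * X b * X c) = 0) : ∃ η : 𝒜 →ₗ[K] K,
      (∀ a, η (z a) = algebraMap k K (L (X a))) ∧
      (∀ a b, η (z a * z b) = algebraMap k K (L (X a * X b))) ∧ ∀ y ∈ C3 K z, η y = 0 := by
  obtain ⟨Φ, hI, h0, h1, h2, h3⟩ := exists_Phi h
  choose ee hee using fun i => Q.pr_surj (e i)
  have key : ∀ f, f - ∑ i, e.repr (Q.pr f) i • ee i ∈ Q.I := by
    intro f; rw [← Q.pr_eq_zero]; simp [hee]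
  have hΦ : ∀ f, Φ f = ∑ i, algebraMap k K (e.repr (Q.pr f) i) • Φ (ee i) := by
    intro f
    have := hI _ (key f)
    rw [map_sub, sub_eq_zero] at this
    simpa using this
  have hspan : ⊤ ≤ Submodule.span K (Set.range fun i => Φ (ee i)) := by
    have hm : ∀ f, Φ f ∈ Submodule.span K (Set.range fun i => Φ (ee i)) := fun f => by
      rw [hΦ]
      exact Submodule.sum_mem _ fun i _ => Submodule.smul_mem _ _ (Submodule.subset_span ⟨i, rfl⟩)
    have hC : C3 K z ≤ Submodule.span K (Set.range fun i => Φ (ee i)) := by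
      rw [C3, Submodule.span_le]
      rintro _ ⟨⟨a, b, c⟩, rfl⟩
      have := hm (X a * X b * X c)
      rwa [h3] at this
    have hq : ∀ a b, z a * z b ∈ Submodule.span K (Set.range fun i => Φ (ee i)) := fun a b => by
      have := sub_mem (hm (X a * X b)) (hC (h2 a b))
      rwa [sub_sub_cancel] at this
    intro y _
    refine (Submodule.span_le.2 ?_) (h.span y)
    rintro _ ⟨⟨_ | a, _ | b, _ | c⟩, rfl⟩ <;> simp only [cub, opt, Option.elim, one_mul, mul_one]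
    · exact h0 ▸ hm 1
    · exact h1 c ▸ hm _
    · exact h1 b ▸ hm _
    · exact hq _ _
    · exact h1 a ▸ hm _
    · exact hq _ _
    · exact hq _ _
    · exact hC (cub_mem K z _ _ _)
  let bb := basisOfTopLeSpanOfCardEqFinrank _ hspan hd
  have hbb : ∀ i, bb i = Φ (ee i) := fun i => by simp [bb]
  let η := bb.constr K fun i => algebraMap k K (L (ee i))
  have hη : ∀ f, η (Φ f) = algebraMap k K (L f) := by
    intro f
    have := hL _ (key f)
    rw [map_sub, sub_eq_zero] at this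
    rw [hΦ, this]
    simp only [η, ← hbb, map_sum, map_smul, Basis.constr_basis, smul_eq_mul, map_mul]
  have hC : ∀ y ∈ C3 K z, η y = 0 := by
    intro y hy
    refine (Submodule.span_le (p := LinearMap.ker η)).2 ?_ hy
    rintro _ ⟨⟨a, b, c⟩, rfl⟩
    simp [cub, ← h3, hη, hL3]
  refine ⟨η, fun a => by rw [← h1, hη], fun a b => ?_, hC⟩
  have := hC _ (h2 a b)
  rw [map_sub, sub_eq_zero] at this
  rw [← this, hη]

theorem iso_matrix [Fintype ι] [DecidableEq ι] [Nontrivial 𝒜] {Q : Binom k ι κ} {z : ι → 𝒜}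
    (h : Good (Q.map (algebraMap k K)) z) {τ : Type} [Fintype τ] (e : Basis τ k Q.A)
    (hd : Fintype.card τ = finrank K 𝒜) {Q' : Binom K ι κ'} {z' : ι → 𝒜} (h' : Good Q' z') :
    ∃ g g' : ι → ι → K, (∀ a a', ∑ b, g' a b * g b a' = if a = a' then 1 else 0) ∧
      ∀ L : MvPolynomial ι k →ₗ[k] k, (∀ f ∈ Q.I, L f = 0) →
        (∀ a b c, L (X a * X b * X c) = 0) → ∀ j,
        Q'.α j * (∑ a, ∑ b, g (Q'.a j) a * g (Q'.b j) b * algebraMap k K (L (X a * X b))) +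
        Q'.β j * (∑ a, ∑ b, g (Q'.a' j) a * g (Q'.b' j) b * algebraMap k K (L (X a * X b))) =
          0 := by
  obtain ⟨h1, g, hg⟩ := exists_matrix h h'
  obtain ⟨-, g', hg'⟩ := exists_matrix h' h
  have hF : F1 K z' ≤ N1 K z := by
    rw [F1, Submodule.span_le]; rintro _ ⟨b, rfl⟩; exact h1 b
  have hC : C3 K z' ≤ C3 K z := by
    rw [C3_eq, mul_comm]
    exact (mul_le_mul' hF ((mul_le_mul' hF hF).trans h.N1_N1)).trans h.N1_N2
  have hN : N2 K z' ≤ N2 K z := sup_le ((mul_le_mul' hF hF).trans h.N1_N1) (hC.trans le_sup_right)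
  refine ⟨g, g', fun a a' => ?_, fun L hL hL3 j => ?_⟩
  · obtain ⟨η, e1, e2, e3⟩ := exists_eta h e hd (d1 a') (fun f hf => (Q.c0_d1_I hf).2 a')
      (fun a b c => by simp [d1_mul])
    have hk : N2 K z ≤ LinearMap.ker η := by
      refine sup_le ?_ e3
      rw [F1, Submodule.span_mul_span, Submodule.span_le]
      rintro _ ⟨_, ⟨a, rfl⟩, _, ⟨b, rfl⟩, rfl⟩
      simp [e2, d1_mul]
    have e4 : ∀ b, η (z' b) = g b a' := by
      intro b
      have := hk (hg b)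
      rw [LinearMap.mem_ker, map_sub, sub_eq_zero] at this
      simp [this, e1, apply_ite (algebraMap k K)]
    have := hk (hN (hg' a))
    rw [LinearMap.mem_ker, map_sub, sub_eq_zero] at this
    simp only [map_sum, map_smul, e4, smul_eq_mul, e1, d1_X, apply_ite (algebraMap k K), map_one,
      map_zero] at this
    rw [← this]; simp [eq_comm]
  · obtain ⟨η, -, e2, e3⟩ := exists_eta h e hd L hL hL3
    have e4 : ∀ b b', η (z' b * z' b') =
        ∑ a, ∑ a', g b a * g b' a' * algebraMap k K (L (X a * X a')) := by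
      intro b b'
      have hl : ∀ b, ∑ a, g b a • z a ∈ N1 K z := fun b =>
        Submodule.sum_mem _ fun a _ => Submodule.smul_mem _ _ (mem_N1 a)
      have : z' b * z' b' = (∑ a, g b a • z a) * (∑ a, g b' a • z a) +
          (z' b * (z' b' - ∑ a, g b' a • z a) + (∑ a, g b' a • z a) * (z' b - ∑ a, g b a • z a)) := by
        ring
      rw [this, map_add, e3 _ (add_mem (h.N1_N2 (Submodule.mul_mem_mul (h1 b) (hg b')))
        (h.N1_N2 (Submodule.mul_mem_mul (hl b') (hg b)))), add_zero, Finset.sum_mul_sum]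
      simp only [map_sum, smul_mul_smul_comm, map_smul, e2, smul_eq_mul]
    have := e3 _ (hC (h'.quad j))
    simpa only [Binom.ev, map_add, map_smul, e4, smul_eq_mul] using this

end Pool.Agent.MP_f49c72_ag
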