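import Pool.Agent.MP_f49c72_ag.Comb

/-! No linear substitution carries the conjugate quadrics to the original ones. -/

namespace Pool.Agent.MP_f49c72_ag

open Module

variable {K : Type*} [Field K] {V : Type}

lemma cross_zero_smul {a b : Fin 3 → K} (ha : a ≠ 0) (h : crossProduct a b = 0) :
    ∃ μ : K, b = μ • a := by
  by_contra hn
  push Not at hn
  exact crossProduct_ne_zero_iff_linearIndependent.2
    ((LinearIndependent.pair_iff' ha).2 fun μ e => hn μ e.symm) h

lemma sym_zero {M ι : Type*} [AddCommGroup M] [Module K M] (h2 : (2 : K) ≠ 0) (l : ι → K)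
    (β : ι → M) (h : ∀ i j, l i • β j + l j • β i = 0) {i0 : ι} (h0 : l i0 ≠ 0) (j : ι) :
    β j = 0 := by
  have e : β i0 = 0 := by
    have := h i0 i0
    rw [← two_smul K, smul_smul] at this
    exact (smul_eq_zero.1 this).resolve_left (mul_ne_zero h2 h0)
  have := h i0 j
  rw [e, smul_zero, add_zero] at this
  exact (smul_eq_zero.1 this).resolve_left h0

lemma cross_prop (h2 : (2 : K) ≠ 0) {a y : Fin 3 → Fin 3 → K} (ha : LinearIndependent K a)
    (h : ∀ i j, crossProduct (a i) (y j) + crossProduct (a j) (y i) = 0) :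
    ∃ ν : K, ∀ j, y j = ν • a j := by
  have : ∀ i, ∃ μ : K, y i = μ • a i := by
    intro i
    apply cross_zero_smul (ha.ne_zero i)
    have := h i i
    rw [← two_smul K] at this
    exact (smul_eq_zero.1 this).resolve_left h2
  choose κ hκ using this
  refine ⟨κ 0, fun j => ?_⟩
  by_cases hj : j = 0
  · rw [hj, hκ]
  have e := h 0 j
  rw [hκ j, hκ 0, map_smul, map_smul, ← cross_anticomm (a 0), smul_neg, ← sub_eq_add_neg,
    ← sub_smul] at e
  rcases smul_eq_zero.1 e with e | e
  · rw [hκ j, sub_eq_zero.1 e]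
  · obtain ⟨μ, hμ⟩ := cross_zero_smul (ha.ne_zero 0) e
    exfalso
    have := Fintype.linearIndependent_iff.1 ha (Pi.single j 1 - Pi.single 0 μ)
      (by simp [sub_smul, Finset.sum_sub_distrib, Pi.single_apply, hμ]) j
    simp [Pi.single_eq_of_ne hj] at this

lemma col_ne {a : Fin 3 → Fin 3 → K} (ha : LinearIndependent K a) (n : Fin 3) : ∃ j, a j n ≠ 0 := by
  by_contra hn
  push Not at hn
  have h1 : IsUnit (Matrix.of a) := Matrix.linearIndependent_rows_iff_isUnit.1 ha
  rw [Matrix.isUnit_iff_isUnit_det, Matrix.det_eq_zero_of_column_eq_zero (A := Matrix.of a) n hn] at h1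
  exact not_isUnit_zero h1

variable (χ : AddChar Z7 K) (c : V → V → Z7)

def hat (s t : V) : (Fin 3 × V → K) →ₗ[K] (Fin 3 → K) where
  toFun y n := χ (-(ew n * c s t)) * y (n, t)
  map_add' y y' := by funext n; simp [mul_add]
  map_smul' r y := by funext n; simp [mul_left_comm]

lemma hat_apply (s t : V) (y : Fin 3 × V → K) (n : Fin 3) :
    hat χ c s t y n = χ (-(ew n * c s t)) * y (n, t) := rfl

lemma hat_eq_zero {s t : V} {y : Fin 3 × V → K} : hat χ c s t y = 0 ↔ ∀ n, y (n, t) = 0 := by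
  simp [funext_iff, hat_apply, chi_ne]

def Bil (s t : V) (y y' : Fin 3 × V → K) : Fin 3 → K :=
  crossProduct (hat χ c s s y) (hat χ c s t y') + crossProduct (hat χ c s s y') (hat χ c s t y)

/-- the relations on an edge. -/
def Rel (w y : Fin 3 → Fin 3 × V → K) : Prop :=
  ∀ s t i j, Bil χ c s t (w i) (y j) + Bil χ c s t (w j) (y i) = 0

variable {χ c}

lemma Rel.self (h2 : (2 : K) ≠ 0) {w : Fin 3 → Fin 3 × V → K} (h : Rel χ c w w) (s t : V)
    (i j : Fin 3) : Bil χ c s t (w i) (w j) = 0 := by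
  have := h s t i j
  have e : Bil χ c s t (w j) (w i) = Bil χ c s t (w i) (w j) := add_comm _ _
  rw [e, ← two_smul K] at this
  exact (smul_eq_zero.1 this).resolve_left h2

variable [Fintype V] [DecidableEq V]

/-- a nonzero block is invertible. -/
lemma block_li (h2 : (2 : K) ≠ 0) (hV : 3 < Fintype.card V) {w : Fin 3 → Fin 3 × V → K}
    (hw : LinearIndependent K w) (hN : Rel χ c w w) {S : Set (Fin 3 × V → K)}
    (hS : ∀ y, y ∈ Submodule.span K S)
    (hR : ∀ y ∈ S, ∃ (Y : Fin 3 → Fin 3 × V → K) (j : Fin 3) (r : K), Rel χ c w Y ∧ y = r • Y j)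
    {s : V} {i0 : Fin 3} (h0 : hat χ c s s (w i0) ≠ 0) :
    LinearIndependent K fun i => hat χ c s s (w i) := by
  by_contra hn
  obtain ⟨μ, hμ, i1, hi1⟩ := Fintype.not_linearIndependent_iff.1 hn
  have hw0 : ∑ i, μ i • w i ≠ 0 := fun e => hi1 (Fintype.linearIndependent_iff.1 hw μ e i1)
  obtain ⟨⟨n0, t0⟩, ht0⟩ := Function.ne_iff.1 hw0
  set a := hat χ c s t0 (∑ i, μ i • w i) with ha
  have ha0 : a ≠ 0 := fun e => ht0 ((hat_eq_zero χ c).1 e n0)
  have hB := hN.self h2
  have e1 : ∀ i, crossProduct a (hat χ c s s (w i)) = 0 := by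
    intro i
    have h1 : Bil χ c s t0 (w i) (∑ j, μ j • w j) = ∑ j, μ j • Bil χ c s t0 (w i) (w j) := by
      simp only [Bil, map_sum, map_smul, LinearMap.sum_apply, LinearMap.smul_apply, smul_add,
        Finset.sum_add_distrib]
    simp only [hB, smul_zero, Finset.sum_const_zero] at h1
    simp only [← map_smul, ← map_sum] at hμ
    rw [Bil, hμ, ← ha, LinearMap.map_zero₂, add_zero] at h1
    rw [← cross_anticomm, h1, neg_zero]
  choose l0 hl0 using fun i => cross_zero_smul ha0 (e1 i)
  have hl00 : l0 i0 ≠ 0 := fun e => h0 (by rw [hl0, e, zero_smul])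
  have e2 : ∀ t j, crossProduct a (hat χ c s t (w j)) = 0 := by
    intro t
    refine sym_zero h2 l0 _ (fun i j => ?_) hl00
    have := hB s t i j
    rwa [Bil, hl0, hl0, LinearMap.map_smul₂, LinearMap.map_smul₂] at this
  choose l hl using fun t j => cross_zero_smul ha0 (e2 t j)
  have hdep : ¬ LinearIndependent K l := fun h => by
    have := h.fintype_card_le_finrank
    simp at this
    omega
  obtain ⟨ν, hν, t1, ht1⟩ := Fintype.not_linearIndependent_iff.1 hdep
  have hν' : ∀ j, ∑ t, ν t * l t j = 0 := fun j => by simpa using congrFun hν j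
  let Λ : (Fin 3 × V → K) →ₗ[K] (Fin 3 → K) := ∑ t, ν t • (crossProduct a ∘ₗ hat χ c s t)
  have hΛ : ∀ y, Λ y = ∑ t, ν t • crossProduct a (hat χ c s t y) := by
    intro y; simp [Λ, LinearMap.sum_apply]
  have e3 : ∀ y, Λ y = 0 := by
    intro y
    refine (Submodule.span_le (p := LinearMap.ker Λ)).2 ?_ (hS y)
    intro y hy
    obtain ⟨Y, j, r, hY, rfl⟩ := hR y hy
    refine Submodule.smul_mem _ _ ?_
    refine sym_zero h2 l0 (fun j => Λ (Y j)) (fun i j => ?_) hl00 j
    have : ∑ t, ν t • (Bil χ c s t (w i) (Y j) + Bil χ c s t (w j) (Y i)) = 0 := by simp [hY s]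
    simp only [Bil, hl0, LinearMap.map_smul₂, smul_add, Finset.sum_add_distrib] at this
    simp only [hl, map_smul, smul_smul, ← Finset.sum_smul, hν', zero_smul, add_zero] at this
    simp only [hΛ, Finset.smul_sum, smul_smul, mul_comm (l0 _)]
    exact this
  have e4 : ∀ n, crossProduct a (Pi.single n 1) = 0 := by
    intro n
    have := e3 (Pi.single (n, t1) (χ (ew n * c s t1)))
    rw [hΛ, Finset.sum_eq_single t1] at this
    · have e : hat χ c s t1 (Pi.single (n, t1) (χ (ew n * c s t1))) = Pi.single n 1 := by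
        funext m
        by_cases hm : m = n
        · subst hm; simp [hat_apply, mul_comm, chi_mul_neg]
        · simp [hat_apply, hm]
      rw [e] at this
      exact (smul_eq_zero.1 this).resolve_left ht1
    · intro t _ ht
      rw [(hat_eq_zero χ c).2 fun m => by simp [ht]]; simp
    · simp
  apply ha0
  have f0 := e4 0
  have f1 := e4 1
  simp [cross_apply] at f0 f1
  funext m
  fin_cases m <;> simp [f0, f1]

omit [Fintype V] [DecidableEq V] in
lemma third_zero (hχ : GoodChar χ) (hanti : ∀ u v, c v u = - c u v) (hd : ∀ u, c u u = 0)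
    {w y : Fin 3 → Fin 3 × V → K} (hN : Rel χ c w w) {s t r : V} (hr : hol c r s t ≠ 0)
    (hs : LinearIndependent K fun i => hat χ c s s (w i))
    (ht : LinearIndependent K fun i => hat χ c t t (w i))
    (h1 : ∀ i j, crossProduct (hat χ c s s (w i)) (hat χ c s r (y j)) +
      crossProduct (hat χ c s s (w j)) (hat χ c s r (y i)) = 0)
    (h2 : ∀ i j, crossProduct (hat χ c t t (w i)) (hat χ c t r (y j)) +
      crossProduct (hat χ c t t (w j)) (hat χ c t r (y i)) = 0) (j n : Fin 3) : y j (n, r) = 0 := by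
  obtain ⟨ν, hν⟩ := cross_prop hχ.two hs h1
  obtain ⟨ν', hν'⟩ := cross_prop hχ.two ht h2
  obtain ⟨κ, hκ⟩ := cross_prop hχ.two hs (hN.self hχ.two s t)
  have key : ∀ n, ν = ν' * κ * χ (ew n * hol c r s t) := by
    intro n
    obtain ⟨j, hj⟩ := col_ne hs n
    have e1 := congrFun (hν j) n
    have e2 := congrFun (hν' j) n
    have e3 := congrFun (hκ j) n
    simp only [hat_apply, hd, mul_zero, neg_zero, AddChar.map_zero_eq_one, one_mul, Pi.smul_apply,
      smul_eq_mul] at e1 e2 e3 hj
    have e4 : χ (ew n * hol c r s t) * χ (-(ew n * c s t)) * χ (-(ew n * c t r)) =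
        χ (-(ew n * c s r)) := by
      simp only [← AddChar.map_add_eq_mul, hol, hanti s r]; congr 1; ring
    apply mul_right_cancel₀ hj
    linear_combination (-1 : K) * e1 - y j (n, r) * e4 +
      χ (ew n * hol c r s t) * χ (-(ew n * c s t)) * e2 + ν' * χ (ew n * hol c r s t) * e3
  have k0 := key 0
  have k1 := key 1
  simp only [ew_zero, zero_mul, AddChar.map_zero_eq_one, mul_one, ew_one, one_mul] at k0 k1
  have : ν = 0 := by
    by_contra h0
    apply hr
    apply hχ.inj
    apply mul_left_cancel₀ h0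
    rw [mul_one]
    nth_rewrite 1 [k0]
    exact k1.symm
  have := hν j
  rw [‹ν = 0›, zero_smul] at this
  exact (hat_eq_zero χ c).1 this n

lemma dec_chir : ∀ J h h' C : Z7, (J = 3 ∨ J = 5 ∨ J = 6) →
    (∀ j, ∃ n, J * (ew j * h) - ew n * h' = C) → (∀ n, ∃ j, J * (ew j * h) - ew n * h' = C) →
    (h = 0 ↔ h' = 0) ∧ (h = h' → h = 0) := by decide +kernel

theorem no_iso (hχ : GoodChar χ) (hC : Comb c) {J : Z7} (hJ : J = 3 ∨ J = 5 ∨ J = 6)
    (g : Fin 3 × V → Fin 3 × V → K) (hli : LinearIndependent K g)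
    (hsp : ∀ y, y ∈ Submodule.span K (Set.range g))
    (hrel : ∀ u v, Rel χ c (fun i => g (i, u)) fun j => χ (J * (ew j * c u v)) • g (j, v)) :
    False := by
  have hN : ∀ u, Rel χ c (fun i => g (i, u)) fun i => g (i, u) := by
    intro u; simpa [hC.diag] using hrel u u
  have hw : ∀ u, LinearIndependent K fun i => g (i, u) := fun u =>
    hli.comp (fun i => (i, u)) fun i j e => (Prod.ext_iff.1 e).1
  have hb : ∀ u s i0, hat χ c s s (g (i0, u)) ≠ 0 →
      LinearIndependent K fun i => hat χ c s s (g (i, u)) := by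
    intro u s i0 h0
    refine block_li hχ.two hC.card (hw u) (hN u) hsp ?_ h0
    rintro _ ⟨⟨j, v⟩, rfl⟩
    refine ⟨_, j, χ (-(J * (ew j * c u v))), hrel u v, ?_⟩
    rw [smul_smul, mul_comm, chi_mul_neg, one_smul]
  have hcol : ∀ r, ¬ ∀ j v n, g (j, v) (n, r) = 0 := by
    intro r h
    have : ∀ y : Fin 3 × V → K, y (0, r) = 0 := by
      intro y
      refine (Submodule.span_le (p := LinearMap.ker (LinearMap.proj (R := K)
        (φ := fun _ : Fin 3 × V => K) (0, r)))).2 ?_ (hsp y)
      rintro _ ⟨⟨j, v⟩, rfl⟩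
      exact h j v 0
    exact one_ne_zero (this 1)
  have hex : ∀ u, ∃ s, LinearIndependent K fun i => hat χ c s s (g (i, u)) := by
    intro u
    obtain ⟨⟨n, s⟩, hs⟩ := Function.ne_iff.1 (hli.ne_zero (0, u))
    exact ⟨s, hb u s 0 fun e => hs ((hat_eq_zero χ c).1 e n)⟩
  choose π hπ using hex
  have hz : ∀ u t, t ≠ π u → ∀ i n, g (i, u) (n, t) = 0 := by
    intro u t htu i
    by_contra h0
    have ht := hb u t i fun e => h0 ((hat_eq_zero χ c).1 e)
    obtain ⟨r, hr⟩ := hC.nonflat (π u) t htu.symm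
    have h1 := third_zero hχ hC.anti hC.diag (hN u) hr (hπ u) ht ((hN u).self hχ.two _ _)
      ((hN u).self hχ.two _ _)
    have h2 : ∀ s i, hat χ c s r (g (i, u)) = 0 := fun s i => (hat_eq_zero χ c).2 (h1 i)
    refine hcol r fun j v n => ?_
    have := third_zero hχ hC.anti hC.diag (y := fun j => χ (J * (ew j * c u v)) • g (j, v)) (hN u)
      hr (hπ u) ht (fun i j => by simpa only [Bil, h2, map_zero, add_zero] using hrel u v (π u) r i j)
      (fun i j => by simpa only [Bil, h2, map_zero, add_zero] using hrel u v t r i j) j n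
    simpa [chi_ne] using this
  have hsurj : Function.Surjective π := by
    intro s
    by_contra h
    push Not at h
    exact hcol s fun j v n => hz v s (h v).symm j n
  let p : Equiv.Perm V := Equiv.ofBijective π ⟨Finite.injective_iff_surjective.2 hsurj, hsurj⟩
  have hedge : ∀ u v, u ≠ v → ∃ l : K, ∀ j n,
      χ (J * (ew j * c u v) - ew n * c (π u) (π v)) * g (j, v) (n, π v) = l * g (j, u) (n, π u) := by
    intro u v huv
    have hne : π u ≠ π v := fun e => huv (p.injective e)
    have h0 : ∀ j (r : K), hat χ c (π u) (π u) (r • g (j, v)) = 0 := fun j r => by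
      rw [map_smul, (hat_eq_zero χ c).2 (hz v _ hne j), smul_zero]
    obtain ⟨l, hl⟩ := cross_prop hχ.two (hπ u)
      (y := fun j => hat χ c (π u) (π v) (χ (J * (ew j * c u v)) • g (j, v)))
      (fun i j => by
        simpa only [Bil, h0, LinearMap.map_zero₂, add_zero] using hrel u v (π u) (π v) i j)
    refine ⟨l, fun j n => ?_⟩
    have := congrFun (hl j) n
    simp only [hat_apply, hC.diag, mul_zero, neg_zero, AddChar.map_zero_eq_one, one_mul,
      Pi.smul_apply, smul_eq_mul] at this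
    rw [← this, sub_eq_add_neg, AddChar.map_add_eq_mul]; ring
  have htri : ∀ u v w, u ≠ v → v ≠ w → w ≠ u →
      (hol c u v w = 0 ↔ hol c (π u) (π v) (π w) = 0) ∧
        (hol c u v w = hol c (π u) (π v) (π w) → hol c u v w = 0) := by
    intro u v w h1 h2 h3
    obtain ⟨l1, e1⟩ := hedge u v h1
    obtain ⟨l2, e2⟩ := hedge v w h2
    obtain ⟨l3, e3⟩ := hedge w u h3
    have key : ∀ j n, g (j, u) (n, π u) ≠ 0 →
        χ (J * (ew j * hol c u v w) - ew n * hol c (π u) (π v) (π w)) = l1 * l2 * l3 := by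
      intro j n hne
      have e : χ (J * (ew j * hol c u v w) - ew n * hol c (π u) (π v) (π w)) =
          χ (J * (ew j * c u v) - ew n * c (π u) (π v)) *
          χ (J * (ew j * c v w) - ew n * c (π v) (π w)) *
          χ (J * (ew j * c w u) - ew n * c (π w) (π u)) := by
        simp only [← AddChar.map_add_eq_mul, hol]; congr 1; ring
      apply mul_right_cancel₀ hne
      rw [e]
      linear_combination (χ (J * (ew j * c u v) - ew n * c (π u) (π v)) *
          χ (J * (ew j * c v w) - ew n * c (π v) (π w))) * e3 j n +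
          (l3 * χ (J * (ew j * c u v) - ew n * c (π u) (π v))) * e2 j n + l3 * l2 * e1 j n
    have hrow : ∀ j, ∃ n, g (j, u) (n, π u) ≠ 0 := by
      intro j
      by_contra h
      push Not at h
      exact (hπ u).ne_zero j ((hat_eq_zero χ c).2 h)
    have hcl : ∀ n, ∃ j, g (j, u) (n, π u) ≠ 0 := by
      intro n
      obtain ⟨j, hj⟩ := col_ne (hπ u) n
      exact ⟨j, right_ne_zero_of_mul hj⟩
    obtain ⟨n0, hn0⟩ := hrow 0
    refine dec_chir J _ _ (J * (ew 0 * hol c u v w) - ew n0 * hol c (π u) (π v) (π w)) hJ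
      (fun j => ?_) (fun n => ?_)
    · obtain ⟨n, hn⟩ := hrow j
      exact ⟨n, hχ.injective ((key j n hn).trans (key 0 n0 hn0).symm)⟩
    · obtain ⟨j, hj⟩ := hcl n
      exact ⟨j, hχ.injective ((key j n hj).trans (key 0 n0 hn0).symm)⟩
  obtain ⟨u, v, w, h1, h2, h3, h4, pu, pv, pw⟩ := hC.chir p (by
    intro u v w
    constructor
    · rintro ⟨h1, h2, h3, h4⟩
      exact ⟨p.injective.ne h1, p.injective.ne h2, p.injective.ne h3, (htri u v w h1 h2 h3).1.1 h4⟩
    · rintro ⟨h1, h2, h3, h4⟩
      have g1 : u ≠ v := fun e => h1 (by rw [e])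
      have g2 : v ≠ w := fun e => h2 (by rw [e])
      have g3 : w ≠ u := fun e => h3 (by rw [e])
      exact ⟨g1, g2, g3, (htri u v w g1 g2 g3).1.2 h4⟩)
  change π u = u at pu
  change π v = v at pv
  change π w = w at pw
  exact h4 ((htri u v w h1 h2 h3).2 (by rw [pu, pv, pw]))

end Pool.Agent.MP_f49c72_ag
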