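import Pool.Agent.MP_f49c72_ag.SC

/-! Two rigid, generically non-isomorphic algebras are separated by disjoint open sets. -/

namespace Pool.Agent.MP_f49c72_ag

open Module TensorProduct

universe u

variable {k : Type u} [Field k] {n : ℕ} {ι κ : Type} [Fintype ι]

lemma good_artin {B : Type u} [CommRing B] [Algebra k B] [IsNoetherianRing B] (ρ : B →ₐ[k] k)
    (hm : IsNilpotent (RingHom.ker ρ)) {γ : Fin (n + 1) → Fin (n + 1) → Fin (n + 1) → B}
    (h : Valid γ) {Q : Binom k ι κ} (hQ : Q.Rigid) (e : Basis (Fin (n + 1)) k Q.A) (h0 : e 0 = 1)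
    (he : ∀ i j, e i * e j = ∑ l, ρ (γ i j l) • e l) :
    ∃ z : ι → Alg h, Good (Q.map (algebraMap k B)) z := by
  have hmax : (RingHom.ker ρ).IsMaximal :=
    RingHom.ker_isMaximal_of_surjective _ fun r => ⟨algebraMap k B r, ρ.commutes r⟩
  have : Ring.KrullDimLE 0 B := Ring.KrullDimLE.mk₀ fun I hI => by
    obtain ⟨N, hN⟩ := hm
    have : RingHom.ker ρ ≤ I := hI.le_of_pow_le (n := N) (by rw [hN]; exact bot_le)
    rwa [← hmax.eq_of_le hI.ne_top this]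
  have : IsArtinianRing B := IsNoetherianRing.isArtinianRing_of_krullDimLE_zero
  let _ : Algebra k (Alg h) := ((algebraMap B (Alg h)).comp (algebraMap k B)).toAlgebra
  have : IsScalarTower k B (Alg h) := IsScalarTower.of_algebraMap_eq fun _ => rfl
  let F := Alg.lift (h := h) (ρ : B →+* k) e h0 he
  have hF : ∀ (b : B) a, F (b • a) = ρ b • F a := Alg.lift_smul _ _ h0 he
  let ev : Alg h →ₐ[k] Q.A :=
    { F with
      commutes' := fun r => by
        change F (algebraMap B (Alg h) (algebraMap k B r)) = _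
        rw [Algebra.algebraMap_eq_smul_one (A := Alg h), hF, map_one, ρ.commutes,
          Algebra.algebraMap_eq_smul_one (A := Q.A)]
        rfl }
  exact lift_good ρ (Alg.basis h) e ev hQ hF (Alg.lift_basis _ _ h0 he) hm

lemma good_domain {R : Type u} [CommRing R] [Algebra k R] [IsNoetherianRing R] (ρ : R →ₐ[k] k)
    {γ : Fin (n + 1) → Fin (n + 1) → Fin (n + 1) → R}
    (h : Valid γ) {Q : Binom k ι κ} (hQ : Q.Rigid) (e : Basis (Fin (n + 1)) k Q.A) (h0 : e 0 = 1)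
    (he : ∀ i j, e i * e j = ∑ l, ρ (γ i j l) • e l) {P : Ideal R} (hP : P ∈ minimalPrimes R)
    (hPm : P ≤ RingHom.ker ρ) : ∃ (D : Type u) (_ : CommRing D) (_ : IsDomain D) (f : R →+* D),
      RingHom.ker f = P ∧ ∃ z : ι → Alg (h.map f), Good (Q.map fun r => f (algebraMap k R r)) z := by
  obtain ⟨m, hm⟩ : ∃ m, m = RingHom.ker ρ := ⟨_, rfl⟩
  let Bs : ℕ → Type u := fun N => R ⧸ m ^ (N + 1)
  let π : R →+* ∀ N, Bs N := RingHom.pi fun N => Ideal.Quotient.mk _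
  have hG : ∃ z : ι → Alg (h.map π), Good (Q.map fun r => π (algebraMap k R r)) z := by
    refine Good.alg_pi _ fun N => ?_
    let ρN : Bs N →ₐ[k] k := Ideal.Quotient.liftₐ _ ρ fun a ha => by
      have := Ideal.pow_le_self (Nat.succ_ne_zero N) ha
      rwa [hm] at this
    refine good_artin ρN ⟨N + 1, ?_⟩ _ hQ e h0 he
    have : RingHom.ker ρN ≤ m.map (Ideal.Quotient.mk _) := by
      intro a ha
      obtain ⟨a, rfl⟩ := Ideal.Quotient.mk_surjective a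
      exact Ideal.mem_map_of_mem _ (by rw [hm]; exact ha)
    refine le_bot_iff.1 ((Ideal.pow_right_mono this _).trans ?_)
    rw [← Ideal.map_pow, Ideal.map_quotient_self]
  have hker : (⊥ : Ideal (∀ N, Bs N)).comap π ≤ P := by
    intro r hr
    have h1 : r ∈ (⨅ i : ℕ, m ^ i • ⊤ : Submodule R R) := by
      rw [Submodule.mem_iInf]
      intro i
      have : r ∈ m ^ (i + 1) := Ideal.Quotient.eq_zero_iff_mem.1 (congrFun hr i)
      simpa using Ideal.pow_le_pow_right (Nat.le_succ i) this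
    obtain ⟨⟨x, hx⟩, hxr⟩ := (Ideal.mem_iInf_smul_pow_eq_bot_iff m r).1 h1
    have h2 : (1 - x) * r ∈ P := by
      rw [sub_mul, one_mul, show x * r = r from hxr, sub_self]; exact zero_mem _
    refine (hP.1.1.mem_or_mem h2).resolve_left fun h3 => ?_
    have h4 := hPm h3
    rw [hm] at hx
    rw [RingHom.mem_ker] at h4 hx
    simp [hx] at h4
  obtain ⟨P', hP', -, hPP⟩ := Ideal.exists_comap_eq_of_mem_minimalPrimes (I := ⊥) π P
    ⟨⟨hP.1.1, hker⟩, fun q hq hle => hP.2 ⟨hq.1, bot_le⟩ hle⟩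
  refine ⟨(∀ N, Bs N) ⧸ P', inferInstance, inferInstance, (Ideal.Quotient.mk P').comp π, ?_, ?_⟩
  · rw [← RingHom.comap_ker, Ideal.mk_ker, hPP]
  · exact Good.alg_map (Ideal.Quotient.mk P') (h.map π) _ (fun _ _ _ => rfl) hG

lemma common_field {R D₁ D₂ : Type u} [CommRing R] [CommRing D₁] [CommRing D₂] [IsDomain D₁]
    [IsDomain D₂] (g₁ : R →+* D₁) (g₂ : R →+* D₂) (h : RingHom.ker g₁ = RingHom.ker g₂) :
    ∃ (K : Type u) (_ : Field K) (f₁ : D₁ →+* K) (f₂ : D₂ →+* K), ∀ r, f₁ (g₁ r) = f₂ (g₂ r) := by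
  let _ : Algebra (R ⧸ RingHom.ker g₁) D₁ := (RingHom.kerLift g₁).toAlgebra
  let _ : Algebra (R ⧸ RingHom.ker g₁) D₂ :=
    (Ideal.Quotient.lift _ g₂ fun a ha => by rwa [h] at ha).toAlgebra
  have := Algebra.TensorProduct.nontrivial_of_algebraMap_injective_of_isDomain
    (R ⧸ RingHom.ker g₁) D₁ D₂ (RingHom.kerLift_injective g₁)
    (RingHom.lift_injective_of_ker_le_ideal _ _ h.ge)
  obtain ⟨M, hM⟩ := Ideal.exists_maximal (D₁ ⊗[R ⧸ RingHom.ker g₁] D₂)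
  refine ⟨_ ⧸ M, Ideal.Quotient.field M,
    (Ideal.Quotient.mk M).comp Algebra.TensorProduct.includeLeftRingHom,
    (Ideal.Quotient.mk M).comp Algebra.TensorProduct.includeRight.toRingHom, fun r => ?_⟩
  simp only [RingHom.comp_apply]
  congr 1
  have e := RingHom.congr_fun (Algebra.TensorProduct.includeLeftRingHom_comp_algebraMap
    (R := R ⧸ RingHom.ker g₁) (A := D₁) (B := D₂)) (Ideal.Quotient.mk _ r)
  exact e

open MvPolynomial in
theorem separate {κ' : Type} {γ₁ γ₂ : Fin (n + 1) → Fin (n + 1) → Fin (n + 1) → k} (h₁ : Valid γ₁)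
    (h₂ : Valid γ₂) {Q₁ : Binom k ι κ} {Q₂ : Binom k ι κ'} (hQ₁ : Q₁.Rigid) (hQ₂ : Q₂.Rigid)
    (e₁ : Basis (Fin (n + 1)) k Q₁.A) (e₂ : Basis (Fin (n + 1)) k Q₂.A) (u₁ : e₁ 0 = 1)
    (u₂ : e₂ 0 = 1) (m₁ : ∀ i j, e₁ i * e₁ j = ∑ l, γ₁ i j l • e₁ l)
    (m₂ : ∀ i j, e₂ i * e₂ j = ∑ l, γ₂ i j l • e₂ l)
    (H : ∀ (K : Type u) [Field K] (φ : k →+* K) (γ : Fin (n + 1) → Fin (n + 1) → Fin (n + 1) → K)
      (h : Valid γ), (∃ z : ι → Alg h, Good (Q₁.map φ) z) →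
        (∃ z : ι → Alg h, Good (Q₂.map φ) z) → False) :
    ∃ s₁ s₂ : MvPolynomial (Fin (n + 1) × Fin (n + 1) × Fin (n + 1)) k,
      eval (fun p => γ₁ p.1 p.2.1 p.2.2) s₁ ≠ 0 ∧ eval (fun p => γ₂ p.1 p.2.1 p.2.2) s₂ ≠ 0 ∧
      ∀ γ : Fin (n + 1) → Fin (n + 1) → Fin (n + 1) → k, Valid γ →
        eval (fun p => γ p.1 p.2.1 p.2.2) s₁ * eval (fun p => γ p.1 p.2.1 p.2.2) s₂ = 0 := by
  by_contra hcon
  let J : Ideal (MvPolynomial (Fin (n + 1) × Fin (n + 1) × Fin (n + 1)) k) :=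
    ⨅ γ : {γ : Fin (n + 1) → Fin (n + 1) → Fin (n + 1) → k // Valid γ},
      RingHom.ker (aeval (R := k) fun p : Fin (n + 1) × Fin (n + 1) × Fin (n + 1) =>
        γ.1 p.1 p.2.1 p.2.2)
  have hJ : ∀ f, f ∈ J ↔ ∀ γ : Fin (n + 1) → Fin (n + 1) → Fin (n + 1) → k, Valid γ →
      aeval (fun p : Fin (n + 1) × Fin (n + 1) × Fin (n + 1) => γ p.1 p.2.1 p.2.2) f = 0 := by
    intro f; simp [J, RingHom.mem_ker]
  let R := MvPolynomial (Fin (n + 1) × Fin (n + 1) × Fin (n + 1)) k ⧸ J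
  let mk : MvPolynomial (Fin (n + 1) × Fin (n + 1) × Fin (n + 1)) k →ₐ[k] R :=
    Ideal.Quotient.mkₐ k J
  have hmk : ∀ f g, (∀ γ : Fin (n + 1) → Fin (n + 1) → Fin (n + 1) → k, Valid γ →
      aeval (fun p : Fin (n + 1) × Fin (n + 1) × Fin (n + 1) => γ p.1 p.2.1 p.2.2) f =
      aeval (fun p : Fin (n + 1) × Fin (n + 1) × Fin (n + 1) => γ p.1 p.2.1 p.2.2) g) →
      mk f = mk g := fun f g hfg =>
    Ideal.Quotient.eq.2 ((hJ _).2 fun γ hγ => by rw [map_sub, hfg γ hγ, sub_self])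
  have hu : Valid fun i j l => mk (X (i, j, l)) := by
    refine ⟨fun i j l => hmk _ _ fun γ hγ => by simpa using hγ.comm i j l, fun j l => ?_,
      fun i j l m => ?_⟩
    · have : (if j = l then 1 else 0 : R) = mk (if j = l then 1 else 0) := by split_ifs <;> simp
      rw [this]
      refine hmk _ _ fun γ hγ => ?_
      rw [aeval_X, hγ.unit]; split_ifs <;> simp
    · simp only [← map_mul, ← map_sum]
      exact hmk _ _ fun γ hγ => by simpa using hγ.assoc i j l m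
  let ρ : ∀ γ : Fin (n + 1) → Fin (n + 1) → Fin (n + 1) → k, Valid γ → R →ₐ[k] k := fun γ hγ =>
    Ideal.Quotient.liftₐ J (aeval fun p => γ p.1 p.2.1 p.2.2) fun f hf => (hJ f).1 hf γ hγ
  have hρ : ∀ γ hγ f, ρ γ hγ (mk f) = eval (fun p => γ p.1 p.2.1 p.2.2) f := fun γ hγ f => by
    rw [← coe_aeval_eq_eval]; rfl
  let T : Submonoid R :=
    { carrier := {r | ∃ a b, ρ γ₁ h₁ a ≠ 0 ∧ ρ γ₂ h₂ b ≠ 0 ∧ r = a * b}
      one_mem' := ⟨1, 1, by simp, by simp, by simp⟩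
      mul_mem' := by
        rintro _ _ ⟨a, b, ha, hb, rfl⟩ ⟨a', b', ha', hb', rfl⟩
        exact ⟨a * a', b * b', by simp [ha, ha'], by simp [hb, hb'], by ring⟩ }
  obtain ⟨P₀, hP₀, -, hd⟩ := (⊥ : Ideal R).exists_le_prime_disjoint T (by
    rw [Set.disjoint_left]
    rintro r (rfl : r = 0) ⟨a, b, ha, hb, hab⟩
    obtain ⟨a, rfl⟩ := Ideal.Quotient.mkₐ_surjective k J a
    obtain ⟨b, rfl⟩ := Ideal.Quotient.mkₐ_surjective k J b
    refine hcon ⟨a, b, by rwa [← hρ γ₁ h₁], by rwa [← hρ γ₂ h₂], fun γ hγ => ?_⟩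
    rw [← hρ γ hγ, ← hρ γ hγ, ← map_mul, ← hab, map_zero])
  obtain ⟨P, hP, hle⟩ := Ideal.exists_minimalPrimes_le (I := ⊥) (J := P₀) bot_le
  have l₁ : P ≤ RingHom.ker (ρ γ₁ h₁) := fun r hr => by
    by_contra hne
    exact Set.disjoint_left.1 hd (hle hr) ⟨r, 1, hne, by simp, by simp⟩
  have l₂ : P ≤ RingHom.ker (ρ γ₂ h₂) := fun r hr => by
    by_contra hne
    exact Set.disjoint_left.1 hd (hle hr) ⟨1, r, by simp, hne, by simp⟩
  obtain ⟨D₁, _, _, g₁, k₁, G₁⟩ := good_domain (ρ γ₁ h₁) hu hQ₁ e₁ u₁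
    (fun i j => by simp only [hρ, eval_X, m₁]) hP l₁
  obtain ⟨D₂, _, _, g₂, k₂, G₂⟩ := good_domain (ρ γ₂ h₂) hu hQ₂ e₂ u₂
    (fun i j => by simp only [hρ, eval_X, m₂]) hP l₂
  obtain ⟨K, _, f₁, f₂, hf⟩ := common_field g₁ g₂ (k₁.trans k₂.symm)
  refine H K ((f₁.comp g₁).comp (algebraMap k R)) _ (hu.map (f₁.comp g₁))
    (Good.alg_map f₁ _ _ (fun _ _ _ => rfl) G₁) ?_
  have := Good.alg_map f₂ _ (hu.map (f₁.comp g₁)) (fun _ _ _ => hf _) G₂
  convert this using 3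
  simp only [Binom.map, ← hf]
  rfl

end Pool.Agent.MP_f49c72_ag
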