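import Pool.Agent.MP_f49c72_ag.T1
import Pool.Agent.MP_f49c72_ag.Iso1
import Pool.Agent.MP_f49c72_ag.Iso2
import Pool.Agent.MP_f49c72_ag.Sep
import Pool.Agent.MP_f49c72_ag.Galois
import Pool.Agent.MP_f49c72_ag.Data

/-! An algebra which is separated from its Galois conjugate. -/

namespace Pool.Agent.MP_f49c72_ag

open Module MvPolynomial

universe u v

variable {k : Type u} [Field k]

lemma cross_eps {K : Type*} [Field K] (a b : Fin 3 → K) (m : Fin 3) :
    crossProduct a b m = ∑ l, ∑ n, eps K m l n * (a l * b n) := by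
  fin_cases m <;> simp [cross_apply, eps, epsZ, Fin.sum_univ_three] <;> ring

lemma GoodChar.map {K : Type u} [Field K] (φ : k →+* K) {χ : AddChar Z7 k} (h : GoodChar χ) :
    GoodChar (φ.toMonoidHom.compAddChar χ) where
  two := by rw [← map_ofNat φ]; exact (map_ne_zero φ).2 h.two
  three := by rw [← map_ofNat φ]; exact (map_ne_zero φ).2 h.three
  seven := by rw [← map_ofNat φ]; exact (map_ne_zero φ).2 h.seven
  inj x hx := h.inj x (φ.injective (by simpa using hx))

lemma iso_false {V : Type} [Fintype V] [DecidableEq V] {χ : AddChar Z7 k} {c : V → V → Z7}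
    (hχ : GoodChar χ) (hC : Comb c) {J : Z7} (hJ : J = 3 ∨ J = 5 ∨ J = 6) {n : ℕ}
    (e : Basis (Fin (n + 1)) k (QQ χ c).A) (K : Type u) [Field K] (φ : k →+* K)
    (γ : Fin (n + 1) → Fin (n + 1) → Fin (n + 1) → K) (h : Valid γ)
    (H₁ : ∃ z : Fin 3 × V → Alg h, Good ((QQ χ c).map φ) z)
    (H₂ : ∃ z : Fin 3 × V → Alg h, Good ((QQ (χ.mulShift J) c).map φ) z) : False := by
  obtain ⟨z, hz⟩ := H₁
  obtain ⟨z', hz'⟩ := H₂
  let _ : Algebra k K := φ.toAlgebra
  let _ : Algebra k (Alg h) := ((algebraMap K (Alg h)).comp (algebraMap k K)).toAlgebra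
  have : IsScalarTower k K (Alg h) := IsScalarTower.of_algebraMap_eq fun _ => rfl
  have : Nontrivial (Alg h) := inferInstanceAs (Nontrivial (Fin (n + 1) → K))
  obtain ⟨g, g', hg, hL⟩ := iso_matrix (k := k) (K := K) hz e
    (finrank_eq_card_basis (Alg.basis h)).symm hz'
  have h1 : Matrix.of g' * Matrix.of g = 1 := by
    ext a a'; simp [Matrix.mul_apply, hg, Matrix.one_apply]
  have h2 : IsUnit (Matrix.of g) := IsUnit.of_mul_eq_one_right _ h1
  refine no_iso (hχ.map φ) hC hJ g (Matrix.linearIndependent_rows_iff_isUnit.2 h2) (fun y => ?_) ?_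
  · have : y = ∑ b, (∑ a, y a * g' a b) • g b := by
      funext a'
      simp only [Finset.sum_apply, Pi.smul_apply, smul_eq_mul, Finset.sum_mul, mul_assoc]
      rw [Finset.sum_comm]
      simp [← Finset.mul_sum, hg]
    rw [this]
    exact Submodule.sum_mem _ fun b _ => Submodule.smul_mem _ _ (Submodule.subset_span ⟨b, rfl⟩)
  · intro u v s t i j
    funext m
    have key : ∀ y y' : Fin 3 × V → K,
        ∑ a, ∑ b, y a * y' b * algebraMap k K (L2 χ s 0 t (c s t) m (X a * X b)) =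
          Bil (φ.toMonoidHom.compAddChar χ) c s t y y' m := by
      intro y y'
      have e1 : ∀ a b : Fin 3 × V, algebraMap k K (L2 χ s 0 t (c s t) m (X a * X b)) =
          (if s = a.2 then if t = b.2 then eps K m a.1 b.1 * φ (χ (-(ew b.1 * c s t))) else 0
            else 0) +
          (if t = a.2 then if s = b.2 then eps K m b.1 a.1 * φ (χ (-(ew a.1 * c s t))) else 0
            else 0) := by
        rintro ⟨i, u⟩ ⟨j, v⟩
        rw [← xf_zero χ, ← xf_zero χ, L2_xf_xf]
        change φ _ = _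
        simp [apply_ite φ, eps, ite_and]
      simp only [e1, mul_add, Finset.sum_add_distrib, Bil, Pi.add_apply, cross_eps, hat_apply,
        hC.diag, Fintype.sum_prod_type]
      congr 1
      · refine Finset.sum_congr rfl fun l _ => ?_
        rw [Finset.sum_eq_single s] <;> simp +contextual [eq_comm, mul_comm, mul_left_comm, mul_assoc]
      · rw [Finset.sum_comm (f := fun l n => eps K m l n * _)]
        refine Finset.sum_congr rfl fun l _ => ?_
        rw [Finset.sum_eq_single t] <;> simp +contextual [eq_comm, mul_comm, mul_left_comm, mul_assoc]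
    have := hL (L2 χ s 0 t (c s t) m) (L2_kill hC.anti (zero_add _).symm m)
      (fun a b d => by simp [L2_apply, D2, d2_mul, d1_mul]) (u, v, i, j)
    rw [key, key] at this
    simp only [Bil, map_smul, LinearMap.smul_apply, Pi.add_apply, Pi.smul_apply, smul_eq_mul,
      Pi.zero_apply] at this ⊢
    simp only [QQ, Binom.map, AddChar.mulShift_apply] at this
    simp only [MonoidHom.coe_compAddChar, Function.comp_apply, RingHom.toMonoidHom_eq_coe,
      MonoidHom.coe_coe] at this ⊢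
    linear_combination this

lemma exists_unit_basis (A : Type v) [CommRing A] [Algebra k A] [Module.Finite k A] [Nontrivial A] :
    ∃ (n : ℕ) (e : Basis (Fin (n + 1)) k A), e 0 = 1 := by
  obtain ⟨ε, hε⟩ := Module.Projective.exists_dual_eq_one k (one_ne_zero (α := A))
  refine ⟨_, Basis.mkFinCons 1 (finBasis k (LinearMap.ker ε)) (fun c x hx h => ?_)
    (fun z => ⟨- ε z, by simp [hε]⟩), by simp⟩
  have := congrArg ε h
  simpa [hε, LinearMap.mem_ker.1 hx] using this

lemma valid_of_basis {A : Type v} [CommRing A] [Algebra k A] {n : ℕ} (e : Basis (Fin (n + 1)) k A)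
    (h0 : e 0 = 1) : Valid fun i j l => e.repr (e i * e j) l where
  comm i j l := by rw [mul_comm]
  unit j l := by simp [h0, Finsupp.single_apply]
  assoc i j l m := by
    have h1 : ∀ x y, ∑ a, e.repr x a * e.repr (e a * y) m = e.repr (x * y) m := by
      intro x y
      conv_rhs => rw [← e.sum_repr x]
      simp only [Finset.sum_mul, map_sum, smul_mul_assoc, map_smul, Finsupp.finsetSum_apply,
        Finsupp.smul_apply, smul_eq_mul]
    simp only [mul_comm (e i) (e _)]
    rw [h1, h1]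
    congr 2; ring

lemma exists_conj {ι κ : Type} (Q : Binom k ι κ) (σ : k ≃+* k) {τ : Type} [Fintype τ]
    (e : Basis τ k Q.A) : ∃ (F : Q.A →+* (Q.map σ).A) (e' : Basis τ k (Q.map σ).A),
      (∀ (r : k) a, F (r • a) = σ r • F a) ∧ ∀ i, e' i = F (e i) := by
  let F : Q.A ≃+* (Q.map σ).A := Ideal.quotientEquiv _ _ (mapEquiv ι σ) (by
    rw [Binom.I, Binom.I, Ideal.map_span, ← Set.range_comp]
    congr 2
    funext j
    simp [Binom.q, Binom.ev, Binom.map, smul_eq_C_mul])
  have hF : ∀ (r : k) a, F (r • a) = σ r • F a := by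
    intro r a
    obtain ⟨f, rfl⟩ := Q.pr_surj a
    have hpr : ∀ f, F (Q.pr f) = (Q.map σ).pr (MvPolynomial.map (σ : k →+* k) f) := fun _ => rfl
    rw [← map_smul, hpr, hpr, ← map_smul, smul_eq_C_mul, smul_eq_C_mul, map_mul, map_C]
    rfl
  have hF' : ∀ g : τ → k, ∑ i, g i • F (e i) = F (∑ i, σ.symm (g i) • e i) := by
    intro g; simp [hF]
  refine ⟨F, Basis.mk (v := fun i => F (e i)) ?_ ?_, hF, fun i => Basis.mk_apply _ _ _⟩
  · rw [Fintype.linearIndependent_iff]
    intro g hg i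
    rw [hF', map_eq_zero_iff _ F.injective] at hg
    simpa using Fintype.linearIndependent_iff.1 e.linearIndependent _ hg i
  · intro y _
    obtain ⟨x, rfl⟩ := F.surjective y
    rw [← e.sum_repr x, map_sum]
    exact Submodule.sum_mem _ fun i _ => by
      rw [hF]; exact Submodule.smul_mem _ _ (Submodule.subset_span ⟨i, rfl⟩)

lemma core_gen {ι κ : Type} [Fintype ι] {Q : Binom k ι κ} (σ : k ≃+* k) (hR : Q.Rigid)
    (hR' : (Q.map σ).Rigid)
    (H : ∀ (n : ℕ) (_ : Basis (Fin (n + 1)) k Q.A) (K : Type u) [Field K] (φ : k →+* K)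
      (γ : Fin (n + 1) → Fin (n + 1) → Fin (n + 1) → K) (h : Valid γ),
      (∃ z : ι → Alg h, Good (Q.map φ) z) → (∃ z : ι → Alg h, Good ((Q.map σ).map φ) z) → False) :
    ∃ (n : ℕ) (γ : Fin (n + 1) → Fin (n + 1) → Fin (n + 1) → k) (_ : Valid γ)
      (s₁ s₂ : MvPolynomial (Fin (n + 1) × Fin (n + 1) × Fin (n + 1)) k),
      eval (fun p => γ p.1 p.2.1 p.2.2) s₁ ≠ 0 ∧ eval (fun p => σ (γ p.1 p.2.1 p.2.2)) s₂ ≠ 0 ∧
      ∀ γ' : Fin (n + 1) → Fin (n + 1) → Fin (n + 1) → k, Valid γ' →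
        eval (fun p => γ' p.1 p.2.1 p.2.2) s₁ * eval (fun p => γ' p.1 p.2.1 p.2.2) s₂ = 0 := by
  have : Module.Finite k Q.A :=
    ⟨⟨(Set.finite_range (cub (opt Q.x))).toFinset, by
      rw [Set.Finite.coe_toFinset, eq_top_iff]
      exact fun y _ => span_opt _ hR.quart_x y⟩⟩
  have : Nontrivial Q.A := Ideal.Quotient.nontrivial_iff.2 fun h => by
    have := (Q.c0_d1_I (f := 1) (by rw [h]; trivial)).1
    simp at this
  obtain ⟨n, e, he⟩ := exists_unit_basis (k := k) Q.A
  obtain ⟨F, e', hF, he'⟩ := exists_conj _ σ e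
  obtain ⟨γ, hv, hγ⟩ : ∃ γ : Fin (n + 1) → Fin (n + 1) → Fin (n + 1) → k, Valid γ ∧
      ∀ i j, e i * e j = ∑ l, γ i j l • e l :=
    ⟨_, valid_of_basis e he, fun i j => (e.sum_repr _).symm⟩
  have hv' : Valid fun i j l => σ (γ i j l) := hv.map σ.toRingHom
  have h1 : e' 0 = 1 := by rw [he', he, map_one]
  have h2 : ∀ i j, e' i * e' j = ∑ l, σ (γ i j l) • e' l := by
    intro i j
    rw [he', he', ← map_mul, hγ]
    simp only [map_sum, hF, he']
  obtain ⟨s₁, s₂, a1, a2, a3⟩ := separate hv hv' hR hR' e e' he h1 hγ h2 (H n e)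
  refine ⟨n, γ, hv, s₁, s₂, a1, ?_, a3⟩
  simpa only using a2

theorem core (k : Type u) [Field k] [IsAlgClosed k] (h3 : ringChar k ≠ 3)
    (hk : ringChar k = 0 ∨ ringChar k % 7 = 3 ∨ ringChar k % 7 = 5 ∨ ringChar k % 7 = 6) :
    ∃ (σ : k ≃+* k) (n : ℕ) (γ : Fin (n + 1) → Fin (n + 1) → Fin (n + 1) → k) (_ : Valid γ)
      (s₁ s₂ : MvPolynomial (Fin (n + 1) × Fin (n + 1) × Fin (n + 1)) k),
      eval (fun p => γ p.1 p.2.1 p.2.2) s₁ ≠ 0 ∧ eval (fun p => σ (γ p.1 p.2.1 p.2.2)) s₂ ≠ 0 ∧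
      ∀ γ' : Fin (n + 1) → Fin (n + 1) → Fin (n + 1) → k, Valid γ' →
        eval (fun p => γ' p.1 p.2.1 p.2.2) s₁ * eval (fun p => γ' p.1 p.2.1 p.2.2) s₂ = 0 := by
  obtain ⟨χ, σ, J, hχ, hJ, hσ⟩ := exists_char k h3 hk
  have hχ' : GoodChar (χ.mulShift J) := by
    refine ⟨hχ.two, hχ.three, hχ.seven, fun x hx => hχ.inj x (σ.injective ?_)⟩
    rw [hσ, map_one]; exact hx
  have hC := Data.comb
  generalize Data.cc = c at hC
  have hQ : (QQ χ c).map σ = QQ (χ.mulShift J) c := by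
    simp [QQ, Binom.map, hσ]
  refine ⟨σ, core_gen σ (rigid hχ hC) (by rw [hQ]; exact rigid hχ' hC)
    fun n e K _ φ γ h H₁ H₂ => iso_false hχ hC hJ e K φ γ h H₁ (by rwa [hQ] at H₂)⟩

end Pool.Agent.MP_f49c72_ag
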