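import Mathlib

/-! Families of binomial quadrics and Taylor coefficient functionals. -/

namespace Pool.Agent.MP_f49c72_ag

open MvPolynomial

universe u

structure Binom (k : Type u) (ι κ : Type) where
  a : κ → ι
  b : κ → ι
  a' : κ → ι
  b' : κ → ι
  α : κ → k
  β : κ → k

variable {k : Type u} [Field k] {ι κ : Type}

namespace Binom

def ev {B : Type u} [CommRing B] (Q : Binom B ι κ) {𝒜 : Type*} [CommRing 𝒜] [Algebra B 𝒜]
    (y y' : ι → 𝒜) (j : κ) : 𝒜 :=
  Q.α j • (y (Q.a j) * y' (Q.b j)) + Q.β j • (y (Q.a' j) * y' (Q.b' j))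

def map {B B' : Type u} (Q : Binom B ι κ) (f : B → B') : Binom B' ι κ :=
  ⟨Q.a, Q.b, Q.a', Q.b', fun j => f (Q.α j), fun j => f (Q.β j)⟩

variable (Q : Binom k ι κ)

noncomputable def q (j : κ) : MvPolynomial ι k := Q.ev X X j

noncomputable def I2 : Submodule k (MvPolynomial ι k) := Submodule.span k (Set.range Q.q)

noncomputable def I : Ideal (MvPolynomial ι k) := Ideal.span (Set.range Q.q)

abbrev A : Type u := MvPolynomial ι k ⧸ Q.I

noncomputable def pr : MvPolynomial ι k →ₐ[k] Q.A := Ideal.Quotient.mkₐ k Q.I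

noncomputable def x (a : ι) : Q.A := Q.pr (X a)

noncomputable def M3 : Submodule k Q.A :=
  Submodule.span k (Set.range fun p : ι × ι × ι => Q.x p.1 * Q.x p.2.1 * Q.x p.2.2)

lemma q_mem_I2 (j : κ) : Q.q j ∈ Q.I2 := Submodule.subset_span ⟨j, rfl⟩

lemma q_mem_I (j : κ) : Q.q j ∈ Q.I := Ideal.subset_span ⟨j, rfl⟩

lemma I2_le {f : MvPolynomial ι k} (hf : f ∈ Q.I2) : f ∈ Q.I := by
  induction hf using Submodule.span_induction with
  | mem x hx => obtain ⟨j, rfl⟩ := hx; exact Q.q_mem_I j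
  | zero => exact zero_mem _
  | add x y _ _ hx hy => exact add_mem hx hy
  | smul a x _ hx => rw [smul_eq_C_mul]; exact Ideal.mul_mem_left _ _ hx

lemma pr_surj : Function.Surjective Q.pr := Ideal.Quotient.mkₐ_surjective k Q.I

lemma pr_eq_zero {f : MvPolynomial ι k} : Q.pr f = 0 ↔ f ∈ Q.I := Ideal.Quotient.eq_zero_iff_mem

lemma map_ev {𝒜 ℬ : Type*} [CommRing 𝒜] [Algebra k 𝒜] [CommRing ℬ] [Algebra k ℬ]
    (φ : 𝒜 →ₐ[k] ℬ) (y y' : ι → 𝒜) (j : κ) :
    φ (Q.ev y y' j) = Q.ev (fun a => φ (y a)) (fun a => φ (y' a)) j := by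
  simp [ev]

lemma aeval_q {𝒜 : Type*} [CommRing 𝒜] [Algebra k 𝒜] (z : ι → 𝒜) (j : κ) :
    aeval z (Q.q j) = Q.ev z z j := by
  simp [q, map_ev]

lemma ev_x (j : κ) : Q.ev Q.x Q.x j = 0 := by
  have := Q.pr_eq_zero.2 (Q.q_mem_I j)
  rw [q, map_ev] at this
  exact this

structure Rigid [Fintype ι] : Prop where
  quart : ∀ a b c d : ι, ∃ (e f : ι) (j : κ) (γ : k),
    (X a * X b * X c * X d : MvPolynomial ι k) = γ • (X e * X f * Q.q j)
  t1 : ∀ ψ : Q.I2 →ₗ[k] Q.A,
    (∀ f : ι → Q.I2, ∑ a, X a * (f a : MvPolynomial ι k) = 0 → ∑ a, Q.x a * ψ (f a) = 0) →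
    ∃ h : ι → Q.A, ∀ j, ψ ⟨Q.q j, Q.q_mem_I2 j⟩ - (Q.ev Q.x h j + Q.ev h Q.x j) ∈ Q.M3

lemma Rigid.quart_x [Fintype ι] {Q : Binom k ι κ} (hQ : Q.Rigid) (a b c d : ι) :
    Q.x a * Q.x b * Q.x c * Q.x d = 0 := by
  obtain ⟨e, f, j, γ, h⟩ := hQ.quart a b c d
  have := congrArg Q.pr h
  rw [map_smul, map_mul Q.pr _ (Q.q j), Q.pr_eq_zero.2 (Q.q_mem_I j)] at this
  simpa [x] using this

lemma Rigid.x_mul_M3 [Fintype ι] {Q : Binom k ι κ} (hQ : Q.Rigid) (a : ι) {y : Q.A}
    (hy : y ∈ Q.M3) : y * Q.x a = 0 := by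
  induction hy using Submodule.span_induction with
  | mem x hx => obtain ⟨p, rfl⟩ := hx; exact hQ.quart_x _ _ _ _
  | zero => simp
  | add x y _ _ hx hy => rw [add_mul, hx, hy, add_zero]
  | smul a x _ hx => rw [smul_mul_assoc, hx, smul_zero]

end Binom

/-- constant term. -/
noncomputable def c0 : MvPolynomial ι k →ₐ[k] k := aeval fun _ => 0

@[simp] lemma c0_X (a : ι) : c0 (X a : MvPolynomial ι k) = 0 := by simp [c0]

@[simp] lemma c0_C (r : k) : c0 (C r : MvPolynomial ι k) = r := by simp [c0]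

noncomputable def d1 (a : ι) : MvPolynomial ι k →ₗ[k] k :=
  c0.toLinearMap ∘ₗ (pderiv a).toLinearMap

noncomputable def d2 (a b : ι) : MvPolynomial ι k →ₗ[k] k := d1 a ∘ₗ (pderiv b).toLinearMap

noncomputable def d3 (a b c : ι) : MvPolynomial ι k →ₗ[k] k := d2 a b ∘ₗ (pderiv c).toLinearMap

lemma d1_apply (a : ι) (f : MvPolynomial ι k) : d1 a f = c0 (pderiv a f) := rfl
lemma d2_apply (a b : ι) (f : MvPolynomial ι k) : d2 a b f = d1 a (pderiv b f) := rfl
lemma d3_apply (a b c : ι) (f : MvPolynomial ι k) : d3 a b c f = d2 a b (pderiv c f) := rfl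

lemma d1_mul (a : ι) (f g : MvPolynomial ι k) : d1 a (f * g) = d1 a f * c0 g + c0 f * d1 a g := by
  simp only [d1_apply, pderiv_mul, map_add, map_mul]

lemma d2_mul (a b : ι) (f g : MvPolynomial ι k) : d2 a b (f * g) =
    d2 a b f * c0 g + d1 a f * d1 b g + d1 b f * d1 a g + c0 f * d2 a b g := by
  simp only [d2_apply, pderiv_mul, map_add, d1_mul, ← d1_apply]; ring

lemma d3_mul (a b c : ι) (f g : MvPolynomial ι k) : d3 a b c (f * g) =
    d3 a b c f * c0 g + d2 a b f * d1 c g + d2 a c f * d1 b g + d2 b c f * d1 a g +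
      d1 a f * d2 b c g + d1 b f * d2 a c g + d1 c f * d2 a b g + c0 f * d3 a b c g := by
  simp only [d3_apply, pderiv_mul, map_add, d2_mul, ← d1_apply, ← d2_apply]; ring

@[simp] lemma d1_C (a : ι) (r : k) : d1 a (C r : MvPolynomial ι k) = 0 := by simp [d1_apply]
@[simp] lemma d2_C (a b : ι) (r : k) : d2 a b (C r : MvPolynomial ι k) = 0 := by simp [d2_apply]
@[simp] lemma d3_C (a b c : ι) (r : k) : d3 a b c (C r : MvPolynomial ι k) = 0 := by
  simp [d3_apply]
@[simp] lemma d1_one (a : ι) : d1 a (1 : MvPolynomial ι k) = 0 := by simp [d1_apply]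
@[simp] lemma d2_one (a b : ι) : d2 a b (1 : MvPolynomial ι k) = 0 := by simp [d2_apply]

variable [DecidableEq ι]

@[simp] lemma d1_X (a e : ι) : d1 a (X e : MvPolynomial ι k) = if a = e then 1 else 0 := by
  rw [d1_apply, pderiv_X]
  by_cases h : a = e
  · subst h; simp
  · simp [h]

@[simp] lemma d2_X (a b e : ι) : d2 a b (X e : MvPolynomial ι k) = 0 := by
  rw [d2_apply, pderiv_X]
  by_cases h : b = e
  · subst h; simp
  · simp [Pi.single_eq_of_ne' h]

@[simp] lemma d3_X (a b c e : ι) : d3 a b c (X e : MvPolynomial ι k) = 0 := by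
  rw [d3_apply, pderiv_X]
  by_cases h : c = e
  · subst h; simp
  · simp [Pi.single_eq_of_ne' h]

lemma d2_comm (a b : ι) (f : MvPolynomial ι k) : d2 a b f = d2 b a f := by
  induction f using MvPolynomial.induction_on with
  | C r => simp
  | add p q hp hq => simp [hp, hq]
  | mul_X p e hp => simp only [d2_mul, hp, d2_X]; ring

lemma d3_cyc (a b c : ι) (f : MvPolynomial ι k) : d3 a b c f = d3 b c a f := by
  induction f using MvPolynomial.induction_on with
  | C r => simp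
  | add p q hp hq => simp [hp, hq]
  | mul_X p e hp => simp only [d3_mul, hp, d2_X, d3_X, d2_comm b a, d2_comm c a]; ring

namespace Binom

variable (Q : Binom k ι κ)

omit [DecidableEq ι] in
@[simp] lemma c0_q (j : κ) : c0 (Q.q j) = 0 := by simp [q, ev]

omit [DecidableEq ι] in
@[simp] lemma d1_q (a : ι) (j : κ) : d1 a (Q.q j) = 0 := by simp [q, ev, d1_mul]

@[simp] lemma d3_q (a b c : ι) (j : κ) : d3 a b c (Q.q j) = 0 := by simp [q, ev, d3_mul]

omit [DecidableEq ι] in
lemma c0_d1_I {f : MvPolynomial ι k} (hf : f ∈ Q.I) : c0 f = 0 ∧ ∀ a, d1 a f = 0 := by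
  induction hf using Submodule.span_induction with
  | mem x hx => obtain ⟨j, rfl⟩ := hx; simp
  | zero => simp
  | add x y _ _ hx hy => simp [hx.1, hy.1, hx.2, hy.2]
  | smul a x _ hx => simp [d1_mul, hx.1, hx.2]

variable [Fintype ι]

/-- Taylor expansion up to order two. -/
lemma Rigid0_taylor (h2 : (2 : k) ≠ 0)
    (hq : ∀ a b c d : ι, Q.x a * Q.x b * Q.x c * Q.x d = 0) (f : MvPolynomial ι k) :
    Q.pr f - (algebraMap k _ (c0 f) + ∑ a, d1 a f • Q.x a +
      (2 : k)⁻¹ • ∑ a, ∑ b, d2 a b f • (Q.x a * Q.x b)) ∈ Q.M3 := by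
  have hM : ∀ (a : ι) {y : Q.A}, y ∈ Q.M3 → y * Q.x a = 0 := by
    intro a y hy
    induction hy using Submodule.span_induction with
    | mem x hx => obtain ⟨p, rfl⟩ := hx; exact hq _ _ _ _
    | zero => simp
    | add x y _ _ hx hy => rw [add_mul, hx, hy, add_zero]
    | smul a x _ hx => rw [smul_mul_assoc, hx, smul_zero]
  induction f using MvPolynomial.induction_on with
  | C r =>
    have : Q.pr (C r) = algebraMap k _ r := Q.pr.commutes r
    simp [this]
  | add p q hp hq =>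
    convert add_mem hp hq using 1
    simp only [map_add, add_smul, Finset.sum_add_distrib, smul_add]; abel
  | mul_X p e hp =>
    have h1 := hM e hp
    have hx : Q.pr (X e) = Q.x e := rfl
    have h3 : ((2 : k)⁻¹ • ∑ a, ∑ b, d2 a b p • (Q.x a * Q.x b)) * Q.x e ∈ Q.M3 := by
      rw [smul_mul_assoc, Finset.sum_mul]
      refine Submodule.smul_mem _ _ (Submodule.sum_mem _ fun a _ => ?_)
      rw [Finset.sum_mul]
      refine Submodule.sum_mem _ fun b _ => ?_
      rw [smul_mul_assoc]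
      exact Submodule.smul_mem _ _ (Submodule.subset_span ⟨(a, b, e), rfl⟩)
    convert h3 using 1
    rw [sub_mul, sub_eq_zero] at h1
    rw [map_mul, hx, h1]
    simp only [map_mul, c0_X, mul_zero, map_zero, zero_add, d1_mul, d1_X, d2_mul, d2_X, add_zero,
      add_smul, Finset.sum_add_distrib, mul_ite, mul_one, ite_smul, zero_smul,
      Finset.sum_ite_eq', Finset.mem_univ, if_true]
    rw [Finset.sum_comm (f := fun a b => if a = e then d1 b p • (Q.x a * Q.x b) else 0)]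
    simp only [Finset.sum_ite_eq', Finset.mem_univ, if_true]
    have : ∑ a, d1 a p • (Q.x e * Q.x a) = ∑ a, d1 a p • (Q.x a * Q.x e) := by
      simp only [mul_comm]
    rw [this, ← two_smul k, smul_smul, inv_mul_cancel₀ h2, one_smul, add_mul, add_mul,
      Finset.sum_mul, ← Algebra.smul_def]
    simp only [smul_mul_assoc]
    abel

end Binom

end Pool.Agent.MP_f49c72_ag
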