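import Pool.Agent.MP_f49c72_ag.Gen

/-! Lifting the generators along nilpotent thickenings. -/

namespace Pool.Agent.MP_f49c72_ag

open MvPolynomial Module

universe u v

variable {ι κ : Type}

def cub {𝒜 : Type*} [Mul 𝒜] (z : ι → 𝒜) (p : ι × ι × ι) : 𝒜 := z p.1 * z p.2.1 * z p.2.2

def opt {𝒜 : Type*} [One 𝒜] (z : ι → 𝒜) (o : Option ι) : 𝒜 := o.elim 1 z

/-- span of the cubic monomials. -/
def C3 (B : Type u) [CommRing B] {𝒜 : Type v} [CommRing 𝒜] [Algebra B 𝒜] (z : ι → 𝒜) :
    Submodule B 𝒜 := Submodule.span B (Set.range (cub z))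

lemma cub_mem (B : Type u) [CommRing B] {𝒜 : Type v} [CommRing 𝒜] [Algebra B 𝒜] (z : ι → 𝒜)
    (a b c : ι) : z a * z b * z c ∈ C3 B z := Submodule.subset_span ⟨(a, b, c), rfl⟩

/-- generators satisfying the quadrics up to cubic terms. -/
structure Good {B : Type u} [CommRing B] (Q : Binom B ι κ) {𝒜 : Type v} [CommRing 𝒜] [Algebra B 𝒜]
    (z : ι → 𝒜) : Prop where
  quad : ∀ j, Q.ev z z j ∈ C3 B z
  quart : ∀ a b c d, z a * z b * z c * z d = 0
  span : ∀ y, y ∈ C3 B (opt z)

lemma nil_nakayama {B M : Type*} [CommRing B] [AddCommGroup M] [Module B M] {I : Ideal B}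
    (hI : IsNilpotent I) {N F : Submodule B M} (h : N ≤ I • N ⊔ F) : N ≤ F := by
  obtain ⟨n, hn⟩ := hI
  have : ∀ n : ℕ, N ≤ I ^ n • N ⊔ F := by
    intro n
    induction n with
    | zero => simp
    | succ n ih =>
      refine ih.trans (sup_le ?_ le_sup_right)
      refine (Submodule.smul_mono le_rfl h).trans ?_
      rw [Submodule.smul_sup, ← Submodule.mul_smul, ← pow_succ]
      exact sup_le_sup_left Submodule.smul_le_right _
  have := this n
  rw [hn] at this
  simpa using this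

lemma exists_split {k P M : Type*} [Field k] [AddCommGroup P] [Module k P] [AddCommGroup M]
    [Module k M] (U W : Submodule k M) (g : P →ₗ[k] M) (hg : ∀ p, g p ∈ U ⊔ W) :
    ∃ r : P →ₗ[k] M, ∀ p, r p ∈ W ∧ g p - r p ∈ U := by
  let b := Basis.ofVectorSpace k P
  have := fun i => Submodule.mem_sup.1 (hg (b i))
  choose y hy w hw hyw using this
  refine ⟨b.constr k w, fun p => ?_⟩
  have hp : p ∈ Submodule.span k (Set.range b) := by rw [b.span_eq]; trivial
  induction hp using Submodule.span_induction with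
  | mem x hx =>
    obtain ⟨i, rfl⟩ := hx
    rw [b.constr_basis, ← hyw i, add_sub_cancel_right]
    exact ⟨hw i, hy i⟩
  | zero => simp
  | add x y _ _ hx hy =>
    rw [map_add, map_add, add_sub_add_comm]
    exact ⟨add_mem hx.1 hy.1, add_mem hx.2 hy.2⟩
  | smul a x _ hx =>
    rw [map_smul, map_smul, ← smul_sub]
    exact ⟨W.smul_mem _ hx.1, U.smul_mem _ hx.2⟩

lemma mul_mem_smul_top {B 𝒜 : Type*} [CommRing B] [CommRing 𝒜] [Algebra B 𝒜] {J : Ideal B}
    (w : 𝒜) {a : 𝒜} (ha : a ∈ J • (⊤ : Submodule B 𝒜)) : w * a ∈ J • (⊤ : Submodule B 𝒜) := by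
  refine Submodule.smul_induction_on ha (fun t ht x _ => ?_) (fun x y hx hy => ?_)
  · rw [mul_smul_comm]; exact Submodule.smul_mem_smul ht trivial
  · rw [mul_add]; exact add_mem hx hy

lemma mem_smul_top_iff_repr {B M τ : Type*} [CommRing B] [AddCommGroup M] [Module B M] [Fintype τ]
    (bb : Basis τ B M) {J : Ideal B} {a : M} :
    a ∈ J • (⊤ : Submodule B M) ↔ ∀ i, bb.repr a i ∈ J := by
  constructor
  · intro ha
    refine Submodule.smul_induction_on ha (fun t ht x _ i => ?_) (fun x y hx hy i => ?_)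
    · simpa using J.mul_mem_right _ ht
    · simpa using add_mem (hx i) (hy i)
  · intro h
    rw [← bb.sum_repr a]
    exact Submodule.sum_mem _ fun i _ => Submodule.smul_mem_smul (h i) trivial

variable {k : Type u} [Field k]

lemma span_opt (Q : Binom k ι κ) (hq : ∀ a b c d, Q.x a * Q.x b * Q.x c * Q.x d = 0) (y : Q.A) :
    y ∈ C3 k (opt Q.x) := by
  obtain ⟨f, rfl⟩ := Q.pr_surj y
  induction f using MvPolynomial.induction_on with
  | C r =>
    have : Q.pr (C r) = r • (opt Q.x none * opt Q.x none * opt Q.x none) := by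
      rw [← algebraMap_eq, Q.pr.commutes, Algebra.algebraMap_eq_smul_one]; simp [opt]
    rw [this]
    exact Submodule.smul_mem _ _ (cub_mem k _ _ _ _)
  | add p q hp hq => rw [map_add]; exact add_mem hp hq
  | mul_X p e hp =>
    rw [map_mul]
    change _ * Q.x e ∈ _
    generalize Q.pr p = y at hp
    induction hp using Submodule.span_induction with
    | mem x hx =>
      obtain ⟨⟨a, b, c⟩, rfl⟩ := hx
      rcases a with _ | a
      · convert cub_mem k (opt Q.x) b c (some e) using 1; simp [cub, opt]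
      rcases b with _ | b
      · convert cub_mem k (opt Q.x) (some a) c (some e) using 1; simp [cub, opt]
      rcases c with _ | c
      · convert cub_mem k (opt Q.x) (some a) (some b) (some e) using 1; simp [cub, opt]
      · have : cub (opt Q.x) (some a, some b, some c) * Q.x e = 0 := hq a b c e
        rw [this]; exact zero_mem _
    | zero => simp
    | add x y _ _ hx hy => rw [add_mul]; exact add_mem hx hy
    | smul a x _ hx => rw [smul_mul_assoc]; exact Submodule.smul_mem _ _ hx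

section lift

variable {B : Type u} [CommRing B] [Algebra k B] {𝒜 : Type v} [CommRing 𝒜] [Algebra B 𝒜]
  [Algebra k 𝒜] [IsScalarTower k B 𝒜]

omit [Algebra k B] [IsScalarTower k B 𝒜] in
lemma quart_mem [Fintype ι] {Q : Binom k ι κ} (hQ : Q.Rigid) {m J : Ideal B} (hm : IsNilpotent m)
    {z : ι → 𝒜} (hz : ∀ j, Q.ev z z j ∈ m • C3 B z ⊔ J • (⊤ : Submodule B 𝒜)) (a : ι) {y : 𝒜}
    (hy : y ∈ C3 B z) : z a * y ∈ J • (⊤ : Submodule B 𝒜) := by
  let N : Submodule B 𝒜 :=
    Submodule.span B (Set.range fun p : 𝒜 × ι × ι × ι × ι => p.1 * z p.2.1 * cub z p.2.2)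
  have hN : ∀ w a, ∀ y ∈ C3 B z, w * z a * y ∈ N := by
    intro w a y hy
    induction hy using Submodule.span_induction with
    | mem x hx => obtain ⟨p, rfl⟩ := hx; exact Submodule.subset_span ⟨(w, a, p), rfl⟩
    | zero => simp
    | add x y _ _ hx hy => rw [mul_add]; exact add_mem hx hy
    | smul a x _ hx => rw [mul_smul_comm]; exact Submodule.smul_mem _ _ hx
  have : N ≤ J • (⊤ : Submodule B 𝒜) := by
    apply nil_nakayama hm
    rw [Submodule.span_le]
    rintro _ ⟨⟨w, a, b, c, d⟩, rfl⟩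
    obtain ⟨e, f, j, γ, h⟩ := hQ.quart a b c d
    have h1 := congrArg (aeval z) h
    simp only [map_mul, aeval_X, map_smul, Q.aeval_q] at h1
    obtain ⟨y, hy, r, hr, hyr⟩ := Submodule.mem_sup.1 (hz j)
    have h2 : w * z a * cub z (b, c, d) = (γ • w * z e) * z f * y + (γ • w * z e * z f) * r := by
      rw [← mul_add, hyr]
      rw [Algebra.smul_def] at h1
      simp only [cub, Algebra.smul_def]
      linear_combination w * h1
    change w * z a * cub z (b, c, d) ∈ _
    rw [h2]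
    refine Submodule.add_mem_sup ?_ (mul_mem_smul_top _ hr)
    refine Submodule.smul_induction_on hy (fun t ht x hx => ?_) (fun x y hx hy => ?_)
    · rw [mul_smul_comm]; exact Submodule.smul_mem_smul ht (hN _ _ _ hx)
    · rw [mul_add]; exact add_mem hx hy
  have h1 := this (hN 1 a y hy)
  rwa [one_mul] at h1

lemma lift_C3 {A : Type*} [CommRing A] [Algebra k A] {ι' : Type} (ev : 𝒜 →ₐ[k] A) (z : ι' → 𝒜)
    (x : ι' → A) (hz : ∀ a, ev (z a) = x a) {y : A} (hy : y ∈ C3 k x) :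
    ∃ w ∈ C3 B z, ev w = y := by
  induction hy using Submodule.span_induction with
  | mem x hx =>
    obtain ⟨⟨a, b, c⟩, rfl⟩ := hx
    exact ⟨_, cub_mem B z a b c, by simp [cub, hz]⟩
  | zero => exact ⟨0, zero_mem _, map_zero _⟩
  | add x y _ _ hx hy =>
    obtain ⟨w, hw, rfl⟩ := hx
    obtain ⟨w', hw', rfl⟩ := hy
    exact ⟨w + w', add_mem hw hw', map_add _ _ _⟩
  | smul a x _ hx =>
    obtain ⟨w, hw, rfl⟩ := hx
    exact ⟨a • w, Submodule.smul_of_tower_mem _ _ hw, map_smul _ _ _⟩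

variable {τ : Type} [Fintype τ] [Fintype ι] {Q : Binom k ι κ} (ρ : B →ₐ[k] k) (bb : Basis τ B 𝒜)
  (e : Basis τ k Q.A) (ev : 𝒜 →ₐ[k] Q.A)

omit [Fintype ι] [IsScalarTower k B 𝒜] in
lemma ev_eq (h1 : ∀ (b : B) a, ev (b • a) = ρ b • ev a) (h2 : ∀ i, ev (bb i) = e i) (a : 𝒜) :
    ev a = ∑ i, ρ (bb.repr a i) • e i := by
  conv_lhs => rw [← bb.sum_repr a]
  simp only [map_sum, h1, h2]

omit [Fintype ι] [Algebra k B] [IsScalarTower k B 𝒜] in
lemma ev_surj (h2 : ∀ i, ev (bb i) = e i) : Function.Surjective ev := by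
  intro y
  refine ⟨∑ i, e.repr y i • bb i, ?_⟩
  simp [h2]

lemma exists_theta {m J : Ideal B} (hm : IsNilpotent m) (hJ0 : J ≠ ⊥) :
    ∃ t ∈ J, ∃ θ : B →ₗ[k] k, θ t = 1 ∧ ∀ s ∈ m, ∀ b ∈ J, θ (s * b) = 0 := by
  have : ¬ J ≤ m * J := fun h => hJ0 (le_bot_iff.1 (nil_nakayama hm (h.trans le_sup_left)))
  obtain ⟨t, ht, ht'⟩ := SetLike.not_le_iff_exists.1 this
  have h0 : t ∉ (m * J).restrictScalars k := ht'
  obtain ⟨θ, h1, h2⟩ := Submodule.exists_dual_map_eq_bot_of_notMem h0 inferInstance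
  refine ⟨(θ t)⁻¹ • t, Submodule.smul_of_tower_mem _ _ ht, θ, by simp [h1], fun s hs b hb => ?_⟩
  have h3 : s * b ∈ (m * J).restrictScalars k := Ideal.mul_mem_mul hs hb
  have := Submodule.mem_map_of_mem (f := θ) h3
  rwa [h2] at this

lemma lift_step (hQ : Q.Rigid) (h1 : ∀ (b : B) a, ev (b • a) = ρ b • ev a)
    (h2 : ∀ i, ev (bb i) = e i) {m : Ideal B} (hmdef : m = RingHom.ker ρ) (hm : IsNilpotent m)
    {J : Ideal B} (hJ : J ≤ m) (hJ0 : J ≠ ⊥) {z : ι → 𝒜} (hz1 : ∀ a, ev (z a) = Q.x a)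
    (hz : ∀ j, Q.ev z z j ∈ m • C3 B z ⊔ J • (⊤ : Submodule B 𝒜)) :
    ∃ J' < J, ∃ z' : ι → 𝒜, (∀ a, ev (z' a) = Q.x a) ∧
      ∀ j, Q.ev z' z' j ∈ m • C3 B z' ⊔ J' • (⊤ : Submodule B 𝒜) := by
  obtain ⟨t, htJ, θ, hθt, hθ⟩ := exists_theta (k := k) hm hJ0
  have hθ' : ∀ b ∈ J, ∀ s, θ (b * s) = θ b * ρ s := by
    intro b hb s
    have := hθ (s - algebraMap k B (ρ s)) (by simp [hmdef, RingHom.mem_ker]) b hb
    rw [sub_mul, map_sub, ← Algebra.smul_def, map_smul, smul_eq_mul] at this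
    rw [mul_comm b]; linear_combination this
  let J' : Ideal B :=
    { carrier := {b | b ∈ J ∧ θ b = 0}
      add_mem' := fun ha hb => ⟨add_mem ha.1 hb.1, by rw [map_add, ha.2, hb.2, add_zero]⟩
      zero_mem' := ⟨zero_mem _, map_zero _⟩
      smul_mem' := fun s b hb => ⟨J.mul_mem_left _ hb.1, by
        rw [smul_eq_mul, mul_comm, hθ' b hb.1, hb.2, zero_mul]⟩ }
  have hmJ : m • J ≤ J' := by
    rw [Submodule.smul_le]
    intro s hs b hb
    exact ⟨J.mul_mem_left _ hb, hθ s hs b hb⟩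
  let T : 𝒜 →ₗ[k] Q.A :=
    ∑ i, LinearMap.toSpanSingleton k Q.A (e i) ∘ₗ θ ∘ₗ (bb.coord i).restrictScalars k
  have hT : ∀ a, T a = ∑ i, θ (bb.repr a i) • e i := by
    intro a; simp [T, LinearMap.sum_apply]
  have hT1 : ∀ b ∈ J, ∀ w, T (b • w) = θ b • ev w := by
    intro b hb w
    rw [hT, ev_eq ρ bb e ev h1 h2, Finset.smul_sum]
    refine Finset.sum_congr rfl fun i _ => ?_
    simp [hθ' b hb, mul_smul]
  have hT2 : ∀ w, ∀ a ∈ J • (⊤ : Submodule B 𝒜), T (w * a) = ev w * T a := by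
    intro w a ha
    refine Submodule.smul_induction_on ha (fun b hb x _ => ?_) (fun x y hx hy => ?_)
    · rw [mul_smul_comm, hT1 b hb, hT1 b hb, map_mul, mul_smul_comm]
    · rw [mul_add, map_add, map_add, hx, hy, mul_add]
  have hT3 : ∀ a ∈ J • (⊤ : Submodule B 𝒜), T a = 0 → a ∈ J' • (⊤ : Submodule B 𝒜) := by
    intro a ha h0
    rw [mem_smul_top_iff_repr bb] at ha ⊢
    rw [hT] at h0
    exact fun i => ⟨ha i, Fintype.linearIndependent_iff.1 e.linearIndependent _ h0 i⟩
  have hT4 : ∀ a ∈ J' • (⊤ : Submodule B 𝒜), T a = 0 := by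
    intro a ha
    rw [mem_smul_top_iff_repr bb] at ha
    rw [hT]
    exact Finset.sum_eq_zero fun i _ => by rw [(ha i).2, zero_smul]
  have hmF : m • J • (⊤ : Submodule B 𝒜) ≤ J' • ⊤ := by
    rw [← Submodule.smul_assoc]; exact Submodule.smul_mono_left hmJ
  obtain ⟨r, hr⟩ := exists_split ((m • C3 B z).restrictScalars k)
    ((J • (⊤ : Submodule B 𝒜)).restrictScalars k) ((aeval z).toLinearMap ∘ₗ Q.I2.subtype) (by
      rintro ⟨f, hf⟩
      rw [← Submodule.restrictScalars_sup]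
      change aeval z f ∈ _
      induction hf using Submodule.span_induction with
      | mem x hx => obtain ⟨j, rfl⟩ := hx; rw [Q.aeval_q]; exact hz j
      | zero => simp
      | add x y _ _ hx hy => rw [map_add]; exact add_mem hx hy
      | smul a x _ hx => rw [map_smul]; exact Submodule.smul_mem _ _ hx)
  have hr1 : ∀ f, r f ∈ J • (⊤ : Submodule B 𝒜) := fun f => (hr f).1
  have hr2 : ∀ f : Q.I2, aeval z (f : MvPolynomial ι k) - r f ∈ m • C3 B z := fun f => (hr f).2
  obtain ⟨h, hh⟩ := hQ.t1 (T ∘ₗ r) (by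
    intro f hf
    have e1 := congrArg (aeval z) hf
    simp only [map_sum, map_mul, aeval_X, map_zero] at e1
    have e2 : ∀ a, T (z a * (aeval z (f a : MvPolynomial ι k) - r (f a))) = 0 := by
      intro a
      apply hT4
      apply hmF
      refine Submodule.smul_induction_on (hr2 (f a)) (fun s hs x hx => ?_) (fun x y hx hy => ?_)
      · rw [mul_smul_comm]; exact Submodule.smul_mem_smul hs (quart_mem hQ hm hz a hx)
      · rw [mul_add]; exact add_mem hx hy
    have e3 : ∀ a, Q.x a * (T ∘ₗ r) (f a) = T (z a * aeval z (f a : MvPolynomial ι k)) := by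
      intro a
      have := e2 a
      rw [mul_sub, map_sub, sub_eq_zero] at this
      rw [this, hT2 _ _ (hr1 _), hz1]; rfl
    simp only [e3]
    rw [← map_sum, e1, map_zero])
  choose h' hh' using fun a => ev_surj bb e ev h2 (h a)
  refine ⟨J', ⟨fun b hb => hb.1, fun hle => one_ne_zero (hθt.symm.trans (hle htJ).2)⟩,
    fun a => z a - t • h' a, fun a => ?_, fun j => ?_⟩
  · have : ρ t = 0 := by have := hJ htJ; rwa [hmdef] at this
    simp [hz1, h1, this]
  · obtain ⟨w, hw, hw'⟩ := lift_C3 (B := B) ev z Q.x hz1 (hh j)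
    set z' : ι → 𝒜 := fun a => z a - t • h' a with hz'
    have hC : m • C3 B z ≤ m • C3 B z' ⊔ J' • ⊤ := by
      have : C3 B z ≤ C3 B z' ⊔ J • ⊤ := by
        rw [C3, Submodule.span_le]
        rintro _ ⟨⟨a, b, c⟩, rfl⟩
        have : cub z (a, b, c) = z' a * z' b * z' c +
            t • (h' a * z b * z c + z' a * h' b * z c + z' a * z' b * h' c) := by
          simp only [cub, hz', Algebra.smul_def]; ring
        rw [this]
        exact Submodule.add_mem_sup (cub_mem B z' a b c) (Submodule.smul_mem_smul htJ trivial)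
      refine (Submodule.smul_mono le_rfl this).trans ?_
      rw [Submodule.smul_sup]
      exact sup_le_sup_left hmF _
    set f : Q.I2 := ⟨Q.q j, Q.q_mem_I2 j⟩ with hf
    have e1 : Q.ev z' z' j = (aeval z (f : MvPolynomial ι k) - r f) + t • w +
        (r f - t • (Q.ev z h' j + Q.ev h' z j) - t • w) + t • t • Q.ev h' h' j := by
      simp only [hf, Q.aeval_q, Binom.ev, hz', Algebra.smul_def]; ring
    rw [e1]
    refine add_mem (add_mem (add_mem (hC (hr2 f)) (hC (Submodule.smul_mem_smul (hJ htJ) hw)))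
      (Submodule.mem_sup_right (hT3 _ ?_ ?_))) (Submodule.mem_sup_right (hmF ?_))
    · exact sub_mem (sub_mem (hr1 f) (Submodule.smul_mem_smul htJ trivial))
        (Submodule.smul_mem_smul htJ trivial)
    · rw [map_sub, map_sub, hT1 t htJ, hT1 t htJ, hθt, one_smul, one_smul, hw', map_add, Q.map_ev,
        Q.map_ev]
      simp only [hz1, hh']
      exact sub_self _
    · exact Submodule.smul_mem_smul (hJ htJ) (Submodule.smul_mem_smul htJ trivial)

theorem lift_good [IsArtinianRing B] (hQ : Q.Rigid) (h1 : ∀ (b : B) a, ev (b • a) = ρ b • ev a)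
    (h2 : ∀ i, ev (bb i) = e i) (hm : IsNilpotent (RingHom.ker ρ)) :
    ∃ z : ι → 𝒜, Good (Q.map (algebraMap k B)) z := by
  have hker : ∀ a, ev a = 0 → a ∈ RingHom.ker ρ • (⊤ : Submodule B 𝒜) := by
    intro a ha
    rw [ev_eq ρ bb e ev h1 h2] at ha
    rw [mem_smul_top_iff_repr bb]
    exact fun i => Fintype.linearIndependent_iff.1 e.linearIndependent _ ha i
  obtain ⟨J, ⟨hJ, z, hz1, hz⟩, hmin⟩ := (IsWellFounded.wf (α := Ideal B) (r := (· < ·))).has_min
    {J | J ≤ RingHom.ker ρ ∧ ∃ z : ι → 𝒜, (∀ a, ev (z a) = Q.x a) ∧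
      ∀ j, Q.ev z z j ∈ RingHom.ker ρ • C3 B z ⊔ J • (⊤ : Submodule B 𝒜)} (by
    choose z hz using fun a => ev_surj bb e ev h2 (Q.x a)
    refine ⟨_, le_rfl, z, hz, fun j => Submodule.mem_sup_right (hker _ ?_)⟩
    rw [Q.map_ev]
    simp only [hz]
    exact Q.ev_x j)
  have hJ0 : J = ⊥ := by
    by_contra h0
    obtain ⟨J', hlt, z', h3, h4⟩ := lift_step ρ bb e ev hQ h1 h2 rfl hm hJ h0 hz1 hz
    exact hmin J' ⟨hlt.le.trans hJ, z', h3, h4⟩ hlt
  subst hJ0
  refine ⟨z, fun j => ?_, fun a b c d => ?_, ?_⟩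
  · have := hz j
    rw [Submodule.bot_smul, sup_bot_eq] at this
    have e : (Q.map (algebraMap k B)).ev z z j = Q.ev z z j := by simp [Binom.ev, Binom.map]
    rw [e]
    exact Submodule.smul_le_right this
  · have := quart_mem hQ hm hz a (cub_mem B z b c d)
    rw [Submodule.bot_smul, Submodule.mem_bot] at this
    rw [← this]; ring
  · have : ⊤ ≤ C3 B (opt z) := by
      apply nil_nakayama hm
      intro y _
      obtain ⟨w, hw, hw'⟩ := lift_C3 (B := B) ev (opt z) (opt Q.x)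
        (fun a => by cases a <;> simp [opt, hz1]) (span_opt Q hQ.quart_x (ev y))
      rw [← sub_add_cancel y w]
      exact Submodule.add_mem_sup (hker _ (by rw [map_sub, hw', sub_self])) hw
    exact fun y => this trivial

end lift

end Pool.Agent.MP_f49c72_ag
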