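import Mathlib

/-! Small linear algebra over `Fin 3` and seventh roots of unity. -/

namespace Pool.Agent.MP_f49c72_ag

abbrev Z7 := ZMod 7

/-- the row weights `0, 1, 3`. -/
def ew : Fin 3 → Z7 := ![0, 1, 3]

@[simp] lemma ew_zero : ew 0 = 0 := rfl
@[simp] lemma ew_one : ew 1 = 1 := rfl
@[simp] lemma ew_two : ew 2 = 3 := rfl

/-- the Levi-Civita symbol. -/
def epsZ (a b c : Fin 3) : ℤ :=
  if b = a + 1 ∧ c = a + 2 then 1 else if b = a + 2 ∧ c = a + 1 then -1 else 0

variable {k : Type*} [Field k]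

def eps (k : Type*) [Field k] (a b c : Fin 3) : k := (epsZ a b c : k)

lemma eps_cyc (a b c : Fin 3) : eps k a b c = eps k b c a := by
  unfold eps; congr 1; revert a b c; decide

lemma eps_swap (a b c : Fin 3) : eps k a b c = - eps k a c b := by
  unfold eps; rw [← Int.cast_neg]; congr 1; revert a b c; decide

lemma eps_swap12 (a b c : Fin 3) : eps k a b c = - eps k b a c := by
  unfold eps; rw [← Int.cast_neg]; congr 1; revert a b c; decide

lemma eps_self12 (a c : Fin 3) : eps k a a c = 0 := by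
  have : epsZ a a c = 0 := by revert a c; decide
  simp [eps, this]

lemma eps_self13 (a c : Fin 3) : eps k a c a = 0 := by
  have : epsZ a c a = 0 := by revert a c; decide
  simp [eps, this]

lemma eps_self23 (a c : Fin 3) : eps k c a a = 0 := by
  have : epsZ c a a = 0 := by revert a c; decide
  simp [eps, this]

lemma eps_succ (a : Fin 3) : eps k a (a + 1) (a + 2) = 1 := by
  have : epsZ a (a + 1) (a + 2) = 1 := by revert a; decide
  simp [eps, this]

lemma epsZ_weight (a b c : Fin 3) (h : epsZ a b c ≠ 0) : ew a + ew b + ew c = 4 := by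
  revert a b c; decide

lemma alt3 (h2 : (2 : k) ≠ 0) (φ : Fin 3 → Fin 3 → Fin 3 → k)
    (h12 : ∀ a b c, φ a b c + φ b a c = 0) (h13 : ∀ a b c, φ a b c + φ c b a = 0) :
    ∀ a b c, φ a b c = eps k a b c * φ 0 1 2 := by
  have d12 : ∀ a c, φ a a c = 0 := fun a c =>
    (mul_eq_zero.1 (by linear_combination h12 a a c : 2 * φ a a c = 0)).resolve_left h2
  have d13 : ∀ a b, φ a b a = 0 := fun a b =>
    (mul_eq_zero.1 (by linear_combination h13 a b a : 2 * φ a b a = 0)).resolve_left h2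
  have d23 : ∀ a b, φ a b b = 0 := fun a b => by
    linear_combination h12 a b b - d13 b a
  intro a b c
  fin_cases a <;> fin_cases b <;> fin_cases c <;> simp [eps, epsZ, d12, d13, d23]
  · linear_combination h12 0 2 1 - h13 2 0 1 + h12 1 0 2
  · linear_combination h12 1 0 2
  · linear_combination h13 1 2 0 - h12 0 2 1 + h13 2 0 1 - h12 1 0 2 + h12 1 0 2 - h12 1 0 2
  · linear_combination h13 2 0 1 - h12 1 0 2
  · linear_combination h13 2 1 0

lemma symalt (h2 : (2 : k) ≠ 0) (φ : Fin 3 → Fin 3 → Fin 3 → k)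
    (h12 : ∀ a b c, φ a b c = φ b a c) (h23 : ∀ a b c, φ a b c + φ a c b = 0) :
    ∀ a b c, φ a b c = 0 := by
  intro a b c
  have : 2 * φ a b c = 0 := by
    linear_combination h23 a b c - h12 a c b - h23 c a b + h12 c b a + h23 b c a + h12 a b c
  exact (mul_eq_zero.1 this).resolve_left h2

lemma alt23 (h2 : (2 : k) ≠ 0) (φ : Fin 3 → Fin 3 → Fin 3 → k)
    (h23 : ∀ a b c, φ a b c + φ a c b = 0) :
    ∀ a b c, φ a b c = ∑ l, eps k l b c * φ a (l + 1) (l + 2) := by
  have d23 : ∀ a b, φ a b b = 0 := fun a b =>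
    (mul_eq_zero.1 (by linear_combination h23 a b b : 2 * φ a b b = 0)).resolve_left h2
  intro a b c
  fin_cases b <;> fin_cases c <;> simp [eps, epsZ, d23, Fin.sum_univ_three]
  · linear_combination h23 a 0 2
  · linear_combination h23 a 1 0
  · linear_combination h23 a 2 1

/-- the trivial first order deformation attached to a matrix. -/
def TT (H : Fin 3 → Fin 3 → k) (G : Fin 3 → k) (m i j : Fin 3) : k :=
  ∑ l, (eps k m l j * H l i * G j + eps k m l i * H l j * G i)

lemma TT_eq_zero (h2 : (2 : k) ≠ 0) {H : Fin 3 → Fin 3 → k} {G : Fin 3 → k} (hG : ∀ i, G i ≠ 0)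
    (hG0 : G 0 = 1) (h : ∀ m i j, TT H G m i j = 0) :
    ∀ l i, H l i = if l = i then H 0 0 * G i else 0 := by
  have g0 := hG 0; have g1 := hG 1; have g2 := hG 2
  have aux : ∀ (x y : k), y ≠ 0 → x * y + x * y = 0 → x = 0 := fun x y hy hxy => by
    have : 2 * (x * y) = 0 := by linear_combination hxy
    exact (mul_eq_zero.1 ((mul_eq_zero.1 this).resolve_left h2)).resolve_right hy
  have aux' : ∀ (x y : k), y ≠ 0 → -(x * y) + -(x * y) = 0 → x = 0 := fun x y hy hxy =>
    aux x y hy (by linear_combination -hxy)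
  intro l i
  fin_cases l <;> fin_cases i <;> simp
  · simp [hG0]
  · have := h 2 1 1; simp [TT, eps, epsZ, Fin.sum_univ_three] at this; exact aux _ _ g1 this
  · have := h 1 2 2; simp only [TT, eps, epsZ, Fin.sum_univ_three] at this
    refine aux' _ _ g2 ?_; simpa using this
  · have := h 2 0 0; simp only [TT, eps, epsZ, Fin.sum_univ_three] at this
    refine aux' _ _ g0 ?_; simpa using this
  · have := h 2 0 1; simp [TT, eps, epsZ, Fin.sum_univ_three, hG0] at this
    linear_combination -this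
  · have := h 0 2 2; simp [TT, eps, epsZ, Fin.sum_univ_three] at this; exact aux _ _ g2 this
  · have := h 1 0 0; simp [TT, eps, epsZ, Fin.sum_univ_three] at this; exact aux _ _ g0 this
  · have := h 0 1 1; simp only [TT, eps, epsZ, Fin.sum_univ_three] at this
    refine aux' _ _ g1 ?_; simpa using this
  · have := h 1 0 2; simp [TT, eps, epsZ, Fin.sum_univ_three, hG0] at this
    linear_combination this


/-- standing assumptions on the field and the character. -/
structure GoodChar (χ : AddChar Z7 k) : Prop where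
  two : (2 : k) ≠ 0
  three : (3 : k) ≠ 0
  seven : (7 : k) ≠ 0
  inj : ∀ x, χ x = 1 → x = 0

section chi
variable {χ : AddChar Z7 k}

lemma chi_mul_neg (x : Z7) : χ x * χ (-x) = 1 := by
  rw [← AddChar.map_add_eq_mul]; simp

lemma chi_ne (x : Z7) : χ x ≠ 0 := left_ne_zero_of_mul_eq_one (chi_mul_neg x)

lemma GoodChar.injective (h : GoodChar χ) {x y : Z7} (hxy : χ x = χ y) : x = y := by
  have : χ (x - y) = 1 := by
    rw [sub_eq_add_neg, AddChar.map_add_eq_mul, hxy, chi_mul_neg]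
  exact sub_eq_zero.1 (h.inj _ this)

lemma chi_pow (x : Z7) (n : ℕ) : χ x ^ n = χ ((n : Z7) * x) := by
  rw [← AddChar.map_nsmul_eq_pow, nsmul_eq_mul]

lemma chi_pow_seven (x : Z7) : χ x ^ 7 = 1 := by
  rw [chi_pow]
  have : ((7 : ℕ) : Z7) = 0 := by decide
  rw [this, zero_mul, AddChar.map_zero_eq_one]

lemma GoodChar.ne_neg_one (h : GoodChar χ) (x : Z7) : χ x + 1 ≠ 0 := by
  intro hx
  have h1 : χ x = -1 := by linear_combination hx
  have h2 := chi_pow_seven (χ := χ) x
  rw [h1] at h2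
  apply h.two
  linear_combination -h2

lemma GoodChar.phi (h : GoodChar χ) {x : Z7} (hx : x ≠ 0) :
    χ x ^ 6 + χ x ^ 5 + χ x ^ 4 + χ x ^ 3 + χ x ^ 2 + χ x + 1 = 0 := by
  have h1 : χ x - 1 ≠ 0 := fun h0 => hx (h.inj x (by linear_combination h0))
  have h2 := chi_pow_seven (χ := χ) x
  apply (mul_eq_zero.1 (_ : (χ x - 1) * _ = 0)).resolve_left h1
  linear_combination h2

lemma GoodChar.sum_ne (h : GoodChar χ) {a b c : Z7} (hab : a ≠ b) (hac : a ≠ c) (hbc : b ≠ c) :
    χ a + χ b + χ c ≠ 0 := by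
  have key : ∀ a b c : Z7, a ≠ b → a ≠ c → b ≠ c →
      (c - a = 2 * (b - a) ∨ c - a = 3 * (b - a) ∨ c - a = 4 * (b - a) ∨ c - a = 5 * (b - a) ∨
        c - a = 6 * (b - a)) := by decide
  intro h0
  have hx : b - a ≠ 0 := sub_ne_zero.2 hab.symm
  have hp := h.phi hx
  have h7 := chi_pow_seven (χ := χ) (b - a)
  have hb : χ b = χ a * χ (b - a) := by rw [← AddChar.map_add_eq_mul]; congr 1; ring
  have hc : χ c = χ a * χ (c - a) := by rw [← AddChar.map_add_eq_mul]; congr 1; ring
  have h1 : 1 + χ (b - a) + χ (c - a) = 0 := by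
    apply (mul_eq_zero.1 (_ : χ a * _ = 0)).resolve_left (chi_ne a)
    rw [hb, hc] at h0; linear_combination h0
  have h8 : (2 : k) ^ 3 ≠ 0 := pow_ne_zero _ h.two
  set X := χ (b - a) with hX
  rcases key a b c hab hac hbc with e | e | e | e | e
  · have : χ (c - a) = X ^ 2 := by rw [e, hX, chi_pow]; rfl
    rw [this] at h1
    have : (1 : k) = 0 := by linear_combination hp - (X ^ 4 + X) * h1
    exact one_ne_zero this
  · have : χ (c - a) = X ^ 3 := by rw [e, hX, chi_pow]; rfl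
    rw [this] at h1
    apply h8
    linear_combination ((-4) * X ^ 1 + (-4) * X ^ 2 + (-4) * X ^ 3 + (-4) * X ^ 5) * h1 + ((8) * X ^ 0 + (-4) * X ^ 1 + (4) * X ^ 2) * hp
  · have : χ (c - a) = X ^ 4 := by rw [e, hX, chi_pow]; rfl
    rw [this] at h1
    apply h8
    linear_combination ((-8) * X ^ 2 + (-8) * X ^ 4) * h1 + ((8) * X ^ 0 + (-8) * X ^ 1 + (8) * X ^ 2) * hp
  · have : χ (c - a) = X ^ 5 := by rw [e, hX, chi_pow]; rfl
    rw [this] at h1
    apply h8
    linear_combination ((-4) * X ^ 1 + (-4) * X ^ 3 + (-4) * X ^ 4 + (-4) * X ^ 5) * h1 + ((8) * X ^ 0 + (-4) * X ^ 1 + (4) * X ^ 4) * hp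
  · have : χ (c - a) = X ^ 6 := by rw [e, hX, chi_pow]; rfl
    rw [this] at h1
    apply h8
    linear_combination ((-8) * X ^ 2 + (-8) * X ^ 5) * h1 + ((8) * X ^ 0 + (-8) * X ^ 1 + (8) * X ^ 2 + (-8) * X ^ 4 + (8) * X ^ 5) * hp

lemma chi_three (x : Z7) : χ (3 * x) = χ x ^ 3 := by rw [chi_pow]; rfl

/-- no three of the seven points `(1, ζ^a, ζ^{3a})` are collinear. -/
lemma GoodChar.three_pts (h : GoodChar χ) {a b c : Z7} (hab : a ≠ b) (hac : a ≠ c) (hbc : b ≠ c)
    (y : Fin 3 → k) (ha : ∑ m, y m * χ (ew m * a) = 0) (hb : ∑ m, y m * χ (ew m * b) = 0)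
    (hc : ∑ m, y m * χ (ew m * c) = 0) : ∀ m, y m = 0 := by
  simp only [Fin.sum_univ_three, ew_zero, ew_one, ew_two, zero_mul, one_mul,
    AddChar.map_zero_eq_one, mul_one, chi_three] at ha hb hc
  have n1 : χ a - χ b ≠ 0 := sub_ne_zero.2 fun e => hab (h.injective e)
  have n2 : χ a - χ c ≠ 0 := sub_ne_zero.2 fun e => hac (h.injective e)
  have n3 : χ b - χ c ≠ 0 := sub_ne_zero.2 fun e => hbc (h.injective e)
  have n4 := h.sum_ne hab hac hbc
  have e1 : y 1 + y 2 * (χ a ^ 2 + χ a * χ b + χ b ^ 2) = 0 := by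
    apply (mul_eq_zero.1 (_ : (χ a - χ b) * _ = 0)).resolve_left n1
    linear_combination ha - hb
  have e2 : y 1 + y 2 * (χ a ^ 2 + χ a * χ c + χ c ^ 2) = 0 := by
    apply (mul_eq_zero.1 (_ : (χ a - χ c) * _ = 0)).resolve_left n2
    linear_combination ha - hc
  have e3 : y 2 = 0 := by
    have : (χ b - χ c) * ((χ a + χ b + χ c) * y 2) = 0 := by linear_combination e1 - e2
    exact (mul_eq_zero.1 ((mul_eq_zero.1 this).resolve_left n3)).resolve_left n4
  have e4 : y 1 = 0 := by rw [e3] at e1; linear_combination e1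
  have e5 : y 0 = 0 := by rw [e3, e4] at ha; linear_combination ha
  intro m; fin_cases m <;> assumption

end chi


lemma sum_eps {n i j : Fin 3} (h1 : n ≠ i) (h2 : n ≠ j) (h3 : i ≠ j) (f : Fin 3 → k) :
    ∑ i', eps k n i' j * f i' = eps k n i j * f i := by
  fin_cases n <;> fin_cases i <;> fin_cases j <;> simp_all [eps, epsZ]

lemma sum_eps_self (j : Fin 3) (f : Fin 3 → k) : ∑ i', eps k j i' j * f i' = 0 := by
  simp [eps_self13]

lemma eps_sq {n i j : Fin 3} (h1 : n ≠ i) (h2 : n ≠ j) (h3 : i ≠ j) :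
    eps k n i j * eps k n i j = 1 := by
  fin_cases n <;> fin_cases i <;> fin_cases j <;> simp_all [eps, epsZ]

lemma eps_ne {n i j : Fin 3} (h1 : n ≠ i) (h2 : n ≠ j) (h3 : i ≠ j) : eps k n i j ≠ 0 :=
  left_ne_zero_of_mul_eq_one (eps_sq h1 h2 h3)

lemma exists_third {i j : Fin 3} (h : i ≠ j) :
    ∃ n, n ≠ i ∧ n ≠ j ∧ ∀ l, l = i ∨ l = j ∨ l = n := by
  revert i j; decide

lemma far1 (X : Fin 3 → k) (i j : Fin 3)
    (h : ∀ n m, epsZ m i j = 0 → ∑ i', eps k n i' m * X i' = 0) : ∀ l, X l = 0 := by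
  intro l
  obtain ⟨m, hm, hml⟩ : ∃ m, epsZ m i j = 0 ∧ l ≠ m := by clear h; revert i j l; decide
  obtain ⟨n, h1, h2, -⟩ := exists_third hml
  have := h n m hm
  rw [sum_eps h1 h2 hml] at this
  exact (mul_eq_zero.1 this).resolve_left (eps_ne h1 h2 hml)

lemma near1 (h2 : (2 : k) ≠ 0) (G : Fin 3 → k) (hG : ∀ i, G i ≠ 0)
    (φ : Fin 3 → Fin 3 → Fin 3 → Fin 3 → k) (halt : ∀ n i j l, φ n i j l + φ n i l j = 0)
    (X : Fin 3 → Fin 3 → Fin 3 → k)
    (hX : ∀ n i j l, G j * φ n i j l + G i * φ n j i l = ∑ i', eps k n i' l * X i j i') :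
    ∃ h : Fin 3 → k,
      (∀ i j l, X i j l = (if j = l then h i * G j else 0) + (if i = l then h j * G i else 0)) ∧
      ∀ n i j, i ≠ j → φ n i j i = eps k n j i * h i := by
  have d : ∀ n i j, φ n i j j = 0 := fun n i j =>
    (mul_eq_zero.1 (by linear_combination halt n i j j : 2 * φ n i j j = 0)).resolve_left h2
  have x1 : ∀ i l, l ≠ i → X i i l = 0 := by
    intro i l hl
    obtain ⟨n, h1, h3, -⟩ := exists_third hl
    have := hX n i i i
    rw [sum_eps h1 h3 hl, d, mul_zero, add_zero] at this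
    exact (mul_eq_zero.1 this.symm).resolve_left (eps_ne h1 h3 hl)
  have hphi : ∀ n i j, i ≠ j → φ n i j i = eps k n j i * (X i i i / (2 * G i)) := by
    intro n i j hij
    have e := hX n i i j
    have e2 : ∑ i', eps k n i' j * X i i i' = eps k n i j * X i i i := by
      rw [Finset.sum_eq_single i]
      · intro b _ hb; rw [x1 i b hb, mul_zero]
      · simp
    rw [e2] at e
    have g := hG i
    field_simp
    rw [eps_swap n j i]
    linear_combination 2 * G i * halt n i j i - e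
  refine ⟨fun i => X i i i / (2 * G i), ?_, hphi⟩
  have xs : ∀ i j, i ≠ j → X i j i = X j j j / (2 * G j) * G i := by
    intro i j hij
    obtain ⟨n, h1, h3, -⟩ := exists_third hij
    have e := hX n i j j
    rw [sum_eps h1 h3 hij, d, hphi n j i hij.symm] at e
    apply mul_left_cancel₀ (eps_ne (k := k) h1 h3 hij)
    linear_combination -e
  have xs' : ∀ i j, i ≠ j → X i j j = X i i i / (2 * G i) * G j := by
    intro i j hij
    obtain ⟨n, h1, h3, -⟩ := exists_third hij
    have e := hX n i j i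
    rw [sum_eps h3 h1 hij.symm, d, hphi n i j hij] at e
    apply mul_left_cancel₀ (eps_ne (k := k) h3 h1 hij.symm)
    linear_combination -e
  intro i j l
  by_cases hij : i = j
  · subst hij
    by_cases hl : i = l
    · subst hl
      have g := hG i
      simp only [if_true]; field_simp; ring
    · simp [hl, x1 i l (Ne.symm hl)]
  · obtain ⟨n, h1, h3, h4⟩ := exists_third hij
    rcases h4 l with rfl | rfl | rfl
    · simp [Ne.symm hij, xs l j hij]
    · simp [hij, xs' i l hij]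
    · have e := hX i i j j
      rw [sum_eps h1.symm hij h3, d, hphi i j i (Ne.symm hij), eps_self12] at e
      have : X i j l = 0 := by
        apply (mul_eq_zero.1 (_ : eps k i l j * X i j l = 0)).resolve_left (eps_ne h1.symm hij h3)
        linear_combination -e
      simp [this, h1.symm, h3.symm]

/-- contraction of a first order deformation on an edge. -/
def NN (Z : Fin 3 → Fin 3 → Fin 3 → k) (m i : Fin 3) : k := ∑ l, ∑ j, eps k l m j * Z l i j

def CC (Z : Fin 3 → Fin 3 → Fin 3 → k) (i j l : Fin 3) : k := Z l i j + Z i j l + Z j l i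

lemma recon (Z : Fin 3 → Fin 3 → Fin 3 → k) (hs : ∀ m i j, Z m i j = Z m j i)
    (hC : ∀ i j l, CC Z i j l = 0) (m i j : Fin 3) :
    3 * Z m i j = TT (NN Z) (fun _ => 1) m i j := by
  have : TT (NN Z) (fun _ => 1) m i j = Z m i j + Z m j i - Z j i m - Z i j m := by
    fin_cases m <;> fin_cases i <;> fin_cases j <;>
      simp [TT, NN, eps, epsZ, Fin.sum_univ_three] <;> ring
  rw [this]
  have e := hC i j m
  unfold CC at e
  linear_combination e + hs m i j - hs j m i

lemma tri0 (φ Z1 Z2 Z3 : Fin 3 → Fin 3 → Fin 3 → k)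
    (h1 : ∀ i j l, φ i j l + φ j i l = Z1 l i j) (h2 : ∀ i j l, φ i j l + φ i l j = Z2 i j l)
    (h3 : ∀ i j l, φ i j l + φ l j i = Z3 j l i) :
    (∀ i j l, CC Z1 i j l = CC Z2 i j l) ∧ ∀ m i, NN Z1 m i + NN Z2 m i + NN Z3 m i = 0 := by
  constructor
  · intro i j l
    simp only [CC, ← h1, ← h2]; ring
  · intro m i
    simp only [NN, ← h1, ← h2, ← h3]
    fin_cases m <;> simp [eps, epsZ, Fin.sum_univ_three] <;> ring

section chi
variable {χ : AddChar Z7 k}

def Wedge (χ : AddChar Z7 k) (Y : Fin 3 → Fin 3 → Fin 3 → k) (x y : Z7) : Prop :=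
  ∃ μ : k, ∀ m i j, Y m i j =
    μ * eps k m i j * (χ (ew i * x) * χ (ew j * y) - χ (ew j * x) * χ (ew i * y))

lemma Wedge.same {Y : Fin 3 → Fin 3 → Fin 3 → k} {x : Z7} (h : Wedge χ Y x x) (m i j : Fin 3) :
    Y m i j = 0 := by
  obtain ⟨μ, hμ⟩ := h
  rw [hμ]; ring

lemma Wedge.orth {Y : Fin 3 → Fin 3 → Fin 3 → k} {x y : Z7} (h : Wedge χ Y x y) :
    ∑ m, Y m (m + 1) (m + 2) * χ (ew m * x) = 0 ∧
      ∑ m, Y m (m + 1) (m + 2) * χ (ew m * y) = 0 := by
  obtain ⟨μ, hμ⟩ := h
  simp only [hμ, eps_succ]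
  constructor <;> simp [Fin.sum_univ_three] <;> ring

lemma Wedge.three (hχ : GoodChar χ) {Y : Fin 3 → Fin 3 → Fin 3 → k} {a b a' b' : Z7}
    (h : Wedge χ Y a b) (h' : Wedge χ Y a' b') (hab : a ≠ b)
    (h3 : (a ≠ a' ∧ b ≠ a') ∨ (a ≠ b' ∧ b ≠ b')) (m i j : Fin 3) : Y m i j = 0 := by
  have hy : ∀ m, Y m (m + 1) (m + 2) = 0 := by
    rcases h3 with ⟨h4, h5⟩ | ⟨h4, h5⟩
    · exact hχ.three_pts hab h4 h5 _ h.orth.1 h.orth.2 h'.orth.1
    · exact hχ.three_pts hab h4 h5 _ h.orth.1 h.orth.2 h'.orth.2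
  obtain ⟨μ, hμ⟩ := h
  have := hy m
  rw [hμ, eps_succ] at this
  rw [hμ]
  fin_cases m <;> fin_cases i <;> fin_cases j <;> simp [eps, epsZ] at this ⊢ <;>
    first | exact this | (rcases this with h | h
                          · exact Or.inl h
                          · right; linear_combination -h)

lemma wedge_of_TT (hχ : GoodChar χ) {H : Fin 3 → Fin 3 → k} {x y : Z7}
    (h : ∀ m i j, TT H (fun i => χ (ew i * x)) m i j = 0) :
    Wedge χ (TT H fun i => χ (ew i * y)) x y := by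
  have := TT_eq_zero hχ.two (fun i => chi_ne _) (by simp) h
  refine ⟨H 0 0, fun m i j => ?_⟩
  unfold TT
  generalize H 0 0 = μ at this
  rw [Finset.sum_add_distrib, Finset.sum_eq_single i, Finset.sum_eq_single j, eps_swap m j i,
    this i i, this j j]
  · simp; ring
  · intro b _ hb; simp [this b, hb]
  · simp
  · intro b _ hb; simp [this b, hb]
  · simp

end chi

end Pool.Agent.MP_f49c72_ag
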