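import Pool.Agent.MP_f49c72_ag.Core
import Pool.Agent.MP_f49c72_ag.Defs

/-! The affine case. -/

namespace Pool.Agent.MP_f49c72_ag

open Module MvPolynomial

universe u

lemma two_components {X : Type*} [TopologicalSpace X] (T : X ≃ X) (hT : Continuous T)
    (hT' : Continuous T.symm) (M : X → Prop) (hM : ∀ x, M x → T x = x) {p : X} {U V : Set X}
    (hU : IsOpen U) (hV : IsOpen V) (hp : p ∈ U) (hp' : T p ∈ V) (hUV : ∀ x, x ∈ U → x ∈ V → False) :
    ∃ Z₁ ∈ irreducibleComponents X, ∃ Z₂ ∈ irreducibleComponents X, Z₁ ≠ Z₂ ∧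
      {x ∈ Z₁ | M x} = {x ∈ Z₂ | M x} := by
  let H : X ≃ₜ X := ⟨T, hT, hT'⟩
  refine ⟨_, irreducibleComponent_mem_irreducibleComponents p, H.symm ⁻¹' irreducibleComponent p,
    preimage_mem_irreducibleComponents (irreducibleComponent_mem_irreducibleComponents p)
      H.symm.isOpenEmbedding ⟨p, mem_irreducibleComponent, H.symm.surjective p⟩, fun h => ?_, ?_⟩
  · have h1 : T p ∈ irreducibleComponent p := by
      rw [h]
      change T.symm (T p) ∈ irreducibleComponent p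
      rw [T.symm_apply_apply]; exact mem_irreducibleComponent
    obtain ⟨x, -, h2, h3⟩ := (isIrreducible_irreducibleComponent (x := p)).2 U V hU hV
      ⟨p, mem_irreducibleComponent, hp⟩ ⟨T p, h1, hp'⟩
    exact hUV x h2 h3
  · ext x
    refine and_congr_left fun hx => ?_
    have : H.symm x = x := T.symm_apply_eq.2 (hM x hx).symm
    rw [Set.mem_preimage, this]

variable {k : Type u} [Field k] {σ : Type}

lemma map_symm_map (τ : k ≃+* k) (f : MvPolynomial σ k) :
    map (τ.symm : k →+* k) (map (τ : k →+* k) f) = f := by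
  rw [map_map]; simp [map_id]

lemma map_map_symm (τ : k ≃+* k) (f : MvPolynomial σ k) :
    map (τ : k →+* k) (map (τ.symm : k →+* k) f) = f := map_symm_map τ.symm f

lemma comap_comap_symm (τ : k ≃+* k) (I : Ideal (MvPolynomial σ k)) :
    (I.comap (map (τ : k →+* k))).comap (map (τ.symm : k →+* k)) = I := by
  ext f; simp [Ideal.mem_comap, map_map_symm]

lemma IsMonomialIdeal.comap {I : Ideal (MvPolynomial σ k)} (h : IsMonomialIdeal I) (τ : k ≃+* k) :
    I.comap (map (τ : k →+* k)) = I := by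
  obtain ⟨s, rfl⟩ := h
  ext f
  rw [Ideal.mem_comap, mem_ideal_span_monomial_image, mem_ideal_span_monomial_image,
    support_map_of_injective _ τ.injective]

lemma map_smul_sum (τ : k ≃+* k) {r : ℕ} (f : MvPolynomial σ k) (c : Fin r → k)
    (b : Fin r → MvPolynomial σ k) : map (τ : k →+* k) (f - ∑ i, c i • b i) =
      map (τ : k →+* k) f - ∑ i, τ (c i) • map (τ : k →+* k) (b i) := by
  simp [smul_eq_C_mul]

lemma chart_comap {W : Type u} (ι : W → MvPolynomial σ k) (τ : k ≃+* k) (s : W ≃ W)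
    (hs : ∀ w, ι (s w) = map (τ : k →+* k) (ι w)) {r : ℕ} (b : Fin r → W)
    (Φ : MvPolynomial (W × Fin r) k) (I : Ideal (MvPolynomial σ k)) :
    (∃ c : W × Fin r → k, (∀ f, ι f - ∑ i, c (f, i) • ι (b i) ∈ I.comap (map (τ : k →+* k))) ∧
      eval c Φ ≠ 0) ↔
    ∃ c : W × Fin r → k, (∀ f, ι f - ∑ i, c (f, i) • ι (s (b i)) ∈ I) ∧
      eval c (rename (fun p => (s p.1, p.2)) (map (τ : k →+* k) Φ)) ≠ 0 := by
  have key : ∀ c c' : W × Fin r → k, (∀ p, c' (s p.1, p.2) = τ (c p)) →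
      eval c' (rename (fun p => (s p.1, p.2)) (map (τ : k →+* k) Φ)) = τ (eval c Φ) := by
    intro c c' h
    rw [eval_rename, eval_map, show τ (eval c Φ) = (τ : k →+* k) (eval₂ (RingHom.id k) c Φ) from rfl,
      eval₂_comp_left]
    congr 1
    funext p; exact h p
  constructor
  · rintro ⟨c, h1, h2⟩
    refine ⟨fun p => τ (c (s.symm p.1, p.2)), fun f => ?_, ?_⟩
    · have := h1 (s.symm f)
      rw [Ideal.mem_comap, map_smul_sum, ← hs, s.apply_symm_apply] at this
      simpa only [hs] using this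
    · rw [key c _ (by simp)]; simpa using h2
  · rintro ⟨c, h1, h2⟩
    refine ⟨fun p => τ.symm (c (s p.1, p.2)), fun f => ?_, ?_⟩
    · rw [Ideal.mem_comap, map_smul_sum, ← hs]
      simpa only [hs, τ.apply_symm_apply] using h1 (s f)
    · rw [key (fun p => τ.symm (c (s p.1, p.2))) c (by simp)] at h2; simpa using h2

lemma exists_quot_equiv (τ : k ≃+* k) (I : Ideal (MvPolynomial σ k)) :
    ∃ F : (MvPolynomial σ k ⧸ I.comap (map (τ : k →+* k))) ≃+* (MvPolynomial σ k ⧸ I),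
      (∀ f, F (Ideal.Quotient.mk _ f) = Ideal.Quotient.mk _ (map (τ : k →+* k) f)) ∧
      ∀ (r : k) x, F (r • x) = τ r • F x := by
  let F : (MvPolynomial σ k ⧸ I.comap (map (τ : k →+* k))) ≃+* (MvPolynomial σ k ⧸ I) :=
    Ideal.quotientEquiv _ _ (mapEquiv σ τ)
      (Ideal.map_comap_of_surjective _ (mapEquiv σ τ).surjective I).symm
  have hF : ∀ f, F (Ideal.Quotient.mk _ f) = Ideal.Quotient.mk _ (map (τ : k →+* k) f) :=
    fun _ => rfl
  refine ⟨F, hF, fun r x => ?_⟩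
  obtain ⟨f, rfl⟩ := Ideal.Quotient.mk_surjective x
  rw [← Ideal.Quotient.mkₐ_eq_mk k, ← map_smul, Ideal.Quotient.mkₐ_eq_mk, hF, hF,
    ← Ideal.Quotient.mkₐ_eq_mk k, ← map_smul, smul_eq_C_mul, smul_eq_C_mul, map_mul, map_C]
  rfl

variable {n d : ℕ}

lemma HilbA.ext' {I J : HilbA k n d} (h : I.ideal = J.ideal) : I = J := by
  cases I; cases J; simpa using h

noncomputable def HilbA.act (τ : k ≃+* k) (I : HilbA k n d) : HilbA k n d :=
  ⟨I.ideal.comap (map (τ : k →+* k)), by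
    obtain ⟨F, -, hF⟩ := exists_quot_equiv τ I.ideal
    rw [← I.colength]
    exact rank_eq_of_equiv_equiv τ F.toAddEquiv τ.bijective hF⟩

lemma HilbA.continuous_act (τ : k ≃+* k) : Continuous (HilbA.act (n := n) (d := d) τ) := by
  refine continuous_generateFrom_iff.2 ?_
  rintro _ ⟨b, Φ, rfl⟩
  refine TopologicalSpace.isOpen_generateFrom_of_mem ⟨fun i => map (τ : k →+* k) (b i),
    rename (fun p => (map (τ : k →+* k) p.1, p.2)) (map (τ : k →+* k) Φ), ?_⟩
  ext I
  exact chart_comap id τ (mapEquiv (Fin n) τ).toEquiv (fun _ => rfl) b Φ I.ideal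

lemma HilbA.coord (I : HilbA k n (n + 1)) {c : MvPolynomial (Fin n) k × Fin (n + 1) → k}
    (hc : ∀ f, f - ∑ i, c (f, i) • (Fin.cons 1 X : Fin (n + 1) → MvPolynomial (Fin n) k) i ∈
      I.ideal) : ∃ e : Basis (Fin (n + 1)) k (MvPolynomial (Fin n) k ⧸ I.ideal),
      (∀ i, e i = Ideal.Quotient.mk _ ((Fin.cons 1 X : Fin (n + 1) → MvPolynomial (Fin n) k) i)) := by
  refine ⟨basisOfTopLeSpanOfCardEqFinrank _ (fun y _ => ?_) ?_,
    fun i => congrFun (coe_basisOfTopLeSpanOfCardEqFinrank _ _ _) i⟩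
  · obtain ⟨f, rfl⟩ := Ideal.Quotient.mkₐ_surjective k _ y
    have := Ideal.Quotient.eq.2 (hc f)
    rw [← Ideal.Quotient.mkₐ_eq_mk k] at this
    rw [this, map_sum]
    exact Submodule.sum_mem _ fun i _ => by
      rw [map_smul]; exact Submodule.smul_mem _ _ (Submodule.subset_span ⟨i, rfl⟩)
  · rw [finrank, I.colength]; simp

lemma HilbA.coord_eq (I : HilbA k n d) {b : Fin d → MvPolynomial (Fin n) k}
    (e : Basis (Fin d) k (MvPolynomial (Fin n) k ⧸ I.ideal))
    (he : ∀ i, e i = Ideal.Quotient.mk _ (b i)) {c : MvPolynomial (Fin n) k × Fin d → k}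
    (hc : ∀ f, f - ∑ i, c (f, i) • b i ∈ I.ideal) (f : MvPolynomial (Fin n) k) (l : Fin d) :
    c (f, l) = e.repr (Ideal.Quotient.mk _ f) l := by
  have := Ideal.Quotient.eq.2 (hc f)
  rw [this, ← Ideal.Quotient.mkₐ_eq_mk k, map_sum]
  simp only [map_smul, Ideal.Quotient.mkₐ_eq_mk, ← he]
  simp [Finsupp.single_apply]

theorem mainA (k : Type u) [Field k] [IsAlgClosed k] (h3 : ringChar k ≠ 3)
    (hk : ringChar k = 0 ∨ ringChar k % 7 = 3 ∨ ringChar k % 7 = 5 ∨ ringChar k % 7 = 6) :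
    ∃ n d : ℕ, ∃ Z₁ ∈ irreducibleComponents (HilbA k n d),
      ∃ Z₂ ∈ irreducibleComponents (HilbA k n d), Z₁ ≠ Z₂ ∧
        {I ∈ Z₁ | IsMonomialIdeal I.ideal} = {I ∈ Z₂ | IsMonomialIdeal I.ideal} := by
  obtain ⟨σ, n, γ, h, s₁, s₂, h₁, h₂, h₃⟩ := core k h3 hk
  let b : Fin (n + 1) → MvPolynomial (Fin n) k := Fin.cons 1 X
  let ι : Fin (n + 1) × Fin (n + 1) × Fin (n + 1) → MvPolynomial (Fin n) k × Fin (n + 1) :=
    fun p => (b p.1 * b p.2.1, p.2.2)
  let ψ : MvPolynomial (Fin n) k →ₐ[k] Alg h := aeval fun i => Alg.basis h i.succ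
  have hψ : ∀ i, ψ (b i) = Alg.basis h i := by
    intro i
    refine Fin.cases ?_ (fun i => ?_) i
    · simp [b, Alg.basis_zero]
    · simp [b, ψ]
  have hsurj : Function.Surjective ψ := fun y =>
    ⟨∑ i, (Alg.basis h).repr y i • b i, by simp [hψ]⟩
  let p : HilbA k n (n + 1) := ⟨RingHom.ker ψ, by
    rw [(Ideal.quotientKerAlgEquivOfSurjective hsurj).toLinearEquiv.rank_eq,
      rank_eq_card_basis (Alg.basis h)]
    simp⟩
  have hp : ∀ f, f - ∑ i, (Alg.basis h).repr (ψ f) i • b i ∈ p.ideal := fun f => by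
    change ψ _ = 0
    simp [hψ]
  have hγ : ∀ i j l, (Alg.basis h).repr (ψ (b i * b j)) l = γ i j l := fun i j l => by
    simp [hψ, Alg.basis_mul, Finsupp.single_apply]
  let T : HilbA k n (n + 1) ≃ HilbA k n (n + 1) :=
    ⟨HilbA.act σ.symm, HilbA.act σ, fun I => HilbA.ext' (comap_comap_symm σ.symm I.ideal),
      fun I => HilbA.ext' (comap_comap_symm σ I.ideal)⟩
  refine ⟨n, n + 1, two_components T (HilbA.continuous_act _) (HilbA.continuous_act _) _
    (fun I hI => HilbA.ext' (hI.comap σ.symm)) (p := p)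
    (TopologicalSpace.isOpen_generateFrom_of_mem ⟨b, rename ι s₁, rfl⟩)
    (TopologicalSpace.isOpen_generateFrom_of_mem ⟨b, rename ι s₂, rfl⟩) ?_ ?_ ?_⟩
  · refine ⟨fun q => (Alg.basis h).repr (ψ q.1) q.2, hp, ?_⟩
    rw [eval_rename]
    convert h₁ using 3
    funext q; exact hγ _ _ _
  · have hb : ∀ i, map (σ.symm : k →+* k) (b i) = b i := by
      intro i; refine Fin.cases ?_ (fun i => ?_) i <;> simp [b]
    refine ⟨fun q => σ ((Alg.basis h).repr (ψ (map (σ.symm : k →+* k) q.1)) q.2), fun f => ?_, ?_⟩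
    · change map (σ.symm : k →+* k) _ ∈ p.ideal
      rw [map_smul_sum]
      simpa only [hb, σ.symm_apply_apply] using hp (map (σ.symm : k →+* k) f)
    · rw [eval_rename]
      convert h₂ using 3
      funext q
      simp only [Function.comp_apply, ι, map_mul (map _), hb, hγ]
  · rintro I ⟨c, hc, hc1⟩ ⟨c', hc', hc2⟩
    obtain ⟨e, he⟩ := I.coord hc
    have hv := valid_of_basis e (by rw [he]; simp)
    have := h₃ _ hv
    rw [eval_rename] at hc1 hc2
    refine mul_ne_zero hc1 hc2 ?_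
    convert this using 4
    · funext q; simp only [Function.comp_apply, ι, I.coord_eq e he hc, he, map_mul, b]
    · funext q; simp only [Function.comp_apply, ι, I.coord_eq e he hc', he, map_mul, b]

end Pool.Agent.MP_f49c72_ag
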