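import Pool.Agent.MP_f49c72_ag.MainA

/-! The projective case. -/

namespace Pool.Agent.MP_f49c72_ag

open Module MvPolynomial

universe u

variable {k : Type u} [Field k] {σ : Type}

lemma hc_map (τ : k ≃+* k) (t : ℕ) (f : MvPolynomial σ k) :
    map (τ : k →+* k) (homogeneousComponent t f) = homogeneousComponent t (map (τ : k →+* k) f) := by
  ext d
  simp only [coeff_map, coeff_homogeneousComponent]
  split_ifs <;> simp

/-- the action on forms of degree `m`. -/
noncomputable def formEquiv (τ : k ≃+* k) (m : ℕ) :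
    homogeneousSubmodule σ k m ≃ homogeneousSubmodule σ k m where
  toFun f := ⟨map (τ : k →+* k) f, f.2.map _⟩
  invFun f := ⟨map (τ.symm : k →+* k) f, f.2.map _⟩
  left_inv f := Subtype.ext (map_symm_map τ f.1)
  right_inv f := Subtype.ext (map_map_symm τ f.1)

lemma finrank_comap (τ : k ≃+* k) (I : Ideal (MvPolynomial σ k)) (t : ℕ) :
    finrank k ((homogeneousSubmodule σ k t).map
      (Ideal.Quotient.mkₐ k (I.comap (map (τ : k →+* k)))).toLinearMap) =
    finrank k ((homogeneousSubmodule σ k t).map (Ideal.Quotient.mkₐ k I).toLinearMap) := by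
  obtain ⟨F, hF1, hF⟩ := exists_quot_equiv τ I
  have hm : ∀ x, x ∈ (homogeneousSubmodule σ k t).map
      (Ideal.Quotient.mkₐ k (I.comap (map (τ : k →+* k)))).toLinearMap ↔
      F x ∈ (homogeneousSubmodule σ k t).map (Ideal.Quotient.mkₐ k I).toLinearMap := by
    intro x
    constructor
    · rintro ⟨f, hf, rfl⟩
      exact ⟨map (τ : k →+* k) f, hf.map _, (hF1 f).symm⟩
    · rintro ⟨f, hf, h⟩
      refine ⟨map (τ.symm : k →+* k) f, hf.map _, F.injective ?_⟩
      rw [← h]
      exact (hF1 _).trans (by rw [map_map_symm]; rfl)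
  let j : ((homogeneousSubmodule σ k t).map
      (Ideal.Quotient.mkₐ k (I.comap (map (τ : k →+* k)))).toLinearMap) ≃+
      ((homogeneousSubmodule σ k t).map (Ideal.Quotient.mkₐ k I).toLinearMap) :=
    { F.toEquiv.subtypeEquiv hm with map_add' := fun x y => Subtype.ext (F.map_add x.1 y.1) }
  unfold finrank
  rw [rank_eq_of_equiv_equiv τ j τ.bijective fun r x => Subtype.ext (hF r x.1)]

variable {n : ℕ} {P : Polynomial ℚ}

lemma HilbP.ext' {I J : HilbP k n P} (h : I.ideal = J.ideal) : I = J := by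
  cases I; cases J; simpa using h

noncomputable def HilbP.act (τ : k ≃+* k) (I : HilbP k n P) : HilbP k n P where
  ideal := I.ideal.comap (map (τ : k →+* k))
  homogeneous f hf t := by
    rw [Ideal.mem_comap, hc_map]; exact I.homogeneous _ hf t
  saturated f hf := I.saturated _ fun i => by simpa [Ideal.mem_comap] using hf i
  hilbert := by simpa only [finrank_comap] using I.hilbert

lemma HilbP.continuous_act (τ : k ≃+* k) (m : ℕ) :
    @Continuous _ _ (zariskiP k n P m) (zariskiP k n P m) (HilbP.act τ) := by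
  let _ := zariskiP k n P m
  refine continuous_generateFrom_iff.2 ?_
  rintro _ ⟨r, hr, b, Φ, rfl⟩
  refine TopologicalSpace.isOpen_generateFrom_of_mem ⟨r, hr, fun i => formEquiv τ m (b i),
    rename (fun p => (formEquiv τ m p.1, p.2)) (map (τ : k →+* k) Φ), ?_⟩
  ext I
  exact chart_comap Subtype.val τ (formEquiv τ m) (fun _ => rfl) b Φ I.ideal

/-- the forms `x_0^{m+1} x_i`. -/
noncomputable def bb (k : Type u) [Field k] (n m : ℕ) (i : Fin (n + 1)) :
    homogeneousSubmodule (Fin (n + 1)) k (m + 2) :=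
  ⟨X 0 ^ (m + 1) * X i, (isHomogeneous_X_pow 0 (m + 1)).mul (isHomogeneous_X k i)⟩

/-- the forms `x_0^m x_i x_j`. -/
noncomputable def qq (k : Type u) [Field k] (n m : ℕ) (i j : Fin (n + 1)) :
    homogeneousSubmodule (Fin (n + 1)) k (m + 2) :=
  ⟨X 0 ^ m * X i * X j,
    ((isHomogeneous_X_pow 0 m).mul (isHomogeneous_X k i)).mul (isHomogeneous_X k j)⟩

lemma HilbP.indep (I : HilbP k n (Polynomial.C ((n + 1 : ℕ) : ℚ))) {m : ℕ}
    {c : homogeneousSubmodule (Fin (n + 1)) k (m + 2) × Fin (n + 1) → k}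
    (hc : ∀ f : homogeneousSubmodule (Fin (n + 1)) k (m + 2), (f : MvPolynomial (Fin (n + 1)) k) -
      ∑ i, c (f, i) • (bb k n m i : MvPolynomial (Fin (n + 1)) k) ∈ I.ideal) (a : ℕ)
    (g : Fin (n + 1) → k) (hg : ∑ i, g i • (X 0 ^ a * X i : MvPolynomial (Fin (n + 1)) k) ∈ I.ideal) :
    ∀ i, g i = 0 := by
  let π := Ideal.Quotient.mkₐ k I.ideal
  let v : ℕ → Fin (n + 1) → MvPolynomial (Fin (n + 1)) k ⧸ I.ideal := fun t i => π (X 0 ^ t * X i)
  have h0 : ∀ f ∈ homogeneousSubmodule (Fin (n + 1)) k (m + 2),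
      π f ∈ Submodule.span k (Set.range (v (m + 1))) := by
    intro f hf
    have : π f = π _ := Ideal.Quotient.eq.2 (hc ⟨f, hf⟩)
    rw [this, map_sum]
    exact Submodule.sum_mem _ fun i _ => by
      rw [map_smul]; exact Submodule.smul_mem _ _ (Submodule.subset_span ⟨i, rfl⟩)
  have hx : ∀ s t, ∀ y ∈ Submodule.span k (Set.range (v t)),
      π (X 0 ^ s) * y ∈ Submodule.span k (Set.range (v (s + t))) := by
    intro s t y hy
    induction hy using Submodule.span_induction with
    | mem x hx =>
      obtain ⟨i, rfl⟩ := hx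
      exact Submodule.subset_span ⟨i, by simp only [v, ← map_mul, pow_add, mul_assoc]⟩
    | zero => simp
    | add x y _ _ hx hy => rw [mul_add]; exact add_mem hx hy
    | smul a x _ hx => rw [mul_smul_comm]; exact Submodule.smul_mem _ _ hx
  have h1 : ∀ t, ∀ f ∈ homogeneousSubmodule (Fin (n + 1)) k (m + 2 + t),
      π f ∈ Submodule.span k (Set.range (v (m + 1 + t))) := by
    intro t
    induction t with
    | zero => exact h0
    | succ t ih =>
      intro f hf
      rw [← add_assoc, ← homogeneousSubmodule_one_pow, pow_succ, homogeneousSubmodule_one_pow,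
        homogeneousSubmodule_one_eq_span_X] at hf
      refine Submodule.mul_induction_on hf (fun x hx' y hy => ?_) (fun x y hx hy => ?_)
      · rw [map_mul]
        have hx2 := ih x hx'
        generalize π x = w at hx2
        induction hy using Submodule.span_induction with
        | mem y hy =>
          obtain ⟨j, rfl⟩ := hy
          induction hx2 using Submodule.span_induction with
          | mem x hx3 =>
            obtain ⟨i, rfl⟩ := hx3
            have := hx (t + 1) _ _ (h0 _ (qq k n m i j).2)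
            rw [show t + 1 + (m + 1) = m + 1 + (t + 1) by ring] at this
            convert this using 1
            simp only [v, qq, ← map_mul]; congr 1; ring
          | zero => simp
          | add x y _ _ hx hy => rw [add_mul]; exact add_mem hx hy
          | smul a x _ hx => rw [smul_mul_assoc]; exact Submodule.smul_mem _ _ hx
        | zero => simp
        | add x y _ _ hx hy => rw [map_add, mul_add]; exact add_mem hx hy
        | smul a x _ hx => rw [map_smul, mul_smul_comm]; exact Submodule.smul_mem _ _ hx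
      · rw [map_add]; exact add_mem hx hy
  obtain ⟨t₀, ht₀⟩ := I.hilbert
  have h2 := ht₀ (m + 2 + (t₀ + a)) (by omega)
  rw [Polynomial.eval_C, Nat.cast_inj] at h2
  have h3 : (homogeneousSubmodule (Fin (n + 1)) k (m + 2 + (t₀ + a))).map π.toLinearMap =
      Submodule.span k (Set.range (v (m + 1 + (t₀ + a)))) := by
    apply le_antisymm
    · rintro _ ⟨f, hf, rfl⟩; exact h1 _ f hf
    · rw [Submodule.span_le]
      rintro _ ⟨i, rfl⟩
      refine ⟨_, ?_, rfl⟩
      have := (isHomogeneous_X_pow (R := k) (0 : Fin (n + 1)) (m + 1 + (t₀ + a))).mul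
        (isHomogeneous_X k i)
      rwa [show m + 1 + (t₀ + a) + 1 = m + 2 + (t₀ + a) by ring] at this
  have h4 : LinearIndependent k (v (m + 1 + (t₀ + a))) := by
    rw [linearIndependent_iff_card_eq_finrank_span, Set.finrank, ← h3, h2, Fintype.card_fin]
  refine Fintype.linearIndependent_iff.1 h4 g ?_
  have h5 : π _ = 0 := Ideal.Quotient.eq_zero_iff_mem.2 (I.ideal.mul_mem_left (X 0 ^ (m + 1 + t₀)) hg)
  rw [← h5, Finset.mul_sum, map_sum]
  refine Finset.sum_congr rfl fun i _ => ?_
  simp only [v, mul_smul_comm, map_smul]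
  congr 2; ring

lemma assoc_aux {S : Type*} [CommRing S] [Algebra k S] (J : Ideal S) {ι : Type} [Fintype ι]
    (x : ι → S) (y w : S) (γ : ι → ι → ι → k)
    (h : ∀ i j, w * x i * x j - ∑ a, γ i j a • (w * y * x a) ∈ J) (i j l : ι) :
    w * x i * x j * x l - ∑ b, (∑ a, γ i j a * γ a l b) • (w * y * y * x b) ∈ J := by
  have := add_mem (J.mul_mem_right (x l) (h i j))
    (J.sum_mem (t := Finset.univ) fun a _ => J.mul_mem_left (γ i j a • y) (h a l))
  have e1 : (∑ a, γ i j a • (w * y * x a)) * x l = ∑ a, γ i j a • y * (w * x a * x l) := by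
    rw [Finset.sum_mul]
    exact Finset.sum_congr rfl fun a _ => by simp only [Algebra.smul_def]; ring
  have e2 : ∑ b, (∑ a, γ i j a * γ a l b) • (w * y * y * x b) =
      ∑ a, γ i j a • y * ∑ b, γ a l b • (w * y * x b) := by
    simp only [Finset.sum_smul, Finset.mul_sum]
    rw [Finset.sum_comm]
    exact Finset.sum_congr rfl fun a _ => Finset.sum_congr rfl fun b _ => by
      simp only [Algebra.smul_def, map_mul]; ring
  simp only [mul_sub, Finset.sum_sub_distrib, sub_mul] at this
  rwa [e1, ← e2, sub_add_sub_cancel] at this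

lemma HilbP.valid (I : HilbP k n (Polynomial.C ((n + 1 : ℕ) : ℚ))) {m : ℕ}
    {c : homogeneousSubmodule (Fin (n + 1)) k (m + 2) × Fin (n + 1) → k}
    (hc : ∀ f : homogeneousSubmodule (Fin (n + 1)) k (m + 2), (f : MvPolynomial (Fin (n + 1)) k) -
      ∑ i, c (f, i) • (bb k n m i : MvPolynomial (Fin (n + 1)) k) ∈ I.ideal) :
    Valid fun i j l => c (qq k n m i j, l) := by
  refine ⟨fun i j l => ?_, fun j l => ?_, fun i j l a => ?_⟩
  · have : qq k n m i j = qq k n m j i := Subtype.ext (mul_right_comm _ _ _)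
    rw [this]
  · have := I.indep hc (m + 1) (fun l => (if j = l then 1 else 0) - c (qq k n m 0 j, l)) (by
      convert hc (qq k n m 0 j) using 1
      simp [sub_smul, Finset.sum_sub_distrib, qq, bb, pow_succ]) l
    exact (sub_eq_zero.1 this).symm
  · have key : ∀ i j l, (X 0 ^ m * X i * X j * X l : MvPolynomial (Fin (n + 1)) k) -
        ∑ b, (∑ a, c (qq k n m i j, a) * c (qq k n m a l, b)) • (X 0 ^ (m + 2) * X b) ∈
          I.ideal := by
      simp only [pow_succ]
      exact assoc_aux I.ideal X (X 0) (X 0 ^ m) (fun i j a => c (qq k n m i j, a))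
        fun i j => by simpa only [qq, bb, pow_succ] using hc (qq k n m i j)
    have := I.indep hc (m + 2) (fun b => (∑ a, c (qq k n m i j, a) * c (qq k n m a l, b)) -
      ∑ a, c (qq k n m j l, a) * c (qq k n m a i, b)) (by
      convert sub_mem (key j l i) (key i j l) using 1
      simp only [sub_smul, Finset.sum_sub_distrib]; ring) a
    rw [sub_eq_zero.1 this]
    refine Finset.sum_congr rfl fun b _ => ?_
    have : qq k n m b i = qq k n m i b := Subtype.ext (mul_right_comm _ _ _)
    rw [this]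

lemma coeff_aeval_T {A : Type*} [CommRing A] [Algebra k A] (e : σ → A) (f : MvPolynomial σ k)
    (t : ℕ) : (aeval (fun i => Polynomial.C (e i) * Polynomial.X) f : Polynomial A).coeff t =
      aeval e (homogeneousComponent t f) := by
  induction f using MvPolynomial.induction_on' with
  | monomial s a =>
    rw [homogeneousComponent_of_mem (isHomogeneous_monomial a rfl), aeval_monomial]
    have : (s.prod fun i n => (Polynomial.C (e i) * Polynomial.X) ^ n) =
        Polynomial.C (s.prod fun i n => e i ^ n) * Polynomial.X ^ s.degree := by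
      simp only [Finsupp.prod, mul_pow, Finset.prod_mul_distrib, map_prod, map_pow,
        Finset.prod_pow_eq_pow_sum, Finsupp.degree_apply]
    rw [this, Polynomial.algebraMap_apply, ← mul_assoc, ← map_mul, Polynomial.coeff_C_mul_X_pow]
    split_ifs
    · rw [aeval_monomial]
    · simp
  | add p q hp hq => simp only [map_add, Polynomial.coeff_add, hp, hq]

lemma finrank_map_eq {M N N' : Type*} [AddCommGroup M] [Module k M] [AddCommGroup N] [Module k N]
    [AddCommGroup N'] [Module k N'] (W : Submodule k M) (f : M →ₗ[k] N) (g : M →ₗ[k] N')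
    (h : ∀ x ∈ W, f x = 0 ↔ g x = 0) : finrank k (W.map f) = finrank k (W.map g) := by
  rw [← LinearMap.range_domRestrict, ← LinearMap.range_domRestrict,
    ← (f.domRestrict W).quotKerEquivRange.finrank_eq, ← (g.domRestrict W).quotKerEquivRange.finrank_eq]
  have : LinearMap.ker (f.domRestrict W) = LinearMap.ker (g.domRestrict W) := by
    ext x; exact h x.1 x.2
  rw [this]

theorem mainP (k : Type u) [Field k] [IsAlgClosed k] (h3 : ringChar k ≠ 3)
    (hk : ringChar k = 0 ∨ ringChar k % 7 = 3 ∨ ringChar k % 7 = 5 ∨ ringChar k % 7 = 6) :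
    ∃ (n : ℕ) (P : Polynomial ℚ), ∀ m ≥ 2,
      ∃ Z₁ ∈ @irreducibleComponents _ (zariskiP k n P m),
      ∃ Z₂ ∈ @irreducibleComponents _ (zariskiP k n P m), Z₁ ≠ Z₂ ∧
        {I ∈ Z₁ | IsMonomialIdeal I.ideal} = {I ∈ Z₂ | IsMonomialIdeal I.ideal} := by
  obtain ⟨σ, n, γ, h, s₁, s₂, h₁, h₂, h₃⟩ := core k h3 hk
  refine ⟨n, Polynomial.C ((n + 1 : ℕ) : ℚ), fun m hm => ?_⟩
  obtain ⟨m, rfl⟩ : ∃ m', m = m' + 2 := ⟨m - 2, by omega⟩
  let _ := zariskiP k n (Polynomial.C ((n + 1 : ℕ) : ℚ)) (m + 2)
  let ι : Fin (n + 1) × Fin (n + 1) × Fin (n + 1) →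
      homogeneousSubmodule (Fin (n + 1)) k (m + 2) × Fin (n + 1) :=
    fun p => (qq k n m p.1 p.2.1, p.2.2)
  let ψ : MvPolynomial (Fin (n + 1)) k →ₐ[k] Alg h := aeval (Alg.basis h)
  let φ : MvPolynomial (Fin (n + 1)) k →ₐ[k] Polynomial (Alg h) :=
    aeval fun i => Polynomial.C (Alg.basis h i) * Polynomial.X
  have hφ : ∀ f, φ f = 0 ↔ ∀ t, ψ (homogeneousComponent t f) = 0 := by
    intro f
    rw [Polynomial.ext_iff]
    exact forall_congr' fun t => by rw [coeff_aeval_T]; rfl
  have hφ' : ∀ t, ∀ f ∈ homogeneousSubmodule (Fin (n + 1)) k t, φ f = 0 ↔ ψ f = 0 := by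
    intro t f hf
    rw [hφ]
    constructor
    · intro H; simpa [homogeneousComponent_of_mem hf] using H t
    · intro H s; rw [homogeneousComponent_of_mem hf]; split_ifs <;> simp [H]
  have hψ : ∀ a i, ψ (X 0 ^ a * X i) = Alg.basis h i := by
    intro a i; simp [ψ, Alg.basis_zero]
  let p : HilbP k n (Polynomial.C ((n + 1 : ℕ) : ℚ)) :=
    { ideal := RingHom.ker φ
      homogeneous := fun f hf t =>
        (hφ' t _ (homogeneousComponent_mem t f)).2 ((hφ f).1 hf t)
      saturated := fun f hf => by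
        have := hf 0
        rw [RingHom.mem_ker] at this ⊢
        simpa [φ, Alg.basis_zero] using this
      hilbert := ⟨1, fun t ht => by
        obtain ⟨t, rfl⟩ : ∃ t', t = t' + 1 := ⟨t - 1, by omega⟩
        rw [Polynomial.eval_C, finrank_map_eq _ _ ψ.toLinearMap fun f hf =>
          Ideal.Quotient.eq_zero_iff_mem.trans (hφ' _ f hf)]
        have : (homogeneousSubmodule (Fin (n + 1)) k (t + 1)).map ψ.toLinearMap = ⊤ := by
          rw [eq_top_iff, ← (Alg.basis h).span_eq, Submodule.span_le]
          rintro _ ⟨i, rfl⟩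
          exact ⟨_, (isHomogeneous_X_pow 0 t).mul (isHomogeneous_X k i), hψ t i⟩
        rw [this, finrank_top, finrank_eq_card_basis (Alg.basis h), Fintype.card_fin]⟩ }
  have hp : ∀ f : homogeneousSubmodule (Fin (n + 1)) k (m + 2), (f : MvPolynomial (Fin (n + 1)) k) -
      ∑ i, (Alg.basis h).repr (ψ f) i • (bb k n m i : MvPolynomial (Fin (n + 1)) k) ∈ p.ideal := by
    intro f
    refine (hφ' (m + 2) _ (sub_mem f.2 (Submodule.sum_mem _ fun i _ =>
      Submodule.smul_mem _ _ (bb k n m i).2))).2 ?_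
    simp only [bb, map_sub, map_sum, map_smul, hψ, Basis.sum_repr, sub_self]
  have hγ : ∀ i j l, (Alg.basis h).repr (ψ (qq k n m i j)) l = γ i j l := fun i j l => by
    simp [ψ, qq, Alg.basis_zero, Alg.basis_mul, Finsupp.single_apply]
  let T : HilbP k n (Polynomial.C ((n + 1 : ℕ) : ℚ)) ≃ HilbP k n (Polynomial.C ((n + 1 : ℕ) : ℚ)) :=
    ⟨HilbP.act σ.symm, HilbP.act σ, fun I => HilbP.ext' (comap_comap_symm σ.symm I.ideal),
      fun I => HilbP.ext' (comap_comap_symm σ I.ideal)⟩
  refine two_components T (HilbP.continuous_act _ _) (HilbP.continuous_act _ _) _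
    (fun I hI => HilbP.ext' (hI.comap σ.symm)) (p := p)
    (TopologicalSpace.isOpen_generateFrom_of_mem
      ⟨n + 1, Polynomial.eval_C.symm, bb k n m, rename ι s₁, rfl⟩)
    (TopologicalSpace.isOpen_generateFrom_of_mem
      ⟨n + 1, Polynomial.eval_C.symm, bb k n m, rename ι s₂, rfl⟩) ?_ ?_ ?_
  · refine ⟨fun q => (Alg.basis h).repr (ψ q.1) q.2, hp, ?_⟩
    rw [eval_rename]
    convert h₁ using 3
    funext q; exact hγ _ _ _
  · have hb : ∀ i, map (σ.symm : k →+* k) (bb k n m i : MvPolynomial (Fin (n + 1)) k) =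
        bb k n m i := by
      intro i; simp [bb]
    have hq : ∀ i j, map (σ.symm : k →+* k) (qq k n m i j : MvPolynomial (Fin (n + 1)) k) =
        qq k n m i j := by
      intro i j; simp [qq]
    refine ⟨fun q => σ ((Alg.basis h).repr (ψ (map (σ.symm : k →+* k) q.1)) q.2), fun f => ?_, ?_⟩
    · change map (σ.symm : k →+* k) _ ∈ p.ideal
      rw [map_smul_sum]
      simp only [hb, σ.symm_apply_apply]
      exact hp (formEquiv σ.symm _ f)
    · rw [eval_rename]
      convert h₂ using 3
      funext q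
      simp only [Function.comp_apply, ι, hq, hγ]
  · rintro I ⟨c, hc, hc1⟩ ⟨c', hc', hc2⟩
    have e : c' = c := by
      funext ⟨f, l⟩
      have := I.indep hc (m + 1) (fun l => c' (f, l) - c (f, l)) (by
        convert sub_mem (hc f) (hc' f) using 1
        simp [sub_smul, Finset.sum_sub_distrib, bb]) l
      exact sub_eq_zero.1 this
    subst e
    rw [eval_rename] at hc1 hc2
    have := h₃ _ (I.valid hc)
    refine mul_ne_zero hc1 hc2 ?_
    convert this using 4 <;> rfl

end Pool.Agent.MP_f49c72_ag
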