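import Pool.Agent.MP_f49c72_ag.Lift

/-! Algebras given by structure constants. -/

namespace Pool.Agent.MP_f49c72_ag

open Module

universe u v

/-- structure constants of a commutative associative algebra with unit the `0`-th basis vector. -/
structure Valid {B : Type u} [CommRing B] {n : ℕ}
    (γ : Fin (n + 1) → Fin (n + 1) → Fin (n + 1) → B) : Prop where
  comm : ∀ i j l, γ i j l = γ j i l
  unit : ∀ j l, γ 0 j l = if j = l then 1 else 0
  assoc : ∀ i j l m, ∑ a, γ i j a * γ a l m = ∑ a, γ j l a * γ i a m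

variable {B : Type u} [CommRing B] {n : ℕ} {γ : Fin (n + 1) → Fin (n + 1) → Fin (n + 1) → B}

lemma Valid.map {B' : Type u} [CommRing B'] (h : Valid γ) (f : B →+* B') :
    Valid fun i j l => f (γ i j l) where
  comm i j l := by rw [h.comm]
  unit j l := by rw [h.unit]; split_ifs <;> simp
  assoc i j l m := by simpa using congrArg f (h.assoc i j l m)

/-- the algebra with the given structure constants. -/
def Alg (_ : Valid γ) : Type u := Fin (n + 1) → B

namespace Alg

variable (h : Valid γ)

instance : AddCommGroup (Alg h) := inferInstanceAs (AddCommGroup (Fin (n + 1) → B))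
instance : Module B (Alg h) := inferInstanceAs (Module B (Fin (n + 1) → B))
instance : Mul (Alg h) := ⟨fun a b l => ∑ i, ∑ j, a i * b j * γ i j l⟩
instance : One (Alg h) := ⟨(Pi.single 0 1 : Fin (n + 1) → B)⟩

variable {h}

lemma mul_apply (a b : Alg h) (l : Fin (n + 1)) : (a * b) l = ∑ i, ∑ j, a i * b j * γ i j l := rfl
lemma one_apply (l : Fin (n + 1)) : (1 : Alg h) l = (Pi.single 0 1 : Fin (n + 1) → B) l := rfl
lemma add_apply (a b : Alg h) (l : Fin (n + 1)) : (a + b) l = a l + b l := rfl
lemma zero_apply (l : Fin (n + 1)) : (0 : Alg h) l = 0 := rfl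
lemma smul_apply (r : B) (a : Alg h) (l : Fin (n + 1)) : (r • a) l = r * a l := rfl

protected lemma ext {a b : Alg h} (e : ∀ l, a l = b l) : a = b := funext e

protected lemma mul_comm (a b : Alg h) : a * b = b * a := Alg.ext fun l => by
  rw [mul_apply, mul_apply, Finset.sum_comm]
  refine Finset.sum_congr rfl fun i _ => Finset.sum_congr rfl fun j _ => ?_
  rw [h.comm]; ring

protected lemma one_mul (a : Alg h) : 1 * a = a := Alg.ext fun l => by
  rw [mul_apply, Finset.sum_eq_single 0]
  · simp [one_apply, h.unit]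
  · intro b _ hb; simp [one_apply, Pi.single_eq_of_ne hb]
  · simp

protected lemma mul_add (a b c : Alg h) : a * (b + c) = a * b + a * c := Alg.ext fun l => by
  simp only [mul_apply, add_apply, mul_add, add_mul, Finset.sum_add_distrib]

protected lemma mul_assoc (a b c : Alg h) : a * b * c = a * (b * c) := Alg.ext fun m => by
  have e1 : (a * b * c) m = ∑ i, ∑ j, ∑ l, a i * b j * c l * ∑ s, γ i j s * γ s l m := by
    simp only [mul_apply, Finset.sum_mul, Finset.mul_sum]
    rw [Finset.sum_comm]
    simp only [Finset.sum_comm (β := B) (γ := Fin (n + 1)) (s := Finset.univ) (t := Finset.univ)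
      (f := fun s i => ∑ j, a i * b j * γ i j s * _ * γ s _ m)]
    rw [Finset.sum_comm]
    refine Finset.sum_congr rfl fun i _ => ?_
    simp only [Finset.sum_comm (β := B) (γ := Fin (n + 1)) (s := Finset.univ) (t := Finset.univ)
      (f := fun s j => a i * b j * γ i j s * _ * γ s _ m)]
    rw [Finset.sum_comm]
    refine Finset.sum_congr rfl fun j _ => Finset.sum_congr rfl fun l _ =>
      Finset.sum_congr rfl fun s _ => by ring
  have e2 : (a * (b * c)) m = ∑ i, ∑ j, ∑ l, a i * b j * c l * ∑ s, γ j l s * γ i s m := by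
    simp only [mul_apply, Finset.sum_mul, Finset.mul_sum]
    refine Finset.sum_congr rfl fun i _ => ?_
    rw [Finset.sum_comm]
    refine Finset.sum_congr rfl fun j _ => ?_
    rw [Finset.sum_comm]
    refine Finset.sum_congr rfl fun l _ => Finset.sum_congr rfl fun s _ => by ring
  rw [e1, e2]
  simp only [h.assoc]

instance : CommRing (Alg h) :=
  { (inferInstance : AddCommGroup (Alg h)), (inferInstance : Mul (Alg h)),
    (inferInstance : One (Alg h)) with
    left_distrib := Alg.mul_add
    right_distrib := fun a b c => by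
      rw [Alg.mul_comm, Alg.mul_add, Alg.mul_comm c, Alg.mul_comm c]
    zero_mul := fun a => Alg.ext fun l => by simp [mul_apply, zero_apply]
    mul_zero := fun a => Alg.ext fun l => by simp [mul_apply, zero_apply]
    mul_assoc := Alg.mul_assoc
    one_mul := Alg.one_mul
    mul_one := fun a => by rw [Alg.mul_comm, Alg.one_mul]
    mul_comm := Alg.mul_comm }

instance : Algebra B (Alg h) := Algebra.ofModule
  (fun r a b => Alg.ext fun l => by
    simp only [mul_apply, smul_apply, Finset.mul_sum, mul_assoc])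
  (fun r a b => Alg.ext fun l => by
    simp only [mul_apply, smul_apply, Finset.mul_sum, mul_assoc, mul_left_comm])

variable (h)

noncomputable def basis : Basis (Fin (n + 1)) B (Alg h) := Pi.basisFun B (Fin (n + 1))

variable {h}

lemma basis_repr (a : Alg h) (i : Fin (n + 1)) : (basis h).repr a i = a i := rfl

lemma basis_apply (i l : Fin (n + 1)) : basis h i l = if i = l then 1 else 0 := by
  rw [← basis_repr (basis h i), Basis.repr_self, Finsupp.single_apply]

lemma basis_zero : basis h 0 = 1 := Alg.ext fun l => by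
  rw [basis_apply, one_apply, Pi.single_apply]; simp [eq_comm]

lemma basis_mul (i j : Fin (n + 1)) : basis h i * basis h j = ∑ l, γ i j l • basis h l := by
  conv_lhs => rw [← (basis h).sum_repr (basis h i * basis h j)]
  simp [basis_repr, mul_apply, basis_apply]

/-- the homomorphism to an algebra with the same multiplication table. -/
def lift {B' : Type*} [CommRing B'] {A : Type*} [CommRing A] [Algebra B' A] (f : B →+* B')
    (e : Fin (n + 1) → A) (h0 : e 0 = 1) (hm : ∀ i j, e i * e j = ∑ l, f (γ i j l) • e l) :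
    Alg h →+* A where
  toFun a := ∑ i, f (a i) • e i
  map_one' := by
    rw [Finset.sum_eq_single 0]
    · simp [one_apply, h0]
    · intro b _ hb; simp [one_apply, Pi.single_eq_of_ne hb]
    · simp
  map_mul' a b := by
    simp only [mul_apply, map_sum, map_mul, Finset.sum_smul, Finset.sum_mul, Finset.mul_sum,
      smul_mul_smul_comm, hm, Finset.smul_sum, smul_smul]
    rw [Finset.sum_comm]
    conv_rhs => rw [Finset.sum_comm]
    refine Finset.sum_congr rfl fun i _ => ?_
    rw [Finset.sum_comm]
  map_zero' := by simp [zero_apply]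
  map_add' a b := by simp [add_apply, add_smul, Finset.sum_add_distrib]

section
variable {B' : Type*} [CommRing B'] {A : Type*} [CommRing A] [Algebra B' A] (f : B →+* B')
    (e : Fin (n + 1) → A) (h0 : e 0 = 1) (hm : ∀ i j, e i * e j = ∑ l, f (γ i j l) • e l)

lemma lift_apply (a : Alg h) : lift (h := h) f e h0 hm a = ∑ i, f (a i) • e i := rfl

lemma lift_smul (b : B) (a : Alg h) :
    lift (h := h) f e h0 hm (b • a) = f b • lift (h := h) f e h0 hm a := by
  simp [lift_apply, smul_apply, Finset.smul_sum, smul_smul]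

lemma lift_basis (i : Fin (n + 1)) : lift (h := h) f e h0 hm (basis h i) = e i := by
  simp [lift_apply, basis_apply, apply_ite f]

end

end Alg

variable {ι κ : Type}

lemma C3_map {B' : Type u} [CommRing B'] {𝒜 𝒜' : Type*} [CommRing 𝒜] [Algebra B 𝒜] [CommRing 𝒜']
    [Algebra B' 𝒜'] (f : B → B') (F : 𝒜 →+* 𝒜') (hF : ∀ (b : B) a, F (b • a) = f b • F a)
    {z : ι → 𝒜} {y : 𝒜} (hy : y ∈ C3 B z) : F y ∈ C3 B' fun a => F (z a) := by
  induction hy using Submodule.span_induction with
  | mem x hx =>
    obtain ⟨⟨a, b, c⟩, rfl⟩ := hx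
    simpa [cub] using cub_mem B' (fun a => F (z a)) a b c
  | zero => simp
  | add x y _ _ hx hy => rw [map_add]; exact add_mem hx hy
  | smul a x _ hx => rw [hF]; exact Submodule.smul_mem _ _ hx

lemma opt_map {𝒜 𝒜' : Type*} [CommRing 𝒜] [CommRing 𝒜'] (F : 𝒜 →+* 𝒜') (z : ι → 𝒜) :
    (fun a => F (opt z a)) = opt fun a => F (z a) := by
  funext a; cases a <;> simp [opt]

lemma Good.map {B' : Type u} [CommRing B'] {𝒜 𝒜' : Type*} [CommRing 𝒜] [Algebra B 𝒜]
    [CommRing 𝒜'] [Algebra B' 𝒜'] (f : B → B') (F : 𝒜 →+* 𝒜')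
    (hF : ∀ (b : B) a, F (b • a) = f b • F a) (hs : ∀ y, y ∈ Submodule.span B' (Set.range F))
    {Q : Binom B ι κ} {z : ι → 𝒜} (h : Good Q z) : Good (Q.map f) fun a => F (z a) where
  quad j := by
    have := C3_map f F hF (h.quad j)
    simpa [Binom.ev, Binom.map, hF] using this
  quart a b c d := by simpa using congrArg F (h.quart a b c d)
  span y := by
    refine (Submodule.span_le.2 ?_) (hs y)
    rintro _ ⟨x, rfl⟩
    rw [← opt_map]
    exact C3_map f F hF (h.span x)

lemma Good.alg_map {B' : Type u} [CommRing B'] (f : B →+* B') (h : Valid γ)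
    {γ' : Fin (n + 1) → Fin (n + 1) → Fin (n + 1) → B'} (h' : Valid γ')
    (e : ∀ i j l, γ' i j l = f (γ i j l)) {Q : Binom B ι κ} (H : ∃ z : ι → Alg h, Good Q z) :
    ∃ z : ι → Alg h', Good (Q.map f) z := by
  obtain ⟨z, hz⟩ := H
  have hm : ∀ i j, Alg.basis h' i * Alg.basis h' j = ∑ l, f (γ i j l) • Alg.basis h' l := by
    intro i j; simp only [Alg.basis_mul, e]
  refine ⟨_, hz.map f (Alg.lift f _ Alg.basis_zero hm) (Alg.lift_smul f _ _ hm) fun y => ?_⟩
  rw [← (Alg.basis h').sum_repr y]
  exact Submodule.sum_mem _ fun i _ => Submodule.smul_mem _ _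
    (Submodule.subset_span ⟨_, Alg.lift_basis f _ _ hm i⟩)

lemma Good.alg_pi [Fintype ι] {Bs : ℕ → Type u} [∀ N, CommRing (Bs N)]
    {γ : Fin (n + 1) → Fin (n + 1) → Fin (n + 1) → ∀ N, Bs N} (h : Valid γ)
    {Q : Binom (∀ N, Bs N) ι κ}
    (H : ∀ N, ∃ z : ι → Alg (h.map (Pi.evalRingHom Bs N)), Good (Q.map fun b => b N) z) :
    ∃ z : ι → Alg h, Good Q z := by
  choose zs hzs using H
  have hm : ∀ N i j, Alg.basis (h.map (Pi.evalRingHom Bs N)) i * Alg.basis _ j =
      ∑ l, Pi.evalRingHom Bs N (γ i j l) • Alg.basis (h.map (Pi.evalRingHom Bs N)) l :=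
    fun N i j => Alg.basis_mul i j
  let F : ∀ N, Alg h →+* Alg (h.map (Pi.evalRingHom Bs N)) :=
    fun N => Alg.lift (Pi.evalRingHom Bs N) _ Alg.basis_zero (hm N)
  have hF : ∀ N a l, F N a l = a l N := by
    intro N a l
    rw [← Alg.basis_repr (F N a)]
    simp [F, Alg.lift_apply, Finsupp.single_apply]
  have hF1 : ∀ N (b : ∀ N, Bs N) a, F N (b • a) = b N • F N a :=
    fun N => Alg.lift_smul _ _ _ (hm N)
  have hext : ∀ a b, (∀ N, F N a = F N b) → a = b := fun a b e =>
    Alg.ext fun l => funext fun N => by rw [← hF N a, ← hF N b, e]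
  let z : ι → Alg h := fun a l N => zs N a l
  have hz : ∀ N a, F N (z a) = zs N a := fun N a => Alg.ext fun l => hF N _ l
  have key : ∀ {ι' : Type} [Fintype ι'] (w : ι' → Alg h) (y : Alg h),
      (∀ N, F N y ∈ C3 (Bs N) fun a => F N (w a)) → y ∈ C3 (∀ N, Bs N) w := by
    intro ι' _ w y hy
    simp only [C3, Submodule.mem_span_range_iff_exists_fun] at hy ⊢
    choose c hc using hy
    refine ⟨fun p N => c N p, hext _ _ fun N => ?_⟩
    rw [← hc N, map_sum]
    simp [hF1, cub]
  refine ⟨z, fun j => key _ _ fun N => ?_, fun a b c d => hext _ _ fun N => ?_,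
    fun y => key _ _ fun N => ?_⟩
  · simpa [Binom.ev, Binom.map, hF1, hz] using (hzs N).quad j
  · simpa [hz] using (hzs N).quart a b c d
  · rw [opt_map]
    simpa [hz] using (hzs N).span (F N y)

end Pool.Agent.MP_f49c72_ag
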