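import Pool.Agent.MP_f49c72_ag.T1b

/-! Rigidity of the twisted quadrics in non-positive degrees. -/

namespace Pool.Agent.MP_f49c72_ag

open MvPolynomial

universe u

variable {k : Type u} [Field k] {V : Type}

lemma sym_of_eps (F : Fin 3 → Fin 3 → k) (h : ∀ m, ∑ i, ∑ j, eps k m i j * F i j = 0) (i j : Fin 3) :
    F i j = F j i := by
  have h0 := h 0; have h1 := h 1; have h2 := h 2
  simp [eps, epsZ, Fin.sum_univ_three] at h0 h1 h2
  fin_cases i <;> fin_cases j <;> simp
  · linear_combination h2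
  · linear_combination -h1
  · linear_combination -h2
  · linear_combination h0
  · linear_combination h1
  · linear_combination -h0

variable {χ : AddChar Z7 k} {c : V → V → Z7}

lemma quart (hχ : GoodChar χ) (a b d e : Fin 3 × V) :
    ∃ (f g : Fin 3 × V) (j : V × V × Fin 3 × Fin 3) (γ : k),
      (X a * X b * X d * X e : MvPolynomial (Fin 3 × V) k) = γ • (X f * X g * (QQ χ c).q j) := by
  have key : ∀ (a b : Fin 3 × V), a.1 = b.1 → ∃ (j : V × V × Fin 3 × Fin 3) (γ : k),
      (X a * X b : MvPolynomial (Fin 3 × V) k) = γ • (QQ χ c).q j := by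
    rintro ⟨i, u⟩ ⟨j, v⟩ (rfl : i = j)
    refine ⟨(u, v, i, i), (2 * χ (ew i * c u v))⁻¹, ?_⟩
    simp only [Binom.q, Binom.ev, QQ]
    rw [← add_smul, smul_smul, ← two_mul, inv_mul_cancel₀ (mul_ne_zero hχ.two (chi_ne _)), one_smul]
  have ph : ∀ i j l m : Fin 3, i = j ∨ i = l ∨ i = m ∨ j = l ∨ j = m ∨ l = m := by decide
  rcases ph a.1 b.1 d.1 e.1 with h | h | h | h | h | h <;> obtain ⟨j, γ, hj⟩ := key _ _ h
  · exact ⟨d, e, j, γ, by rw [← mul_smul_comm, ← hj]; ring⟩
  · exact ⟨b, e, j, γ, by rw [← mul_smul_comm, ← hj]; ring⟩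
  · exact ⟨b, d, j, γ, by rw [← mul_smul_comm, ← hj]; ring⟩
  · exact ⟨a, e, j, γ, by rw [← mul_smul_comm, ← hj]; ring⟩
  · exact ⟨a, d, j, γ, by rw [← mul_smul_comm, ← hj]; ring⟩
  · exact ⟨a, b, j, γ, by rw [← mul_smul_comm, ← hj]; ring⟩

variable [DecidableEq V] [Fintype V]

lemma mem_M3 (hχ : GoodChar χ) (g : MvPolynomial (Fin 3 × V) k) (h0 : c0 g = 0)
    (h1 : ∀ s m, D1 χ s 0 m g = 0) (h2 : ∀ s t m, L2 χ s 0 t (c s t) m g = 0) :
    (QQ χ c).pr g ∈ (QQ χ c).M3 := by
  have hq : ∀ a b d e, (QQ χ c).x a * (QQ χ c).x b * (QQ χ c).x d * (QQ χ c).x e = 0 := by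
    intro a b d e
    obtain ⟨f, g, j, γ, h⟩ := quart (c := c) hχ a b d e
    have := congrArg (QQ χ c).pr h
    rw [map_smul, map_mul (QQ χ c).pr _ ((QQ χ c).q j),
      (QQ χ c).pr_eq_zero.2 ((QQ χ c).q_mem_I j)] at this
    simpa [Binom.x] using this
  have := (QQ χ c).Rigid0_taylor hχ.two hq g
  have e1 : ∀ a, d1 a g = 0 := by
    rintro ⟨m, s⟩; simpa [D1] using h1 s m
  have e2 : ∑ a, ∑ b, d2 a b g • ((QQ χ c).x a * (QQ χ c).x b) = 0 := by
    simp only [Fintype.sum_prod_type_right]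
    refine Finset.sum_eq_zero fun s _ => ?_
    rw [Finset.sum_comm]
    refine Finset.sum_eq_zero fun t _ => ?_
    have hs := sym_of_eps (fun i j => D2 χ s 0 i t (c s t) j g)
      (fun m => by rw [← L2_apply, h2])
    have e3 : ∀ i j, d2 (i, s) (j, t) g • ((QQ χ c).x (i, s) * (QQ χ c).x (j, t)) =
        D2 χ s 0 i t (c s t) j g • (QQ χ c).pr (xf χ s 0 i * xf χ t (c s t) j) := by
      intro i j
      simp only [D2, xf, mul_zero, neg_zero, AddChar.map_zero_eq_one, one_smul, one_mul,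
        LinearMap.smul_apply, smul_eq_mul, mul_smul_comm, map_smul, map_mul, smul_smul, Binom.x]
      congr 1
      linear_combination (- d2 (i, s) (j, t) g) * chi_mul_neg (χ := χ) (ew j * c s t)
    simp only [e3]
    have e4 : (2 : k) • ∑ i, ∑ j,
        D2 χ s 0 i t (c s t) j g • (QQ χ c).pr (xf χ s 0 i * xf χ t (c s t) j) = 0 := by
      rw [two_smul]
      nth_rewrite 2 [Finset.sum_comm]
      simp only [← Finset.sum_add_distrib]
      refine Finset.sum_eq_zero fun i _ => Finset.sum_eq_zero fun j _ => ?_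
      rw [hs j i, ← smul_add, ← map_add]
      have := (QQ χ c).pr_eq_zero.2 ((QQ χ c).I2_le (qf_mem χ c (zero_add (c s t)).symm i j))
      rw [qf] at this
      rw [this, smul_zero]
    exact (smul_eq_zero.1 e4).resolve_left hχ.two
  simpa [h0, e1, e2] using this

/-- the vector field with constant part `g` and linear part `H`. -/
noncomputable def vf (g : V → Fin 3 → k) (H : V → V → Fin 3 → Fin 3 → k) (a : Fin 3 × V) :
    MvPolynomial (Fin 3 × V) k :=
  C (g a.2 a.1) + ∑ s, ∑ l, H s a.2 l a.1 • X (l, s)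

section vf
variable (g : V → Fin 3 → k) (H : V → V → Fin 3 → Fin 3 → k)

omit [DecidableEq V] in
lemma der_qf (u : V) (a : Z7) (v : V) (b : Z7) (i j : Fin 3) :
    mkDerivation k (vf g H) (qf χ u a v b i j) =
      xf χ u a i * (χ (ew j * b) • vf g H (j, v)) + xf χ v b j * (χ (ew i * a) • vf g H (i, u)) +
      (xf χ u a j * (χ (ew i * b) • vf g H (i, v)) + xf χ v b i * (χ (ew j * a) • vf g H (j, u))) := by
  have : ∀ u a i, mkDerivation k (vf g H) (xf χ u a i) = χ (ew i * a) • vf g H (i, u) := by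
    intro u a i; simp [xf]
  simp only [qf, map_add, Derivation.leibniz, this, smul_eq_mul]

omit [DecidableEq V] in
lemma c0_vf (u : V) (i : Fin 3) : c0 (vf g H (i, u)) = g u i := by simp [vf]

lemma D1_vf (s : V) (p : Z7) (l : Fin 3) (u : V) (i : Fin 3) :
    D1 χ s p l (vf g H (i, u)) = χ (-(ew l * p)) * H s u l i := by
  simp only [D1, vf, LinearMap.smul_apply, map_add, d1_C, map_sum, map_smul, d1_X, smul_eq_mul,
    Prod.mk.injEq]
  rw [Finset.sum_eq_single s, Finset.sum_eq_single l] <;> simp +contextual [eq_comm, mul_comm]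

lemma near_vf {u v : V} (huv : u ≠ v) :
    Near χ c (mkDerivation k (vf g H)).toLinearMap v u (g v) := by
  intro i j l
  simp only [Derivation.coeFn_coe, der_qf, map_add, D1_xf_mul, map_smul, c0_vf, huv, false_and,
    if_false, true_and, sub_self, mul_zero, AddChar.map_zero_eq_one, one_smul, zero_mul, zero_add,
    eq_comm (a := l)]
  simp

lemma edge_vf (hc : ∀ u v, c v u = - c u v) {s u v : V} (hsu : s ≠ u) (hsv : s ≠ v) (hvu : v ≠ u)
    (m i j : Fin 3) :
    L2 χ s 0 v (c s v) m (mkDerivation k (vf g H) (qf χ u 0 v (c u v) i j)) =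
      TT (H s u) (fun j => χ (ew j * (c u v + c v s))) m i j := by
  simp only [der_qf, map_add, L2_xf_mul, map_smul, D1_vf, hsu, hsv, hvu, if_false, if_true,
    mul_zero, neg_zero, AddChar.map_zero_eq_one, one_smul, one_mul, zero_add, add_zero, TT,
    hc s v, ← sub_eq_add_neg, Finset.sum_add_distrib, Finset.mul_sum]
  congr 1 <;> refine Finset.sum_congr rfl fun l _ => ?_ <;> ring

lemma diag_vf {u v : V} (huv : u ≠ v) (m i j : Fin 3) :
    ZZ χ c (mkDerivation k (vf g H)).toLinearMap u v 0 m i j =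
      TT (H u u) (fun _ => 1) m i j -
        TT (fun l j => χ ((ew j - ew l) * c u v) * H v v l j) (fun _ => 1) m i j := by
  have e : ∀ j l, χ ((ew j - ew l) * c u v) = χ (ew j * c u v) * χ (-(ew l * c u v)) := by
    intro j l; rw [← AddChar.map_add_eq_mul]; congr 1; ring
  simp only [ZZ, Derivation.coeFn_coe, der_qf, map_add, L2_xf_mul, map_smul, D1_vf, huv, huv.symm,
    if_false, if_true, mul_zero, neg_zero, AddChar.map_zero_eq_one, one_smul, one_mul, zero_add,
    add_zero, TT, sub_self, e, smul_eq_mul, mul_one, eps_swap m i, eps_swap m j,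
    Fin.sum_univ_three]
  ring

end vf

theorem rigid (hχ : GoodChar χ) (hC : Comb c) : (QQ χ c).Rigid := by
  refine ⟨quart hχ, fun ψ hψ => ?_⟩
  obtain ⟨Ψ, hΨ, hψΨ⟩ := (QQ χ c).exists_HT ψ hψ
  choose g hg using near_all hχ hC.anti hΨ hC.big
  obtain ⟨H0, hH0⟩ := diag_part hχ hC hΨ
  choose! v1 v2 hv1 hv2 hfl hperc using hC.c1
  have := fun s u (hsu : s ≠ u) => edge_pair hχ hC.anti hΨ (hfl s u hsu)
    (hC.flat_add (hfl s u hsu)) hsu (hv1 s u hsu) (hv2 s u hsu)
  choose! H1 hH1 hH2 using this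
  set H : V → V → Fin 3 → Fin 3 → k := fun s u => if s = u then H0 u else H1 s u with hH
  set D := mkDerivation k (vf g H) with hD
  have h' := hΨ.sub D
  set Φ := Ψ - D.toLinearMap with hΦ
  have z1 : ∀ u v, u ≠ v → ∀ i j l, D1 χ v (c u v) l (Φ (qf χ u 0 v (c u v) i j)) = 0 := by
    intro u v huv i j l
    rw [hΦ, LinearMap.sub_apply, map_sub, hg u v huv.symm, near_vf g H huv.symm, sub_self]
  have zd : ∀ u v, u ≠ v → Zero2 χ c Φ u v u v := by
    intro u v huv
    refine Zero2.intro (p := 0) (a := 0) rfl rfl fun m i j => ?_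
    rw [hΦ, LinearMap.sub_apply, map_sub]
    have e1 := hH0 u v huv m i j
    have e2 := diag_vf (χ := χ) (c := c) g H huv m i j
    simp only [hH, if_true] at e2
    rw [ZZ] at e1 e2
    rw [e1, e2, sub_self]
  have zb : ∀ s u, s ≠ u → ∀ v, v ≠ s → Zero2 χ c Φ s v u v := by
    intro s u hsu
    have hf := hfl s u hsu
    refine hperc s u hsu (fun v => Zero2 χ c Φ s v u v) ?_ ?_ (zero2_perc hχ hC h' hsu).1
      (zero2_perc hχ hC h' hsu).2
    · refine Zero2.intro (p := 0) (a := 0) (zero_add _).symm (zero_add _).symm fun m i j => ?_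
      rw [hΦ, LinearMap.sub_apply, map_sub, hH1 s u hsu, Derivation.coeFn_coe,
        edge_vf g H hC.anti hsu hf.1 (hv1 s u hsu)]
      simp [hH, hsu]
    · refine Zero2.intro (p := 0) (a := 0) (zero_add _).symm (zero_add _).symm fun m i j => ?_
      rw [hΦ, LinearMap.sub_apply, map_sub, hH2 s u hsu, Derivation.coeFn_coe,
        edge_vf g H hC.anti hsu hf.2.2.1.symm (hv2 s u hsu)]
      simp [hH, hsu]
  have z2' : ∀ s u v, Zero2 χ c Φ s v u v := by
    intro s u v
    by_cases h1 : s = v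
    · subst h1; exact Zero2.self hχ hC.diag _ _ _
    by_cases h2 : s = u
    · subst h2; exact zd s v h1
    · exact zb s u h2 v (Ne.symm h1)
  have z2 : ∀ s t u v, Zero2 χ c Φ s t u v := by
    intro s t u v
    by_cases h1 : t = v
    · subst h1; exact z2' s u t
    by_cases h2 : t = u
    · subst h2; exact (z2' s v t).swap_uv hC.anti
    by_cases h3 : s = v
    · subst h3; exact (z2' t u s).swap_st hC.anti
    by_cases h4 : s = u
    · subst h4; exact ((z2' t v s).swap_uv hC.anti).swap_st hC.anti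
    exact zero2_far hχ hC h' h4 h3 h2 h1
  refine ⟨fun a => (QQ χ c).pr (vf g H a), ?_⟩
  rintro ⟨u, v, i, j⟩
  have key : (QQ χ c).pr (Φ (qf χ u 0 v (c u v) i j)) ∈ (QQ χ c).M3 := by
    refine mem_M3 hχ _ ?_ ?_ ?_
    · obtain ⟨r, h1, h2, -⟩ := hC.big u v v
      exact deg2 hχ hC.anti h' h1 h2 (zero_add _).symm i j
    · intro s m
      by_cases h1 : s = v
      · subst h1
        by_cases h2 : s = u
        · subst h2
          obtain ⟨r, h1, -⟩ := hC.big s s s
          rw [hC.diag]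
          exact deg1_loop hχ hC.anti h' (hC.diag s) h1.symm (z1 s r h1.symm) i j m
        · rw [D1_re χ s 0 (c u s), z1 u s (Ne.symm h2), mul_zero]
      by_cases h2 : s = u
      · subst h2
        have := qf_shift χ v 0 s (c v s) (c s v) i j
        rw [zero_add, hC.anti s v, neg_add_cancel, ← hC.anti s v] at this
        rw [← qf_comm, this, map_smul, map_smul, D1_re χ s 0 (c v s), z1 v s (Ne.symm h1)]
        simp
      · obtain ⟨r, r1, r2, r3⟩ := hC.big s u v
        exact deg1_far hχ hC.anti h' h2 h1 r1 r2 r3 (zero_add _).symm 0 m i j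
    · intro s t m
      exact z2 s t u v 0 _ 0 _ (zero_add _).symm (zero_add _).symm m i j
  convert key using 1
  rw [hΦ, LinearMap.sub_apply, map_sub, qf_eq_q, ← hψΨ]
  congr 1
  simp only [Binom.q, Binom.ev, hD, Derivation.coeFn_coe, map_add,
    Derivation.leibniz, mkDerivation_X, smul_eq_mul, map_smul, map_mul, Binom.x, smul_add]
  simp only [mul_comm]; abel

end Pool.Agent.MP_f49c72_ag
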