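import Pool.Agent.MP_f49c72_ag.Alg

/-! First order deformations: local lemmas. -/

namespace Pool.Agent.MP_f49c72_ag

open MvPolynomial

universe u

variable {k : Type u} [Field k] {V : Type}

/-- dual form of the compatibility with linear syzygies. -/
def Binom.HT {ι κ : Type} (Q : Binom k ι κ) (Ψ : MvPolynomial ι k →ₗ[k] MvPolynomial ι k) : Prop :=
  ∀ L : MvPolynomial ι k →ₗ[k] k, (∀ f ∈ Q.I, L f = 0) →
    ∃ τ : MvPolynomial ι k →ₗ[k] k, ∀ a, ∀ f ∈ Q.I2, τ (X a * f) = L (X a * Ψ f)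

lemma Binom.HT.sub {ι κ : Type} {Q : Binom k ι κ} {Ψ : MvPolynomial ι k →ₗ[k] MvPolynomial ι k}
    (h : Q.HT Ψ) (D : Derivation k (MvPolynomial ι k) (MvPolynomial ι k)) :
    Q.HT (Ψ - D.toLinearMap) := by
  intro L hL
  obtain ⟨τ, hτ⟩ := h L hL
  refine ⟨τ - L ∘ₗ D.toLinearMap, fun a f hf => ?_⟩
  have := hL (f * D (X a)) (Ideal.mul_mem_right _ _ (Q.I2_le hf))
  simp [hτ a f hf, mul_sub, this]

lemma Binom.exists_HT {ι κ : Type} [Fintype ι] [DecidableEq ι] (Q : Binom k ι κ)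
    (ψ : Q.I2 →ₗ[k] Q.A)
    (h : ∀ f : ι → Q.I2, ∑ a, X a * (f a : MvPolynomial ι k) = 0 → ∑ a, Q.x a * ψ (f a) = 0) :
    ∃ Ψ, Q.HT Ψ ∧ ∀ f : Q.I2, Q.pr (Ψ f) = ψ f := by
  obtain ⟨ψ', hψ'⟩ := LinearMap.exists_extend ψ
  obtain ⟨σ, hσ⟩ := LinearMap.exists_rightInverse_of_surjective Q.pr.toLinearMap
    (LinearMap.range_eq_top.2 Q.pr_surj)
  have e : ∀ f : Q.I2, Q.pr ((σ ∘ₗ ψ') f) = ψ f := by
    intro f
    have h1 := LinearMap.congr_fun hσ (ψ' f)
    have h2 := LinearMap.congr_fun hψ' f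
    simp only [LinearMap.comp_apply, LinearMap.id_apply, AlgHom.toLinearMap_apply,
      Submodule.subtype_apply] at h1 h2 ⊢
    rw [h1, h2]
  refine ⟨σ ∘ₗ ψ', fun L hL => ?_, e⟩
  let μ : (ι → Q.I2) →ₗ[k] MvPolynomial ι k :=
    ∑ a, LinearMap.mulLeft k (X a) ∘ₗ Q.I2.subtype ∘ₗ LinearMap.proj a
  let ν : (ι → Q.I2) →ₗ[k] k :=
    ∑ a, L ∘ₗ LinearMap.mulLeft k (X a) ∘ₗ (σ ∘ₗ ψ') ∘ₗ Q.I2.subtype ∘ₗ LinearMap.proj a
  have hμ : ∀ f, μ f = ∑ a, X a * (f a : MvPolynomial ι k) := by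
    intro f; simp [μ, LinearMap.sum_apply]
  have hν : ∀ f, ν f = ∑ a, L (X a * (σ ∘ₗ ψ') (f a)) := by
    intro f; simp [ν, LinearMap.sum_apply]
  have : ν ∈ (LinearMap.ker μ).dualAnnihilator := by
    rw [Submodule.mem_dualAnnihilator]
    intro f hf
    rw [LinearMap.mem_ker, hμ] at hf
    rw [hν, ← map_sum]
    apply hL
    rw [← Q.pr_eq_zero, map_sum, ← h f hf]
    refine Finset.sum_congr rfl fun a _ => ?_
    rw [map_mul, e]; rfl
  rw [← LinearMap.range_dualMap_eq_dualAnnihilator_ker] at this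
  obtain ⟨τ, hτ⟩ := this
  refine ⟨τ, fun a f hf => ?_⟩
  have := LinearMap.congr_fun hτ (Pi.single a ⟨f, hf⟩)
  rw [LinearMap.dualMap_apply, hμ, hν, Finset.sum_eq_single a, Finset.sum_eq_single a] at this
  · simpa using this
  · intro b _ hb; simp [Pi.single_eq_of_ne hb]
  · simp
  · intro b _ hb; simp [Pi.single_eq_of_ne hb]
  · simp

variable {χ : AddChar Z7 k} {c : V → V → Z7}
  {Ψ : MvPolynomial (Fin 3 × V) k →ₗ[k] MvPolynomial (Fin 3 × V) k}

lemma HT_xf (h : (QQ χ c).HT Ψ) (L : MvPolynomial (Fin 3 × V) k →ₗ[k] k)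
    (hL : ∀ f ∈ (QQ χ c).I, L f = 0) : ∃ τ : MvPolynomial (Fin 3 × V) k →ₗ[k] k,
      ∀ w d l u a v b i j, b = a + c u v →
        τ (xf χ w d l * qf χ u a v b i j) = L (xf χ w d l * Ψ (qf χ u a v b i j)) := by
  obtain ⟨τ, hτ⟩ := h L hL
  refine ⟨τ, fun w d l u a v b i j e => ?_⟩
  simp only [xf, smul_mul_assoc, map_smul]
  rw [hτ _ _ (qf_mem χ c e i j)]

lemma far (hχ : GoodChar χ) (h : (QQ χ c).HT Ψ) (L : MvPolynomial (Fin 3 × V) k →ₗ[k] k)
    (hL : ∀ f ∈ (QQ χ c).I, L f = 0) {u v : V} (hu : ∀ a i g, L (xf χ u a i * g) = 0)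
    (hv : ∀ a i g, L (xf χ v a i * g) = 0) {a b : Z7} (hb : b = a + c u v) (r : V) (o : Z7) :
    Wedge χ (fun l i j => L (xf χ r o l * Ψ (qf χ u a v b i j))) (a - (o + c r u))
      (b - (o + c r v)) := by
  obtain ⟨τ, hτ⟩ := HT_xf h L hL
  set φ : Fin 3 → Fin 3 → Fin 3 → k :=
    fun l i j => τ (xf χ r o l * xf χ u (o + c r u) i * xf χ v (o + c r v) j) with hφ
  have key := alt3 hχ.two φ (fun l i j => by
      have := hτ v (o + c r v) j r o u (o + c r u) l i rfl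
      rw [hv] at this
      rw [← this, hφ, ← map_add]; congr 1; unfold qf; ring)
    (fun l i j => by
      have := hτ u (o + c r u) i r o v (o + c r v) l j rfl
      rw [hu] at this
      rw [← this, hφ, ← map_add]; congr 1; unfold qf; ring)
  refine ⟨φ 0 1 2, fun l i j => ?_⟩
  have e : τ (xf χ r o l * qf χ u a v b i j) =
      χ (ew i * (a - (o + c r u))) * χ (ew j * (b - (o + c r v))) * φ l i j +
      χ (ew j * (a - (o + c r u))) * χ (ew i * (b - (o + c r v))) * φ l j i := by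
    rw [qf, xf_re χ u a (o + c r u) i, xf_re χ u a (o + c r u) j, xf_re χ v b (o + c r v) i,
      xf_re χ v b (o + c r v) j]
    simp only [hφ, mul_add, map_add, smul_mul_assoc, mul_smul_comm, map_smul, smul_eq_mul,
      mul_assoc, mul_left_comm]
  simp only
  rw [← hτ r o l u a v b i j hb, e, key l i j, key l j i, eps_swap l j i]; ring

variable [DecidableEq V]

lemma D1_kill (hc : ∀ u v, c v u = - c u v) (s : V) (p : Z7) (m : Fin 3) :
    ∀ f ∈ (QQ χ c).I, D1 χ s p m f = 0 := fun _ hf => (kill_I χ hc hf).2.1 s p m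

lemma L2_kill (hc : ∀ u v, c v u = - c u v) {s t : V} {p q : Z7} (e : q = p + c s t) (m : Fin 3) :
    ∀ f ∈ (QQ χ c).I, L2 χ s p t q m f = 0 := fun _ hf => (kill_I χ hc hf).2.2.1 s p t q m e

lemma L3_kill (hc : ∀ u v, c v u = - c u v) {r s t : V} {o p q : Z7} (e1 : p = o + c r s)
    (e2 : q = p + c s t) (hf : Flat c r s t) :
    ∀ f ∈ (QQ χ c).I, L3 χ r o s p t q f = 0 := fun _ h =>
  (kill_I χ hc h).2.2.2 r o s p t q e1 e2 (by
    have := hf.2.2.2
    unfold hol at this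
    rw [e2, e1]; linear_combination -this)

/-- degree `-2`. -/
lemma deg2 (hχ : GoodChar χ) (hc : ∀ u v, c v u = - c u v) (h : (QQ χ c).HT Ψ) {u v r : V}
    (hru : r ≠ u) (hrv : r ≠ v) {a b : Z7} (hb : b = a + c u v) (i j : Fin 3) :
    c0 (Ψ (qf χ u a v b i j)) = 0 := by
  obtain ⟨μ, hμ⟩ := far hχ h _ (D1_kill hc r 0 i) (u := u) (v := v)
    (fun a i g => by simp [D1_xf_mul, hru]) (fun a i g => by simp [D1_xf_mul, hrv]) hb r 0
  have := hμ i i j
  simpa [D1_xf_mul, eps_self12] using this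

/-- degree `-1`, far from the edge. -/
lemma deg1_far (hχ : GoodChar χ) (hc : ∀ u v, c v u = - c u v) (h : (QQ χ c).HT Ψ) {s u v r : V}
    (hsu : s ≠ u) (hsv : s ≠ v) (hrs : r ≠ s)
    (hru : r ≠ u) (hrv : r ≠ v) {a b : Z7} (hb : b = a + c u v) (p : Z7) (m i j : Fin 3) :
    D1 χ s p m (Ψ (qf χ u a v b i j)) = 0 := by
  refine far1 (fun m => D1 χ s p m (Ψ (qf χ u a v b i j))) i j (fun n l hl => ?_) m
  obtain ⟨μ, hμ⟩ := far hχ h _ (L2_kill hc (s := s) (t := r) (p := p) rfl n) (u := u) (v := v)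
    (fun a i g => by simp [L2_xf_mul, hru, hsu]) (fun a i g => by simp [L2_xf_mul, hrv, hsv])
    hb r (p + c s r)
  have := hμ l i j
  simpa [L2_xf_mul, eps, hl, hrs.symm] using this

/-- the shape of the degree `-1` part on an edge. -/
def Near (χ : AddChar Z7 k) (c : V → V → Z7)
    (Ψ : MvPolynomial (Fin 3 × V) k →ₗ[k] MvPolynomial (Fin 3 × V) k) (v u : V) (h : Fin 3 → k) :
    Prop :=
  ∀ i j l, D1 χ u (c v u) l (Ψ (qf χ v 0 u (c v u) i j)) =
    (if j = l then h i else 0) + (if i = l then h j else 0)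

omit [DecidableEq V] in
lemma near_aux {u v : V} {a' : Z7} {g : Fin 3 → k}
    (H : ∀ i j l, D1 χ u a' l (Ψ (qf χ v 0 u (c v u) i j)) =
      (if j = l then g i * χ (ew j * (c v u - a')) else 0) +
        (if i = l then g j * χ (ew i * (c v u - a')) else 0)) : Near χ c Ψ v u g := by
  intro i j l
  rw [D1_re χ u (c v u) a', H]
  have : χ (ew l * (a' - c v u)) * χ (ew l * (c v u - a')) = 1 := by
    rw [← AddChar.map_add_eq_mul, ← AddChar.map_zero_eq_one χ]; congr 1; ring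
  by_cases h1 : j = l <;> by_cases h2 : i = l
  · subst h1; subst h2; simp only [if_true]; linear_combination (2 * g i) * this
  · subst h1; simp only [if_true, if_neg h2]; linear_combination (g i) * this
  · subst h2; simp only [if_true, if_neg h1]; linear_combination (g j) * this
  · simp [h1, h2]

lemma near_pair (hχ : GoodChar χ) (hc : ∀ u v, c v u = - c u v) (h : (QQ χ c).HT Ψ) {u v r : V}
    (huv : u ≠ v) (hrv : r ≠ v) (hur : u ≠ r) : ∃ g, Near χ c Ψ v u g ∧ Near χ c Ψ v r g := by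
  have := fun n => HT_xf h _ (L2_kill (χ := χ) hc (s := u) (t := r) (p := 0) rfl n)
  choose τ hτ using this
  set ρ := 0 + c u r with hρ
  set φ : Fin 3 → Fin 3 → Fin 3 → Fin 3 → k :=
    fun n i j l => τ n (xf χ v 0 i * xf χ u 0 j * xf χ r ρ l) with hφ
  have halt : ∀ n i j l, φ n i j l + φ n i l j = 0 := by
    intro n i j l
    have := hτ n v 0 i u 0 r ρ j l rfl
    rw [L2_xf_mul, if_neg huv, if_neg hrv, add_zero] at this
    rw [← this, hφ, ← map_add]; congr 1; unfold qf; ring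
  obtain ⟨g, hg, hg'⟩ := near1 hχ.two (fun j => χ (ew j * (c v u - 0))) (fun _ => chi_ne _) φ halt
    (fun i j l => D1 χ u 0 l (Ψ (qf χ v 0 u (c v u) i j))) (fun n i j l => by
      have := hτ n r ρ l v 0 u (c v u) i j (zero_add _).symm
      rw [L2_xf_mul, if_neg hur, if_pos rfl, zero_add, sub_self, mul_zero,
        AddChar.map_zero_eq_one, one_mul] at this
      rw [← this, qf, xf_re χ u (c v u) 0 i, xf_re χ u (c v u) 0 j]
      simp only [hφ, mul_add, map_add, mul_smul_comm, map_smul, smul_eq_mul]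
      congr 3 <;> ring)
  obtain ⟨g2, hg2, hg2'⟩ := near1 hχ.two (fun j => χ (ew j * (c v r - ρ))) (fun _ => chi_ne _)
    (fun n i j l => - φ n i l j) (fun n i j l => by linear_combination - halt n i j l)
    (fun i j l => D1 χ r ρ l (Ψ (qf χ v 0 r (c v r) i j))) (fun n i j l => by
      have := hτ n u 0 l v 0 r (c v r) i j (zero_add _).symm
      rw [L2_xf_mul, if_neg hur.symm, if_pos rfl, add_zero, sub_self, mul_zero,
        AddChar.map_zero_eq_one, one_mul] at this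
      simp only [eps_swap n _ l, neg_mul, Finset.sum_neg_distrib]
      rw [← this, qf, xf_re χ r (c v r) ρ i, xf_re χ r (c v r) ρ j]
      simp only [hφ, mul_add, map_add, mul_smul_comm, map_smul, smul_eq_mul, neg_add, mul_neg]
      congr 4 <;> ring)
  have e : g2 = g := by
    funext i
    obtain ⟨j, hij⟩ : ∃ j, i ≠ j := ⟨i + 1, by revert i; decide⟩
    obtain ⟨n, h1, h2, -⟩ := exists_third hij
    apply mul_left_cancel₀ (eps_ne (k := k) h2 h1 hij.symm)
    rw [← hg' n i j hij, ← hg2' n i j hij]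
    linear_combination - halt n i i j
  subst e
  exact ⟨g2, near_aux hg, near_aux hg2⟩

omit [DecidableEq V] in
lemma Near.unique (hχ : GoodChar χ) {u v : V} {g g' : Fin 3 → k} (h : Near χ c Ψ v u g)
    (h' : Near χ c Ψ v u g') : g = g' := by
  funext i
  have e := (h i i i).symm.trans (h' i i i)
  simp only [if_true] at e
  apply mul_left_cancel₀ hχ.two
  linear_combination e

lemma near_all (hχ : GoodChar χ) (hc : ∀ u v, c v u = - c u v) (h : (QQ χ c).HT Ψ)
    (big : ∀ s u v : V, ∃ r, r ≠ s ∧ r ≠ u ∧ r ≠ v) (v : V) :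
    ∃ g, ∀ u, u ≠ v → Near χ c Ψ v u g := by
  obtain ⟨u0, hu0, -⟩ := big v v v
  obtain ⟨r0, hr0, hr1, -⟩ := big v u0 v
  obtain ⟨g, hg, -⟩ := near_pair hχ hc h hu0 hr0 hr1.symm
  refine ⟨g, fun u hu => ?_⟩
  by_cases e : u0 = u
  · rw [← e]; exact hg
  · obtain ⟨g', h1, h2⟩ := near_pair hχ hc h hu0 hu e
    rw [hg.unique hχ h1]; exact h2

/-- degree `-1` on a loop. -/
lemma deg1_loop (hχ : GoodChar χ) (hc : ∀ u v, c v u = - c u v) (h : (QQ χ c).HT Ψ) {u r : V}
    (hd : c u u = 0) (hur : u ≠ r)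
    (h0 : ∀ i j l, D1 χ r (c u r) l (Ψ (qf χ u 0 r (c u r) i j)) = 0) (i j m : Fin 3) :
    D1 χ u 0 m (Ψ (qf χ u 0 u 0 i j)) = 0 := by
  refine far1 (fun m => D1 χ u 0 m (Ψ (qf χ u 0 u 0 i j))) i j (fun n l _ => ?_) m
  obtain ⟨τ, hτ⟩ := HT_xf h _ (L2_kill (χ := χ) hc (s := u) (t := r) (p := 0) (q := c u r)
    (zero_add _).symm n)
  have key := symalt hχ.two (fun i j l => τ (xf χ u 0 i * xf χ u 0 j * xf χ r (c u r) l))
    (fun i j l => by congr 1; ring) (fun i j l => by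
      have := hτ u 0 i u 0 r (c u r) j l (zero_add _).symm
      rw [L2_xf_mul, if_neg hur.symm] at this
      simp only [h0, mul_zero, Finset.sum_const_zero, ite_self, add_zero] at this
      rw [← this, ← map_add]; congr 1; unfold qf; ring)
  have := hτ r (c u r) l u 0 u 0 i j (by rw [hd, add_zero])
  rw [L2_xf_mul, if_neg hur, if_pos rfl, zero_add, sub_self, mul_zero,
    AddChar.map_zero_eq_one, one_mul] at this
  rw [← this, ← add_zero (0 : k)]
  nth_rewrite 1 [← key i j l]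
  rw [← key j i l, ← map_add]; congr 1; unfold qf; ring

end Pool.Agent.MP_f49c72_ag
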