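import Pool.Agent.MP_f49c72_ag.T1a

/-! First order deformations: degree zero. -/

namespace Pool.Agent.MP_f49c72_ag

open MvPolynomial

universe u

variable {k : Type u} [Field k] {V : Type}

/-- vanishing of the `(s,t)` component of the image of the quadrics on `(u,v)`. -/
def Zero2 (χ : AddChar Z7 k) (c : V → V → Z7)
    (Ψ : MvPolynomial (Fin 3 × V) k →ₗ[k] MvPolynomial (Fin 3 × V) k) (s t u v : V) : Prop :=
  ∀ p q a b, q = p + c s t → b = a + c u v → ∀ m i j, L2 χ s p t q m (Ψ (qf χ u a v b i j)) = 0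

variable {χ : AddChar Z7 k} {c : V → V → Z7}
  {Ψ : MvPolynomial (Fin 3 × V) k →ₗ[k] MvPolynomial (Fin 3 × V) k}

lemma Zero2.intro {s t u v : V} {p q a b : Z7} (h1 : q = p + c s t) (h2 : b = a + c u v)
    (h : ∀ m i j, L2 χ s p t q m (Ψ (qf χ u a v b i j)) = 0) : Zero2 χ c Ψ s t u v := by
  intro p' q' a' b' e1 e2 m i j
  have f1 : p' = p + (p' - p) := by ring
  have f2 : q' = q + (p' - p) := by rw [e1, h1]; ring
  have f3 : a' = a + (a' - a) := by ring
  have f4 : b' = b + (a' - a) := by rw [e2, h2]; ring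
  rw [f2, f4]
  nth_rewrite 1 [f1, f3]
  rw [L2_shift, qf_shift, map_smul, map_smul, h]; simp

lemma Zero2.swap_uv (hc : ∀ u v, c v u = - c u v) {s t u v : V} (h : Zero2 χ c Ψ s t u v) :
    Zero2 χ c Ψ s t v u := by
  intro p q a b e1 e2 m i j
  rw [qf_comm]
  exact h p q b a e1 (by rw [e2, hc u v]; ring) m i j

variable [DecidableEq V]

lemma Zero2.swap_st (hc : ∀ u v, c v u = - c u v) {s t u v : V} (h : Zero2 χ c Ψ s t u v) :
    Zero2 χ c Ψ t s u v := by
  intro p q a b e1 e2 m i j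
  rw [L2_swap, h q p a b (by rw [e1, hc s t]; ring) e2, neg_zero]

lemma Zero2.self (hχ : GoodChar χ) (hd : ∀ u, c u u = 0) (s u v : V) : Zero2 χ c Ψ s s u v := by
  intro p q a b e1 _ m i j
  rw [hd, add_zero] at e1
  subst e1
  have := L2_swap χ s q s q m (Ψ (qf χ u a v b i j))
  apply mul_left_cancel₀ hχ.two
  linear_combination this

lemma wedge_far (hχ : GoodChar χ) (hc : ∀ u v, c v u = - c u v) (h : (QQ χ c).HT Ψ)
    {r s t u v : V} (hf : Flat c r s t) (hru : r ≠ u) (hrv : r ≠ v) (hsu : s ≠ u) (hsv : s ≠ v)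
    (htu : t ≠ u) (htv : t ≠ v) :
    Wedge χ (fun m i j => L2 χ s 0 t (c s t) m (Ψ (qf χ u 0 v (c u v) i j))) (c r s + c u r)
      (c u v + c r s + c v r) := by
  have := far hχ h _ (L3_kill hc (o := - c r s) (p := 0) (q := c s t) (by ring) (by ring) hf)
    (u := u) (v := v) (fun a i g => by simp [L3_xf_mul, hru, hsu, htu])
    (fun a i g => by simp [L3_xf_mul, hrv, hsv, htv]) (a := 0) (b := c u v) (by ring) r (- c r s)
  convert this using 1
  · funext m i j
    simp [L3_xf_mul, hf.1.symm, hf.2.2.1]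
  · rw [hc u r]; ring
  · rw [hc v r]; ring

lemma zero2_flat (hχ : GoodChar χ) (hc : ∀ u v, c v u = - c u v) (hd : ∀ u, c u u = 0)
    (h : (QQ χ c).HT Ψ) {s t u v : V} (hf : Flat c u s t) (huv : u ≠ v) (hsv : s ≠ v)
    (htv : t ≠ v) : Zero2 χ c Ψ s t u v := by
  obtain ⟨τ, hτ⟩ := HT_xf h _
    (L3_kill hc (o := 0) (p := c u s) (q := c u s + c s t) (by ring) (by ring) hf)
  have key : ∀ i j l, τ (xf χ u 0 i * xf χ u 0 j * xf χ v (c u v) l) = 0 := by
    intro i j l
    have := hτ v (c u v) l u 0 u 0 i j (by rw [hd, add_zero])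
    rw [L3_xf_mul, if_neg huv, if_neg hsv, if_neg htv] at this
    apply mul_left_cancel₀ hχ.two
    rw [mul_zero, two_mul, ← map_add]
    simp only [add_zero] at this
    rw [← this]; congr 1; unfold qf; ring
  refine Zero2.intro (p := c u s) (q := c u s + c s t) (a := 0) (b := c u v) rfl (by ring) ?_
  intro m i j
  have := hτ u 0 m u 0 v (c u v) i j (by ring)
  rw [L3_xf_mul, if_pos rfl, if_neg hf.1.symm, if_neg hf.2.2.1] at this
  simp only [sub_self, mul_zero, AddChar.map_zero_eq_one, one_mul, add_zero] at this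
  rw [← this, ← add_zero (0 : k)]
  nth_rewrite 1 [← key m i j]
  rw [← key m j i, ← map_add]; congr 1; unfold qf; ring

lemma zero2_C2 (hχ : GoodChar χ) (hc : ∀ u v, c v u = - c u v) (hd : ∀ u, c u u = 0)
    (h : (QQ χ c).HT Ψ) {s t u v : V} (huv : u ≠ v) (hsu : s ≠ u) (hsv : s ≠ v) (htu : t ≠ u)
    (htv : t ≠ v) (H : C2 c s t u v) : Zero2 χ c Ψ s t u v := by
  rcases H with H | ⟨r, r', f1, f2, h1, h2, h3, h4, H⟩
  · exact zero2_flat hχ hc hd h H huv hsv htv
  · refine Zero2.intro (p := 0) (q := c s t) (a := 0) (b := c u v) (by ring) (by ring) ?_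
    have w1 := wedge_far hχ hc h f1 h1 h2 hsu hsv htu htv
    have w2 := wedge_far hχ hc h f2 h3 h4 hsu hsv htu htv
    by_cases e : c r s + c u r = c u v + c r s + c v r
    · rw [← e] at w1; exact w1.same
    · exact w1.three hχ w2 e (H.resolve_left e)

/-- one new vertex: the deformation on two edges is governed by one matrix. -/
lemma edge_pair (hχ : GoodChar χ) (hc : ∀ u v, c v u = - c u v)
    (h : (QQ χ c).HT Ψ) {s v w u : V} (hf : Flat c s v w) (hsw : c s w = c s v + c v w)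
    (hsu : s ≠ u) (hvu : v ≠ u) (hwu : w ≠ u) : ∃ H : Fin 3 → Fin 3 → k,
      (∀ m i j, L2 χ s 0 v (c s v) m (Ψ (qf χ u 0 v (c u v) i j)) =
        TT H (fun j => χ (ew j * (c u v + c v s))) m i j) ∧
      ∀ m i j, L2 χ s 0 w (c s w) m (Ψ (qf χ u 0 w (c u w) i j)) =
        TT H (fun j => χ (ew j * (c u w + c w s))) m i j := by
  obtain ⟨τ, hτ⟩ := HT_xf h _
    (L3_kill hc (o := 0) (p := c s v) (q := c s w) (by ring) hsw hf)
  set φ : Fin 3 → Fin 3 → Fin 3 → k :=
    fun i j l => τ (xf χ u 0 i * xf χ v (c s v) j * xf χ w (c s w) l) with hφ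
  have key := alt23 hχ.two φ (fun i j l => by
    have := hτ u 0 i v (c s v) w (c s w) j l hsw
    rw [L3_xf_mul, if_neg hsu, if_neg hvu, if_neg hwu] at this
    simp only [add_zero] at this
    rw [← this, hφ, ← map_add]; congr 1; unfold qf; ring)
  refine ⟨fun l i => φ i (l + 1) (l + 2), fun m i j => ?_, fun m i j => ?_⟩
  · have := hτ w (c s w) m u 0 v (c u v) i j (by ring)
    rw [L3_xf_mul, if_pos rfl, if_neg hf.2.2.1.symm, if_neg hf.2.1] at this
    simp only [sub_self, mul_zero, AddChar.map_zero_eq_one, one_mul, zero_add] at this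
    have e : τ (xf χ w (c s w) m * qf χ u 0 v (c u v) i j) =
        χ (ew j * (c u v + c v s)) * φ i j m + χ (ew i * (c u v + c v s)) * φ j i m := by
      rw [qf, xf_re χ v (c u v) (c s v) i, xf_re χ v (c u v) (c s v) j, hc s v, ← sub_eq_add_neg]
      simp only [hφ, mul_add, map_add, mul_smul_comm, map_smul, smul_eq_mul]
      congr 3 <;> ring
    rw [← this, e, key i j m, key j i m, TT, Finset.mul_sum, Finset.mul_sum,
      ← Finset.sum_add_distrib]
    refine Finset.sum_congr rfl fun l _ => ?_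
    rw [eps_cyc m l j, eps_cyc m l i]; ring
  · have := hτ v (c s v) m u 0 w (c u w) i j (by ring)
    rw [L3_xf_mul, if_pos rfl, if_neg hf.1, if_neg hf.2.1.symm, L2_swap] at this
    simp only [sub_self, mul_zero, AddChar.map_zero_eq_one, one_mul, zero_add, add_zero] at this
    have e : τ (xf χ v (c s v) m * qf χ u 0 w (c u w) i j) =
        χ (ew j * (c u w + c w s)) * φ i m j + χ (ew i * (c u w + c w s)) * φ j m i := by
      rw [qf, xf_re χ w (c u w) (c s w) i, xf_re χ w (c u w) (c s w) j, hc s w, ← sub_eq_add_neg]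
      simp only [hφ, mul_add, map_add, mul_smul_comm, map_smul, smul_eq_mul]
      congr 3 <;> ring
    rw [← neg_eq_iff_eq_neg] at this
    rw [← this, e, key i m j, key j m i, TT, Finset.mul_sum, Finset.mul_sum,
      ← Finset.sum_add_distrib, ← Finset.sum_neg_distrib]
    refine Finset.sum_congr rfl fun l _ => ?_
    rw [eps_swap12 m l j, eps_swap12 m l i]; ring

lemma edge_loop (hχ : GoodChar χ) (hc : ∀ u v, c v u = - c u v) (hd : ∀ u, c u u = 0)
    (h : (QQ χ c).HT Ψ) {s v u : V} (hf : Flat c s v u) (hsu : c s u = c s v + c v u) :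
    Zero2 χ c Ψ s u u u ↔ Zero2 χ c Ψ s v u v := by
  obtain ⟨τ, hτ⟩ := HT_xf h _
    (L3_kill hc (o := 0) (p := c s v) (q := c s u) (by ring) hsu hf)
  have hb : c s v = c s u + c u v := by rw [hsu, hc u v]; ring
  set φ : Fin 3 → Fin 3 → Fin 3 → k :=
    fun i j l => τ (xf χ u (c s u) i * xf χ u (c s u) j * xf χ v (c s v) l) with hφ
  have e1 : ∀ i j l, 2 * φ i j l =
      - L2 χ s 0 u (c s u) l (Ψ (qf χ u (c s u) u (c s u) i j)) := by
    intro i j l
    have := hτ v (c s v) l u (c s u) u (c s u) i j (by rw [hd, add_zero])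
    rw [L3_xf_mul, if_pos rfl, if_neg hf.1, if_neg hf.2.1.symm, L2_swap] at this
    simp only [sub_self, mul_zero, AddChar.map_zero_eq_one, one_mul, zero_add, add_zero] at this
    rw [← this, two_mul, hφ, ← map_add]; congr 1; unfold qf; ring
  have e2 : ∀ i j l, φ i j l + φ i l j =
      L2 χ s 0 v (c s v) i (Ψ (qf χ u (c s u) v (c s v) j l)) := by
    intro i j l
    have := hτ u (c s u) i u (c s u) v (c s v) j l hb
    rw [L3_xf_mul, if_pos rfl, if_neg hf.2.2.1.symm, if_neg hf.2.1] at this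
    simp only [sub_self, mul_zero, AddChar.map_zero_eq_one, one_mul, zero_add] at this
    rw [← this, hφ, ← map_add]; congr 1; unfold qf; ring
  constructor
  · intro H
    have : ∀ i j l, φ i j l = 0 := by
      intro i j l
      apply mul_left_cancel₀ hχ.two
      rw [e1, H 0 _ _ _ (by ring) (by rw [hd, add_zero])]; simp
    refine Zero2.intro (p := 0) (q := c s v) (by ring) hb fun m i j => ?_
    rw [← e2, this, this, add_zero]
  · intro H
    have := symalt hχ.two φ (fun i j l => by simp only [hφ]; congr 1; ring) (fun i j l => by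
      rw [e2, H 0 _ _ _ (by ring) hb])
    refine Zero2.intro (p := 0) (q := c s u) (a := c s u) (b := c s u) (by ring)
      (by rw [hd, add_zero]) fun m i j => ?_
    rw [← neg_eq_zero, ← e1, this, mul_zero]

/-- the diagonal part on an edge. -/
noncomputable def ZZ (χ : AddChar Z7 k) (c : V → V → Z7)
    (Ψ : MvPolynomial (Fin 3 × V) k →ₗ[k] MvPolynomial (Fin 3 × V) k) (u v : V) (a : Z7)
    (m i j : Fin 3) : k :=
  L2 χ u a v (a + c u v) m (Ψ (qf χ u a v (a + c u v) i j))

omit [DecidableEq V] in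
lemma ZZ_shift (u v : V) (a : Z7) (m i j : Fin 3) :
    ZZ χ c Ψ u v a m i j = χ ((ew m + ew i + ew j - 4) * a) * ZZ χ c Ψ u v 0 m i j := by
  have e1 := L2_shift χ u 0 v (0 + c u v) a m (Ψ (qf χ u a v (a + c u v) i j))
  have e2 := qf_shift χ u 0 v (0 + c u v) a i j
  simp only [zero_add, add_comm (c u v)] at e1 e2
  rw [ZZ, e1, e2, map_smul, map_smul, smul_eq_mul, ← mul_assoc, ← AddChar.map_add_eq_mul, ZZ,
    zero_add]
  congr 2; ring

lemma ZZ_swap (hc : ∀ u v, c v u = - c u v) (u v : V) (m i j : Fin 3) :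
    ZZ χ c Ψ v u (c u v) m i j = - ZZ χ c Ψ u v 0 m i j := by
  rw [ZZ, ZZ, hc u v, add_neg_cancel, zero_add, L2_swap, qf_comm]

omit [DecidableEq V] in
lemma CC_shift (u v : V) (a : Z7) (i j l : Fin 3) :
    CC (ZZ χ c Ψ u v a) i j l = χ ((ew i + ew j + ew l - 4) * a) * CC (ZZ χ c Ψ u v 0) i j l := by
  simp only [CC, ZZ_shift u v a, mul_add]
  congr 1
  · congr 4; ring
  · congr 4; ring

omit [DecidableEq V] in
lemma NN_shift (u v : V) (a : Z7) (m i : Fin 3) :
    NN (ZZ χ c Ψ u v a) m i = χ ((ew i - ew m) * a) * NN (ZZ χ c Ψ u v 0) m i := by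
  simp only [NN, ZZ_shift u v a, Finset.mul_sum]
  refine Finset.sum_congr rfl fun l _ => Finset.sum_congr rfl fun j _ => ?_
  by_cases h : epsZ l m j = 0
  · simp [eps, h]
  · have hw := epsZ_weight l m j h
    have : ew l + ew i + ew j - 4 = ew i - ew m := by rw [← hw]; ring
    rw [this]; ring

lemma ZZ_tri (hc : ∀ u v, c v u = - c u v) (h : (QQ χ c).HT Ψ) {u v w : V} (hf : Flat c u v w)
    (huw : c u w = c u v + c v w) :
    (∀ i j l, CC (ZZ χ c Ψ u v 0) i j l = CC (ZZ χ c Ψ v w (c u v)) i j l) ∧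
      ∀ m i, NN (ZZ χ c Ψ u v 0) m i + NN (ZZ χ c Ψ v w (c u v)) m i +
        NN (ZZ χ c Ψ w u (c u w)) m i = 0 := by
  obtain ⟨τ, hτ⟩ := HT_xf h _
    (L3_kill hc (o := 0) (p := c u v) (q := c u w) (by ring) huw hf)
  refine tri0 (fun i j l => τ (xf χ u 0 i * xf χ v (c u v) j * xf χ w (c u w) l)) _ _ _
    (fun i j l => ?_) (fun i j l => ?_) (fun i j l => ?_)
  · have := hτ w (c u w) l u 0 v (c u v) i j (by ring)
    rw [L3_xf_mul, if_pos rfl, if_neg hf.2.2.1.symm, if_neg hf.2.1] at this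
    simp only [sub_self, mul_zero, AddChar.map_zero_eq_one, one_mul, zero_add] at this
    rw [ZZ, zero_add, ← this, ← map_add]; congr 1; unfold qf; ring
  · have := hτ u 0 i v (c u v) w (c u w) j l huw
    rw [L3_xf_mul, if_pos rfl, if_neg hf.1.symm, if_neg hf.2.2.1] at this
    simp only [sub_self, mul_zero, AddChar.map_zero_eq_one, one_mul, add_zero] at this
    rw [ZZ, ← huw, ← this, ← map_add]; congr 1; unfold qf; ring
  · have := hτ v (c u v) j w (c u w) u 0 l i (by rw [hc u w]; ring)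
    rw [L3_xf_mul, if_pos rfl, if_neg hf.1, if_neg hf.2.1.symm] at this
    simp only [sub_self, mul_zero, AddChar.map_zero_eq_one, one_mul, add_zero, zero_add] at this
    rw [ZZ, hc u w, add_neg_cancel, ← this, ← map_add]; congr 1; unfold qf; ring

variable [Fintype V]

lemma zero2_far (hχ : GoodChar χ) (hC : Comb c) (h : (QQ χ c).HT Ψ) {s t u v : V}
    (hsu : s ≠ u) (hsv : s ≠ v) (htu : t ≠ u) (htv : t ≠ v) : Zero2 χ c Ψ s t u v := by
  by_cases hst : s = t
  · subst hst; exact Zero2.self hχ hC.diag _ _ _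
  by_cases huv : u = v
  · subst huv
    obtain ⟨r, hr, hf⟩ := hC.twoflat s t u hst
    have := wedge_far hχ hC.anti h hf hr hr hsu hsu htu htu
    refine Zero2.intro (p := 0) (q := c s t) (a := 0) (b := c u u) (by ring) (by ring) ?_
    nth_rewrite 2 [hC.diag u] at this
    rw [zero_add] at this
    exact this.same
  rcases hC.c2 s t u v hst huv hsu.symm htu.symm hsv.symm htv.symm with H | H | H | H
  · exact zero2_C2 hχ hC.anti hC.diag h huv hsu hsv htu htv H
  · exact (zero2_C2 hχ hC.anti hC.diag h huv htu htv hsu hsv H).swap_st hC.anti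
  · exact (zero2_C2 hχ hC.anti hC.diag h (Ne.symm huv) hsv hsu htv htu H).swap_uv hC.anti
  · exact ((zero2_C2 hχ hC.anti hC.diag h (Ne.symm huv) htv htu hsv hsu H).swap_uv
      hC.anti).swap_st hC.anti

lemma zero2_perc (hχ : GoodChar χ) (hC : Comb c) (h : (QQ χ c).HT Ψ) {s u : V} (hsu : s ≠ u) :
    (∀ v a, Flat c s v a → c u a + c a s = c u v + c v s → Zero2 χ c Ψ s a u a →
      Zero2 χ c Ψ s v u v) ∧
    (∀ v a b, Flat c s v a → Flat c s v b → c u v + c v s ≠ c u a + c a s →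
      c u v + c v s ≠ c u b + c b s → c u a + c a s ≠ c u b + c b s → Zero2 χ c Ψ s a u a →
      Zero2 χ c Ψ s b u b → Zero2 χ c Ψ s v u v) := by
  have t1 : ∀ v a, Flat c s v a → v = u ∨ a = u → Zero2 χ c Ψ s a u a → Zero2 χ c Ψ s v u v := by
    rintro v a hf (rfl | rfl) H
    · have hf' := hC.flat_swap hf
      exact (edge_loop hχ hC.anti hC.diag h hf' (hC.flat_add hf')).2 H
    · exact (edge_loop hχ hC.anti hC.diag h hf (hC.flat_add hf)).1 H
  constructor
  · intro v a hf e H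
    by_cases h0 : v = u ∨ a = u
    · exact t1 v a hf h0 H
    push Not at h0
    obtain ⟨M, h1, h2⟩ := edge_pair hχ hC.anti h hf (hC.flat_add hf) hsu h0.1 h0.2
    refine Zero2.intro (p := 0) (q := c s v) (a := 0) (b := c u v) (by ring) (by ring) ?_
    intro m i j
    rw [h1, ← e, ← h2, H 0 _ 0 _ (by ring) (by ring)]
  · intro v a b hf hf' n1 n2 n3 H H'
    by_cases h0 : v = u ∨ a = u
    · exact t1 v a hf h0 H
    by_cases h0' : v = u ∨ b = u
    · exact t1 v b hf' h0' H'
    push Not at h0 h0'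
    obtain ⟨M, h1, h2⟩ := edge_pair hχ hC.anti h hf (hC.flat_add hf) hsu h0.1 h0.2
    obtain ⟨M', h1', h2'⟩ := edge_pair hχ hC.anti h hf' (hC.flat_add hf') hsu h0'.1 h0'.2
    refine Zero2.intro (p := 0) (q := c s v) (a := 0) (b := c u v) (by ring) (by ring) ?_
    have w1 := wedge_of_TT hχ (H := M) (x := c u a + c a s) (y := c u v + c v s)
      (fun m i j => by rw [← h2, H 0 _ 0 _ (by ring) (by ring)])
    have w2 := wedge_of_TT hχ (H := M') (x := c u b + c b s) (y := c u v + c v s)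
      (fun m i j => by rw [← h2', H' 0 _ 0 _ (by ring) (by ring)])
    have e : (TT M' fun i => χ (ew i * (c u v + c v s))) =
        TT M fun i => χ (ew i * (c u v + c v s)) := by
      funext m i j; rw [← h1, ← h1']
    rw [e] at w2
    intro m i j
    rw [h1]
    exact w1.three hχ w2 n1.symm (Or.inl ⟨n3, n2⟩) m i j

lemma diag_part (hχ : GoodChar χ) (hC : Comb c) (h : (QQ χ c).HT Ψ) :
    ∃ H : V → Fin 3 → Fin 3 → k, ∀ u v, u ≠ v → ∀ m i j, ZZ χ c Ψ u v 0 m i j =
      TT (H u) (fun _ => 1) m i j -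
        TT (fun l j => χ ((ew j - ew l) * c u v) * H v l j) (fun _ => 1) m i j := by
  have hCC : ∀ i j l u v, u ≠ v → CC (ZZ χ c Ψ u v 0) i j l = 0 := by
    intro i j l
    refine hC.hC hχ (ew i + ew j + ew l - 4) (fun u v => CC (ZZ χ c Ψ u v 0) i j l) ?_ ?_
    · intro u v _
      rw [← CC_shift]
      simp only [CC, ZZ_swap hC.anti]; ring
    · intro u v t hf
      rw [← CC_shift]
      exact (ZZ_tri hC.anti h hf (hC.flat_add hf)).1 i j l
  have hNN : ∀ m i, ∃ b : V → k, ∀ u v, u ≠ v →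
      NN (ZZ χ c Ψ u v 0) m i = b u - χ ((ew i - ew m) * c u v) * b v := by
    intro m i
    refine hC.h1 hχ (ew i - ew m) (fun u v => NN (ZZ χ c Ψ u v 0) m i) ?_ ?_
    · intro u v _
      rw [← NN_shift]
      simp only [NN, ZZ_swap hC.anti, mul_neg, Finset.sum_neg_distrib]; ring
    · intro u v t hf
      rw [← NN_shift, ← NN_shift]
      exact (ZZ_tri hC.anti h hf (hC.flat_add hf)).2 m i
  choose b hb using hNN
  refine ⟨fun u l i => b l i u / 3, fun u v huv m i j => ?_⟩
  have := recon (ZZ χ c Ψ u v 0) (fun m i j => by rw [ZZ, ZZ, qf_symm]) (fun i j l => hCC i j l u v huv)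
    m i j
  have h3 := hχ.three
  apply mul_left_cancel₀ h3
  rw [this]
  simp only [TT, hb _ _ u v huv, Fin.sum_univ_three]
  field_simp
  ring

end Pool.Agent.MP_f49c72_ag
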